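import Pool.Agent.AGR.Defs
import Pool.Agent.Helper87.AG.Core

/-!
# AGR/AnnSep: without annuli, points with different images are separated by a fibre component

PROOF PLAN.  `u : Y → [0, 1]` continuous with `u (f x₁) = 0`, `u (f x₂) = 1` (`exists_continuous_zero_one_of_isClosed` for the two points).  For `0 < t < 1` let `E t = {x | u (f x) = t}` (closed, `x₁ ∉ E t`); `x₂ ∉ connectedComponentIn (E t)ᶜ x₁`: that component is
preconnected, and if it contained `x₂`, `u ∘ f` would take the value `t` on it (`IsPreconnected.intermediate_value`).  `exists_connected_separator` (Helper87/AG/Sep.lean) gives `Q t ⊆ E t` closed, preconnected, nonempty, `x₂ ∉ connectedComponentIn (Q t)ᶜ x₁`.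
Case 1: for some `t` the map `f` is constant on `Q t`: take `c ∈ Q t`; `Q t ⊆ fc f c` (`IsPreconnected.subset_connectedComponentIn`), `x₁ ∉ fc f c` and `x₂ ∉ fc f c` because `u (f .) = t` on `fc f c` (`fc_sub`) and `t ≠ 0, 1`; `connectedComponentIn_mono`.
Case 2: for every `t ∈ (0, 1)` there are `a t, b t ∈ Q t`, `f (a t) ≠ f (b t)`.  Claim: there is `t₀ ∈ (0, 1)` such that every neighbourhood of `(a t₀, b t₀)` in `X × X` contains `(a t, b t)` for some `t ∈ (0, 1)`, `t ≠ t₀`: otherwise every `t` has a member `B t` of a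
countable basis of `X × X` (second countable: compact metric) with `(a t, b t) ∈ B t` and no other `(a t', b t')` in it; `t ↦ B t` is injective from the uncountable set `(0, 1)` to a countable set (`Cardinal.not_countable_real`, `Set.Countable`, `Cardinal.mk_Ioo_real`).
Take disjoint closed neighbourhoods: `U, U'` open, `f (a t₀) ∈ U`, `f (b t₀) ∈ U'`, `Disjoint (closure U) (closure U')` (`t2_separation`/`exists_open_nhds_disjoint_closure`, `Y` is compact Hausdorff, so T3); `V ⊆ f ⁻¹' U`, `V' ⊆ f ⁻¹' U'` connected open neighbourhoods of `a t₀`, `b t₀`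
(`locallyConnectedSpace_iff_subsets_isOpen_isConnected` or components of the preimages), `t ≠ t₀` with `a t ∈ V`, `b t ∈ V'`.  Apply `hna` to `Q t₀`, `Q t`, `closure V`, `closure V'`: `f '' closure V ⊆ closure U` etc.; `f '' Q t₀` and `f '' Q t` are disjoint as `u = t₀` resp. `t` on them.
-/

set_option autoImplicit false

namespace AGR

open AGV Pool.Agent.Helper87.AG

open Set Topology in
private theorem annsep_count {Z : Type} [TopologicalSpace Z] [SecondCountableTopology Z] (g : ℝ → Z) :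
    ∃ t₀ ∈ Ioo (0 : ℝ) 1, ∀ O ∈ 𝓝 (g t₀), ∃ t ∈ Ioo (0 : ℝ) 1, t ≠ t₀ ∧ g t ∈ O := by
  by_contra hcon
  push Not at hcon
  have h1 : ∀ t : Ioo (0 : ℝ) 1, ∃ B ∈ TopologicalSpace.countableBasis Z, g t ∈ B ∧
      ∀ t' ∈ Ioo (0 : ℝ) 1, t' ≠ t → g t' ∉ B := by
    intro t
    obtain ⟨O, hO, hO2⟩ := hcon t t.2
    obtain ⟨B, hB, hgB, hBO⟩ := (TopologicalSpace.isBasis_countableBasis Z).mem_nhds_iff.1 hO
    exact ⟨B, hB, hgB, fun t' ht' hne h => hO2 t' ht' hne (hBO h)⟩
  choose B hB hgB hB2 using h1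
  have hinj : Function.Injective (fun t : Ioo (0 : ℝ) 1 =>
      (⟨B t, hB t⟩ : TopologicalSpace.countableBasis Z)) := by
    intro t t' h
    by_contra hne
    have h2 : B t = B t' := congrArg Subtype.val h
    have h3 : (t' : ℝ) ≠ t := fun h4 => hne (Subtype.ext h4.symm)
    apply hB2 t t' t'.2 h3
    rw [h2]
    exact hgB t'
  have h2 : Countable (TopologicalSpace.countableBasis Z) := (TopologicalSpace.countable_countableBasis Z).to_subtype
  have h3 : Countable (Ioo (0 : ℝ) 1) := hinj.countable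
  have h4 := Cardinal.mk_le_aleph0_iff.2 h3
  rw [Cardinal.mk_Ioo_real zero_lt_one] at h4
  exact absurd h4 (not_le.2 Cardinal.aleph0_lt_continuum)

theorem ann_sep {X Y : Type} [MetricSpace X] [CompactSpace X] [PreconnectedSpace X] [LocallyConnectedSpace X]
    [TopologicalSpace Y] [T2Space Y] [CompactSpace Y]
    (hlift : ∀ φ : C(X, Circle), ∃ θ : C(X, ℝ), ∀ x, φ x = Circle.exp (θ x)) {f : X → Y} (hf : Continuous f)
    (hna : NoAnn f) {x₁ x₂ : X} (h : f x₁ ≠ f x₂) :
    ∃ c : X, x₁ ∉ fc f c ∧ x₂ ∉ fc f c ∧ x₂ ∉ connectedComponentIn (fc f c)ᶜ x₁ := by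
  classical
  have hdis : Disjoint ({f x₁} : Set Y) {f x₂} := by
    rw [Set.disjoint_singleton]
    exact h
  obtain ⟨u, hu0, hu1, _⟩ := exists_continuous_zero_one_of_isClosed (isClosed_singleton (x := f x₁))
    (isClosed_singleton (x := f x₂)) hdis
  have hux1 : u (f x₁) = 0 := hu0 rfl
  have hux2 : u (f x₂) = 1 := hu1 rfl
  have huf : Continuous fun x => u (f x) := u.continuous.comp hf
  have hQ : ∀ t ∈ Set.Ioo (0 : ℝ) 1, ∃ Q : Set X, Q ⊆ {x | u (f x) = t} ∧ IsClosed Q ∧ IsPreconnected Q ∧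
      Q.Nonempty ∧ x₂ ∉ connectedComponentIn Qᶜ x₁ := by
    intro t ht
    have hEc : IsClosed {x | u (f x) = t} := isClosed_eq huf continuous_const
    have hx1 : x₁ ∉ {x | u (f x) = t} := by
      intro hx
      have h1 : u (f x₁) = t := hx
      rw [hux1] at h1
      exact absurd h1 (ne_of_lt ht.1)
    refine exists_connected_separator hlift hEc hx1 ?_
    intro hx2
    have h1 : x₁ ∈ connectedComponentIn {x | u (f x) = t}ᶜ x₁ := mem_connectedComponentIn hx1
    have h2 := (isPreconnected_connectedComponentIn (F := {x | u (f x) = t}ᶜ) (x := x₁)).intermediate_value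
      h1 hx2 huf.continuousOn
    simp only [hux1, hux2] at h2
    obtain ⟨z, hz, hzt⟩ := h2 ⟨ht.1.le, ht.2.le⟩
    exact connectedComponentIn_subset _ _ hz hzt
  by_cases hcase : ∃ t ∈ Set.Ioo (0 : ℝ) 1, ∃ Q : Set X, Q ⊆ {x | u (f x) = t} ∧ IsClosed Q ∧ IsPreconnected Q ∧
      Q.Nonempty ∧ x₂ ∉ connectedComponentIn Qᶜ x₁ ∧ ∀ a ∈ Q, ∀ b ∈ Q, f a = f b
  · obtain ⟨t, ht, Q, hQE, hQc, hQp, ⟨c, hc⟩, hsep, hconst⟩ := hcase
    have hfct : ∀ z ∈ fc f c, u (f z) = t := by
      intro z hz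
      rw [fc_sub f c z hz]
      exact hQE hc
    have hQfc : Q ⊆ fc f c := by
      refine hQp.subset_connectedComponentIn hc ?_
      intro z hz
      exact hconst z hz c hc
    refine ⟨c, ?_, ?_, ?_⟩
    · intro hx
      have h1 := hfct _ hx
      rw [hux1] at h1
      exact absurd h1 (ne_of_lt ht.1)
    · intro hx
      have h1 := hfct _ hx
      rw [hux2] at h1
      exact absurd h1 (ne_of_gt ht.2)
    · intro hx
      exact hsep (connectedComponentIn_mono _ (Set.compl_subset_compl.2 hQfc) hx)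
  · exfalso
    push Not at hcase
    have hQ2 : ∀ t : ℝ, ∃ (Q : Set X) (a b : X), t ∈ Set.Ioo (0 : ℝ) 1 → Q ⊆ {x | u (f x) = t} ∧ IsClosed Q ∧
        IsPreconnected Q ∧ a ∈ Q ∧ b ∈ Q ∧ f a ≠ f b := by
      intro t
      by_cases ht : t ∈ Set.Ioo (0 : ℝ) 1
      · obtain ⟨Q, h1, h2, h3, h4, h5⟩ := hQ t ht
        obtain ⟨a, ha, b, hb, hab⟩ := hcase t ht Q h1 h2 h3 h4 h5
        exact ⟨Q, a, b, fun _ => ⟨h1, h2, h3, ha, hb, hab⟩⟩
      · exact ⟨∅, x₁, x₁, fun ht' => absurd ht' ht⟩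
    choose Q a b hQab using hQ2
    obtain ⟨t₀, ht₀, hacc⟩ := annsep_count (fun t => (a t, b t))
    obtain ⟨g1, g2, g3, g4, g5, g6⟩ := hQab t₀ ht₀
    obtain ⟨U, haU, hU, U', hbU', hU', hUU'⟩ := exists_open_nhds_disjoint_closure g6
    have hlc := locallyConnectedSpace_iff_subsets_isOpen_isConnected.1 (inferInstance : LocallyConnectedSpace X)
    obtain ⟨V, hVU, hVo, haV, hVc⟩ := hlc (a t₀) (f ⁻¹' U) ((hU.preimage hf).mem_nhds haU)
    obtain ⟨V', hVU', hVo', hbV', hVc'⟩ := hlc (b t₀) (f ⁻¹' U') ((hU'.preimage hf).mem_nhds hbU')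
    have hO : V ×ˢ V' ∈ nhds (a t₀, b t₀) := prod_mem_nhds (hVo.mem_nhds haV) (hVo'.mem_nhds hbV')
    obtain ⟨t, ht, hne, htO⟩ := hacc _ hO
    obtain ⟨k1, k2, k3, k4, k5, k6⟩ := hQab t ht
    have htV : a t ∈ V := htO.1
    have htV' : b t ∈ V' := htO.2
    have himg : ∀ (W : Set X) (S : Set Y), W ⊆ f ⁻¹' S → f '' closure W ⊆ closure S := by
      intro W S hWS
      refine (image_closure_subset_closure_image hf).trans (closure_mono ?_)
      rintro _ ⟨z, hz, rfl⟩
      exact hWS hz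
    refine hna (Q t₀) (Q t) (closure V) (closure V') g2 k2 isClosed_closure isClosed_closure g3 k3
      hVc.isPreconnected.closure hVc'.isPreconnected.closure
      ⟨a t₀, subset_closure haV, g4⟩ ⟨a t, subset_closure htV, k4⟩ ⟨b t₀, subset_closure hbV', g5⟩
      ⟨b t, subset_closure htV', k5⟩ ?_ ?_
    · rw [Set.disjoint_left]
      rintro _ ⟨z, hz, rfl⟩ ⟨z', hz', hzz⟩
      have e1 : u (f z) = t₀ := g1 hz
      have e2 : u (f z') = t := k1 hz'
      rw [hzz, e1] at e2
      exact hne e2.symm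
    · exact hUU'.mono (himg V U hVU) (himg V' U' hVU')

end AGR
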