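import Pool.Agent.AGR.Perm

/-!
# AGR/Coch: the cochains `c s` are closed, invariant, and vanish on small simplices

PROOF PLAN.  Induction on `s`.  `cc_good`: `fd_fd` (AGV/Fd.lean) for `s + 1`.  `cc_empty`: `fd D ∅ = 0`.  `cc_inv`: `fd_perm`, then `fd_congr` on the faces `ρ = σ.erase v` (good):
`la s (ρ.image π) * cc (ρ.image π) = (la s ρ + t s) * cc ρ` (for `ρ = ∅` both are `0` by `cc_empty`), `fd_add`, and `fd (fun ρ => t s * cc ρ) σ = t s * fd cc σ = 0` (`cc_good`).
`cc_small`: the faces of a small simplex are small.  `lam_perm`: for good nonempty `σ` there is exactly one vertex with the smallest second coordinate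
(`Finset.exists_min_image`, see AGV/Phi.lean).
-/

set_option autoImplicit false

namespace AGR

open AGV

variable {M N p : ℕ}

private theorem coch_mul (c : ZMod p) (D : Finset (Vx M N) → ZMod p) (σ : Finset (Vx M N)) :
    fd (fun ρ => c * D ρ) σ = c * fd D σ := by
  unfold fd
  rw [Finset.mul_sum]
  exact Finset.sum_congr rfl fun v _ => (mul_smul_comm _ _ _).symm

private theorem coch_lam (lab : Vx M N → ZMod p) {σ : Finset (Vx M N)} (h : Good σ) {v : Vx M N} (hv : v ∈ σ)
    (hm : ∀ w ∈ σ, v.2 ≤ w.2) : lam lab σ = lab v := by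
  classical
  unfold lam
  have h1 : σ.filter (fun v => ∀ w ∈ σ, v.2 ≤ w.2) = {v} := by
    ext u
    rw [Finset.mem_filter, Finset.mem_singleton]
    constructor
    · rintro ⟨hu, hu2⟩
      exact h u hu v hv (le_antisymm (hu2 v hv) (hm u hu))
    · rintro rfl
      exact ⟨hv, hm⟩
  calc _ = ∑ u ∈ ({v} : Finset (Vx M N)), lab u := by
        refine Finset.sum_congr ?_ fun _ _ => rfl
        rw [← h1]
    _ = lab v := Finset.sum_singleton _ _

theorem cc_good (w : Finset (Vx M N) → ZMod p) (hw : ∀ σ, Good σ → fd w σ = 0) (la : ℕ → Finset (Vx M N) → ZMod p)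
    (s : ℕ) (σ : Finset (Vx M N)) (h : Good σ) : fd (cc w la s) σ = 0 := by
  cases s with
  | zero => exact hw σ h
  | succ s => exact fd_fd (fun σ => la s σ * cc w la s σ) h

theorem cc_empty (w : Finset (Vx M N) → ZMod p) (hw : w ∅ = 0) (la : ℕ → Finset (Vx M N) → ZMod p) (s : ℕ) :
    cc w la s ∅ = 0 := by
  cases s with
  | zero => exact hw
  | succ s =>
    show fd (fun σ => la s σ * cc w la s σ) ∅ = 0
    unfold fd
    exact Finset.sum_empty

theorem cc_inv [NeZero M] (w : Finset (Vx M N) → ZMod p) (hw : ∀ σ, Good σ → fd w σ = 0) (hw0 : w ∅ = 0)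
    (la : ℕ → Finset (Vx M N) → ZMod p) (π : Equiv.Perm (Vx M N)) (hπ : ∀ v, (π v).2 = v.2) (t : ℕ → ZMod p)
    (hw2 : ∀ σ, Good σ → w (σ.image π) = w σ)
    (hl : ∀ s σ, Good σ → σ.Nonempty → la s (σ.image π) = la s σ + t s) (s : ℕ) (σ : Finset (Vx M N)) (h : Good σ) :
    cc w la s (σ.image π) = cc w la s σ := by
  induction s generalizing σ with
  | zero => exact hw2 σ h
  | succ s ih =>
    show fd (fun σ => la s σ * cc w la s σ) (σ.image π) = fd (fun σ => la s σ * cc w la s σ) σ
    rw [fd_perm _ π hπ]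
    have h1 : fd (fun ρ => la s (ρ.image π) * cc w la s (ρ.image π)) σ =
        fd (fun ρ => la s ρ * cc w la s ρ + t s * cc w la s ρ) σ := by
      refine fd_congr fun v _ => ?_
      show la s ((σ.erase v).image π) * cc w la s ((σ.erase v).image π) =
        la s (σ.erase v) * cc w la s (σ.erase v) + t s * cc w la s (σ.erase v)
      have hg : Good (σ.erase v) := h.erase v
      rw [ih _ hg]
      rcases (σ.erase v).eq_empty_or_nonempty with h2 | h2
      · rw [h2, cc_empty w hw0]
        simp only [mul_zero, add_zero]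
      · rw [hl s _ hg h2, add_mul]
    rw [h1, fd_add, coch_mul, cc_good w hw la s σ h, mul_zero, add_zero]

theorem cc_small (w : Finset (Vx M N) → ZMod p) (la : ℕ → Finset (Vx M N) → ZMod p) (Sm : Finset (Vx M N) → Prop)
    (hS : ∀ σ τ : Finset (Vx M N), τ ⊆ σ → Sm σ → Sm τ) (hw : ∀ σ, Sm σ → w σ = 0) (s : ℕ) (σ : Finset (Vx M N))
    (h : Sm σ) : cc w la s σ = 0 := by
  induction s generalizing σ with
  | zero => exact hw σ h
  | succ s ih =>
    refine Finset.sum_eq_zero fun v _ => ?_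
    show sg v σ • (la s (σ.erase v) * cc w la s (σ.erase v)) = 0
    rw [ih _ (hS σ _ (Finset.erase_subset v σ) h), mul_zero, smul_zero]

theorem lam_perm (lab : Vx M N → ZMod p) (π : Equiv.Perm (Vx M N)) (hπ : ∀ v, (π v).2 = v.2) (t : ZMod p)
    (hl : ∀ v, lab (π v) = lab v + t) (σ : Finset (Vx M N)) (h : Good σ) (hne : σ.Nonempty) :
    lam lab (σ.image π) = lam lab σ + t := by
  obtain ⟨v, hv, hm⟩ := Finset.exists_min_image σ (fun v => v.2) hne
  have hg : Good (σ.image π) := by
    intro u hu w hw huw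
    obtain ⟨u', hu', rfl⟩ := Finset.mem_image.1 hu
    obtain ⟨w', hw', rfl⟩ := Finset.mem_image.1 hw
    rw [hπ, hπ] at huw
    rw [h u' hu' w' hw' huw]
  rw [coch_lam lab h hv hm, coch_lam lab hg (Finset.mem_image_of_mem π hv) ?_, hl]
  intro w hw
  obtain ⟨w', hw', rfl⟩ := Finset.mem_image.1 hw
  rw [hπ, hπ]
  exact hm w' hw'

end AGR
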