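import Mathlib

/-!
# AGR/EqC: equivariant choice for an arbitrary group

An equivariant choice is determined by its values at representatives of the orbits of the action `a`; the value at the
representative has to be fixed by the stabilizer.
-/

set_option autoImplicit false

namespace AGR

theorem eqc {Γ T B : Type} [Group Γ] (a : Γ → T → T) (a_one : ∀ x, a 1 x = x) (a_mul : ∀ g h x, a (g * h) x = a g (a h x))
    (b : Γ → B → B) (b_one : ∀ y, b 1 y = y) (b_mul : ∀ g h y, b (g * h) y = b g (b h y))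
    (P : T → B → Prop) (hP : ∀ g x y, P x y → P (a g x) (b g y))
    (hex : ∀ x, ∃ y, P x y ∧ ∀ g, a g x = x → b g y = y) :
    ∃ F : T → B, (∀ x, P x (F x)) ∧ ∀ g x, F (a g x) = b g (F x) := by
  classical
  let S : Setoid T :=
    { r := fun x y => ∃ g, a g x = y
      iseqv := ⟨fun x => ⟨1, a_one x⟩,
        fun {x y} ⟨g, h⟩ => ⟨g⁻¹, by rw [← h, ← a_mul, inv_mul_cancel, a_one]⟩,
        fun {x y z} ⟨g, h⟩ ⟨g', h'⟩ => ⟨g' * g, by rw [a_mul, h, h']⟩⟩ }
  obtain ⟨r, hr, hrr⟩ : ∃ r : T → T, (∀ x, ∃ g, a g (r x) = x) ∧ ∀ g x, r (a g x) = r x := by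
    refine ⟨fun x => (Quotient.mk S x).out, fun x => Quotient.mk_out (s := S) x, fun g x => ?_⟩
    have h : Quotient.mk S (a g x) = Quotient.mk S x :=
      Quotient.sound ⟨g⁻¹, by rw [← a_mul, inv_mul_cancel, a_one]⟩
    show (Quotient.mk S (a g x)).out = (Quotient.mk S x).out
    rw [h]
  choose h hh using hr
  choose y hy1 hy2 using hex
  refine ⟨fun x => b (h x) (y (r x)), fun x => ?_, fun g x => ?_⟩
  · have h1 := hP (h x) (r x) (y (r x)) (hy1 (r x))
    rwa [hh x] at h1
  · show b (h (a g x)) (y (r (a g x))) = b g (b (h x) (y (r x)))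
    have e1 : a (h (a g x)) (r x) = a g x := by
      have h1 := hh (a g x)
      rwa [hrr] at h1
    have e2 : a (g * h x) (r x) = a g x := by rw [a_mul, hh x]
    have hfix : a ((g * h x)⁻¹ * h (a g x)) (r x) = r x := by
      rw [a_mul, e1, ← e2, ← a_mul, inv_mul_cancel, a_one]
    have h3 := hy2 (r x) _ hfix
    have h4 : b (g * h x) (b ((g * h x)⁻¹ * h (a g x)) (y (r x))) = b (h (a g x)) (y (r x)) := by
      rw [← b_mul]
      congr 1
      group
    rw [hrr, ← h4, h3, b_mul]

end AGR
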