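import Pool.Agent.AGR.Defs
import Pool.Agent.AGR.EqC
import Pool.Agent.AGV.CvC

/-!
# AGR/CovF: the vertex map `F`, the values `Φ` and the labels

PROOF PLAN.  `covx` (AGV/CvC.lean) gives `I`, `W : (G ⧸ K) × I → Set X`.  `M = Nat.card (G ⧸ K)` (finite, nonzero: `K.quotient_finite_of_isOpen`), `N = Nat.card I`; bijections `G ⧸ K ≃ ZMod M`, `I ≃ Fin N`, so
`b : Vx M N ≃ (G ⧸ K) × I` with `(b v).2` depending on `v.2` only.  `πG g : Perm (Vx M N)` transported from `(c, i) ↦ (g • c, i)`; `π γ = πG (ι γ)` (a homomorphism); `(π γ v).2 = v.2`; `π γ = 1` if `ι γ ∈ K` (`K` normal: `k • c = c`,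
`QuotientGroup.eq_one_iff`, `QuotientGroup.mk_mul`).
`F`: Lebesgue number `L₀` of the cover `W` (`lebesgue_number_lemma_of_metric`); `eqc` for `G` acting on `X` (free: `f` is equivariant) and on `Vx M N` by `πG`, `P x v = ∀ y, dist y x < L₀ → y ∈ W (b v)` (invariant: isometries, equivariance of `W`).
For a list `l` of mesh `< L ≤ L₀` all `F x`, `x ∈ l`, satisfy `y₀ ∈ W (b (F x))` with `y₀` the head of `l`; so they are among the at most `d + 1` vertices `v` with `y₀ ∈ W (b v)` (`Set.ncard`), and two of them with the same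
second coordinate are equal (disjointness): `OK d (l.map F)`.
`Φ`: for `v` let `p v` be the point given by `covx` (`∀ x ∈ W (b v), ∃ k ∈ K, k • x ∈ thickening ρ (fc f (p v))`), `ρ = η₁` small: `dist y x < η₁ → ‖φ (f y) - φ (f x)‖ < κ / 8` (`φ ∘ f` is uniformly continuous; `X` compact; take `hφ`); so for `x ∈ W (b v)`
`‖φ (f x) - φ (f (p v))‖ < κ / 4` (`‖φ (f (k • x)) - φ (f x)‖ < κ / 8` by `hK2`, `f` is constant on `fc f (p v)`: `fc_sub`).  Let `rep v` be the representative of the `Γ`-orbit of `v` (`Quotient.out`), `Φ v = φ (f (p (rep v)))`, or `κ / 8` if this is `0`.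
For `v = F x`, `rep v = π γ v = F (ι γ • x)`, so `ι γ • x ∈ W (b (rep v))`, and `‖φ (f (ι γ • x)) - φ (f x)‖ < κ / 8` (`hΓ2`): total `< κ`.
Labels: for every `v` choose `γ v` with `π (γ v) (rep v) = v`; `lab s v = χ s (γ v)`; if `π γ v = v` then `ι γ ∈ K` (`γ • c = c` in `G ⧸ K`, `K` normal) so `χ s γ = 0`; hence `lab s (π γ v) = lab s v + χ s γ`.
-/

set_option autoImplicit false

namespace AGR

open AGV Pool.Agent.Helper87.AG

private theorem covf_norm {G : Type} [Group G] (K : Subgroup G) (hKn : K.Normal) (k : G) (hk : k ∈ K) (c : G ⧸ K) :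
    k • c = c := by
  induction c using QuotientGroup.induction_on with
  | H h =>
    have h1 : h⁻¹ * k * h⁻¹⁻¹ ∈ K := hKn.conj_mem k hk h⁻¹
    show ((k * h : G) : G ⧸ K) = (h : G ⧸ K)
    rw [eq_comm, QuotientGroup.eq]
    rw [inv_inv] at h1
    rw [← mul_assoc]
    exact h1

private theorem covf_norm' {G : Type} [Group G] (K : Subgroup G) (hKn : K.Normal) (k : G) (c : G ⧸ K) (h : k • c = c) :
    k ∈ K := by
  induction c using QuotientGroup.induction_on with
  | H h' =>
    have h1 : ((k * h' : G) : G ⧸ K) = (h' : G ⧸ K) := h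
    rw [eq_comm, QuotientGroup.eq, ← mul_assoc] at h1
    have h2 := hKn.conj_mem _ h1 h'
    have h3 : h' * (h'⁻¹ * k * h') * h'⁻¹ = k := by group
    rwa [h3] at h2

/-- the action on the vertices -/
private def covf_pi {G : Type} [Group G] {K : Subgroup G} {M N : ℕ} (e : G ⧸ K ≃ ZMod M) (g : G) :
    Equiv.Perm (Vx M N) where
  toFun v := (e (g • e.symm v.1), v.2)
  invFun v := (e (g⁻¹ • e.symm v.1), v.2)
  left_inv v := by simp
  right_inv v := by simp

private theorem covf_pi_apply {G : Type} [Group G] {K : Subgroup G} {M N : ℕ} (e : G ⧸ K ≃ ZMod M) (g : G)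
    (v : Vx M N) : covf_pi e g v = (e (g • e.symm v.1), v.2) := rfl

private theorem covf_pi_one {G : Type} [Group G] {K : Subgroup G} {M N : ℕ} (e : G ⧸ K ≃ ZMod M)
    (v : Vx M N) : covf_pi e 1 v = v := by
  rw [covf_pi_apply]
  simp

private theorem covf_pi_mul {G : Type} [Group G] {K : Subgroup G} {M N : ℕ} (e : G ⧸ K ≃ ZMod M) (g h : G)
    (v : Vx M N) : covf_pi e (g * h) v = covf_pi e g (covf_pi e h v) := by
  rw [covf_pi_apply, covf_pi_apply, covf_pi_apply]
  simp [mul_smul]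

/-- representatives of the orbits -/
private theorem covf_rep {Γ V : Type} [Group Γ] (π : Γ → Equiv.Perm V) (h1 : ∀ v, π 1 v = v)
    (h2 : ∀ g h v, π (g * h) v = π g (π h v)) :
    ∃ rep : V → V, (∀ g v, rep (π g v) = rep v) ∧ ∀ v, ∃ g, π g (rep v) = v := by
  let S : Setoid V := {
    r := fun v w => ∃ g, π g v = w
    iseqv := {
      refl := fun v => ⟨1, h1 v⟩
      symm := by
        rintro v w ⟨g, rfl⟩
        exact ⟨g⁻¹, by rw [← h2, inv_mul_cancel, h1]⟩
      trans := by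
        rintro u v w ⟨g, rfl⟩ ⟨h, rfl⟩
        exact ⟨h * g, h2 h g u⟩ } }
  refine ⟨fun v => (Quotient.mk S v).out, fun g v => ?_, fun v => ?_⟩
  · have h3 : Quotient.mk S (π g v) = Quotient.mk S v := (Quotient.sound (⟨g, rfl⟩ : S.r v (π g v))).symm
    dsimp only
    rw [h3]
  · have h3 : S.r (Quotient.mk S v).out v := Quotient.exact (Quotient.out_eq (Quotient.mk S v))
    exact h3

theorem covF {G X Y Γ : Type} [Group G] [TopologicalSpace G] [IsTopologicalGroup G] [CompactSpace G]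
    [MetricSpace X] [CompactSpace X] [Nonempty X] [TopologicalSpace Y] [CompactSpace Y] [T2Space Y]
    [MulAction G X] [ContinuousSMul G X] [MulAction G Y] [ContinuousSMul G Y]
    (hiso : ∀ (g : G) (x y : X), dist (g • x) (g • y) = dist x y)
    (hfree : ∀ (g : G) (y : Y), g • y = y → g = 1) {f : X → Y} (hf : Continuous f)
    (hfe : ∀ (g : G) (x : X), f (g • x) = g • f x) {d : ℕ}
    (hd : CovDimLE (MulAction.orbitRel.Quotient G Y) d) (K : Subgroup G) (hKn : K.Normal) (hK : IsOpen (K : Set G))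
    (φ : Y → ℂ) (hφ : Continuous φ) {κ : ℝ} (hκ : 0 < κ)
    (hK2 : ∀ k ∈ K, ∀ x : X, ‖φ (f (k • x)) - φ (f x)‖ < κ / 8)
    [Group Γ] (ι : Γ →* G) (hΓ2 : ∀ (γ : Γ) (x : X), ‖φ (f (ι γ • x)) - φ (f x)‖ < κ / 8)
    {p : ℕ} (χ : ℕ → Γ → ZMod p) (hχ : ∀ s γ γ', χ s (γ * γ') = χ s γ + χ s γ') (hχK : ∀ s γ, ι γ ∈ K → χ s γ = 0) :
    ∃ (M N : ℕ) (_ : NeZero M) (F : X → Vx M N) (π : Γ → Equiv.Perm (Vx M N)) (Φ : Vx M N → ℂ) (lab : ℕ → Vx M N → ZMod p)
      (L : ℝ), 0 < L ∧ (∀ l : List X, Msh L l → OK d (l.map F)) ∧ (∀ γ v, (π γ v).2 = v.2) ∧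
      (∀ γ x, F (ι γ • x) = π γ (F x)) ∧ (∀ γ, ι γ ∈ K → ∀ v, π γ v = v) ∧ (∀ v, Φ v ≠ 0) ∧ (∀ γ v, Φ (π γ v) = Φ v) ∧
      (∀ x, ‖Φ (F x) - φ (f x)‖ < κ) ∧ ∀ s γ v, lab s (π γ v) = lab s v + χ s γ := by
  classical
  -- uniform continuity
  have huc : UniformContinuous (fun x => φ (f x)) :=
    CompactSpace.uniformContinuous_of_continuous (hφ.comp hf)
  obtain ⟨η, hη, hη'⟩ := Metric.uniformContinuous_iff.1 huc (κ / 8) (by positivity)
  obtain ⟨I, hI, W, hWo, hWu, hWe, hWd, hWn, -, hWp⟩ := covx hiso hfree hf hfe hd K hK hη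
  have hfin : Finite (G ⧸ K) := Subgroup.quotient_finite_of_isOpen K hK
  have hM0 : Nat.card (G ⧸ K) ≠ 0 := Nat.card_pos.ne'
  have hM : NeZero (Nat.card (G ⧸ K)) := ⟨hM0⟩
  have hcard : Nat.card (G ⧸ K) = Nat.card (ZMod (Nat.card (G ⧸ K))) := (Nat.card_zmod _).symm
  obtain ⟨e⟩ : Nonempty (G ⧸ K ≃ ZMod (Nat.card (G ⧸ K))) := Finite.card_eq.1 hcard
  obtain ⟨e2⟩ : Nonempty (I ≃ Fin (Nat.card I)) := ⟨Finite.equivFin I⟩
  obtain ⟨L, hL, hL'⟩ := lebesgue_number_lemma_of_metric (isCompact_univ (X := X)) hWo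
    (by rw [hWu])
  set bv : Vx (Nat.card (G ⧸ K)) (Nat.card I) → (G ⧸ K) × I := fun v => (e.symm v.1, e2.symm v.2) with hbv
  have hbinj : Function.Injective bv := by
    intro v w h
    rw [hbv] at h
    simp only [Prod.mk.injEq, EmbeddingLike.apply_eq_iff_eq] at h
    exact Prod.ext h.1 h.2
  have hbpi : ∀ g v, bv (covf_pi e g v) = (g • (bv v).1, (bv v).2) := by
    intro g v
    rw [hbv, covf_pi_apply]
    simp
  obtain ⟨F, hF1, hF2⟩ := eqc (fun (g : G) (x : X) => g • x) (one_smul G) (fun g h x => mul_smul g h x)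
    (fun g v => covf_pi (N := Nat.card I) e g v) (covf_pi_one e) (covf_pi_mul e)
    (fun x v => ∀ y, dist y x < L → y ∈ W (bv v))
    (by
      intro g x v h y hy
      have h1 : dist (g⁻¹ • y) x < L := by
        have h2 := hiso g⁻¹ y (g • x)
        rw [inv_smul_smul] at h2
        rw [h2]
        exact hy
      have h3 := h _ h1
      rw [hbpi]
      have h4 := (hWe g (bv v).1 (bv v).2 (g⁻¹ • y)).2 h3
      rw [smul_inv_smul] at h4
      exact h4)
    (by
      intro x
      obtain ⟨v, hv⟩ := hL' x (Set.mem_univ x)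
      refine ⟨(e v.1, e2 v.2), ?_, ?_⟩
      · intro y hy
        have h1 : bv (e v.1, e2 v.2) = v := by
          rw [hbv]
          simp
        rw [h1]
        exact hv (Metric.mem_ball.2 hy)
      · intro g hg
        have h1 : g • f x = f x := by
          rw [← hfe]
          exact congrArg f hg
        rw [hfree g _ h1]
        exact covf_pi_one e _)
  have hF1' : ∀ x, x ∈ W (bv (F x)) := fun x => hF1 x x (by rw [dist_self]; exact hL)
  -- the values
  choose p hp using hWp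
  have hpv : ∀ v x, x ∈ W v → ‖φ (f x) - φ (f (p v))‖ < κ / 4 := by
    intro v x hx
    obtain ⟨k, hk, hkx⟩ := hp v x hx
    obtain ⟨z, hz, hzk⟩ := Metric.mem_thickening_iff.1 hkx
    have h1 := hη' hzk
    rw [dist_eq_norm] at h1
    have h2 := hK2 k hk x
    have h3 : f z = f (p v) := fc_sub f (p v) z hz
    rw [h3] at h1
    have h4 : φ (f x) - φ (f (p v)) = -(φ (f (k • x)) - φ (f x)) + (φ (f (k • x)) - φ (f (p v))) := by ring
    rw [h4]
    refine (norm_add_le _ _).trans_lt ?_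
    rw [norm_neg]
    linarith
  have hpi1 : ∀ v, covf_pi (N := Nat.card I) e (ι 1) v = v := by
    intro v
    rw [map_one]
    exact covf_pi_one e v
  have hpim : ∀ (g h : Γ) v, covf_pi (N := Nat.card I) e (ι (g * h)) v =
      covf_pi e (ι g) (covf_pi e (ι h) v) := by
    intro g h v
    rw [map_mul]
    exact covf_pi_mul e _ _ v
  have hinv : ∀ (g : Γ) v, covf_pi (N := Nat.card I) e (ι g⁻¹) (covf_pi e (ι g) v) = v := by
    intro g v
    rw [← hpim, inv_mul_cancel, hpi1]
  obtain ⟨rep, hrep1, hrep2⟩ := covf_rep (fun γ : Γ => covf_pi (N := Nat.card I) e (ι γ)) hpi1 hpim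
  choose γv hγv using hrep2
  refine ⟨Nat.card (G ⧸ K), Nat.card I, hM, F, fun γ => covf_pi e (ι γ),
    fun v => if φ (f (p (bv (rep v)))) = 0 then ((κ / 8 : ℝ) : ℂ) else φ (f (p (bv (rep v)))),
    fun s v => χ s (γv v), L, hL, ?_, ?_, ?_, ?_, ?_, ?_, ?_, ?_⟩
  · intro l hl
    rcases l with _ | ⟨y0, l⟩
    · refine ⟨?_, ?_⟩
      · intro u hu
        simp at hu
      · simp
    · have hy0 : ∀ u ∈ (y0 :: l).map F, y0 ∈ W (bv u) := by
        intro u hu
        obtain ⟨x, hx, rfl⟩ := List.mem_map.1 hu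
        exact hF1 x y0 (hl y0 List.mem_cons_self x hx)
      refine ⟨?_, ?_⟩
      · intro u hu w hw huw
        have h1 := hy0 u hu
        have h2 := hy0 w hw
        by_contra hne
        have h3 : (bv u).1 ≠ (bv w).1 := by
          intro h
          apply hne
          apply hbinj
          refine Prod.ext h ?_
          rw [hbv]
          dsimp only
          rw [huw]
        have h4 : (bv u).2 = (bv w).2 := by
          rw [hbv]
          dsimp only
          rw [huw]
        have h5 := hWd (bv u).1 (bv w).1 (bv u).2 h3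
        refine Set.disjoint_left.1 h5 h1 ?_
        rw [h4]
        exact h2
      · have h1 : (((y0 :: l).map F).toFinset.image bv).card ≤ d + 1 := by
          refine le_trans ?_ (hWn y0)
          rw [← Set.ncard_coe_finset]
          refine Set.ncard_le_ncard ?_ (Set.toFinite _)
          intro v hv
          obtain ⟨u, hu, rfl⟩ := Finset.mem_image.1 (Finset.mem_coe.1 hv)
          exact hy0 u (List.mem_toFinset.1 hu)
        rwa [Finset.card_image_of_injective _ hbinj] at h1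
  · intro γ v
    rfl
  · intro γ x
    exact hF2 (ι γ) x
  · intro γ hγ v
    rw [covf_pi_apply, covf_norm K hKn _ hγ, Equiv.apply_symm_apply]
  · intro v
    dsimp only
    split_ifs with h
    · have h1 : (κ / 8 : ℝ) ≠ 0 := by positivity
      exact_mod_cast h1
    · exact h
  · intro γ v
    dsimp only
    rw [hrep1]
  · intro x
    dsimp only
    have h1 := hγv (F x)
    have h2 : rep (F x) = F (ι (γv (F x))⁻¹ • x) := by
      have h3 : F (ι (γv (F x))⁻¹ • x) = covf_pi e (ι (γv (F x))⁻¹) (F x) := hF2 _ x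
      have h4 := hinv (γv (F x)) (rep (F x))
      rw [h1] at h4
      rw [h3, h4]
    have h4 : ‖φ (f (ι (γv (F x))⁻¹ • x)) - φ (f (p (bv (rep (F x)))))‖ < κ / 4 := by
      refine hpv _ _ ?_
      rw [h2]
      exact hF1' _
    have h5 := hΓ2 (γv (F x))⁻¹ x
    have h6 : ‖(if φ (f (p (bv (rep (F x))))) = 0 then ((κ / 8 : ℝ) : ℂ) else φ (f (p (bv (rep (F x)))))) -
        φ (f (p (bv (rep (F x)))))‖ ≤ κ / 8 := by
      split_ifs with h
      · rw [h, sub_zero, Complex.norm_real, Real.norm_eq_abs, abs_of_pos (by positivity)]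
      · rw [sub_self, norm_zero]
        positivity
    have h7 : (if φ (f (p (bv (rep (F x))))) = 0 then ((κ / 8 : ℝ) : ℂ) else φ (f (p (bv (rep (F x)))))) -
        φ (f x) = ((if φ (f (p (bv (rep (F x))))) = 0 then ((κ / 8 : ℝ) : ℂ) else φ (f (p (bv (rep (F x)))))) -
        φ (f (p (bv (rep (F x)))))) + -(φ (f (ι (γv (F x))⁻¹ • x)) - φ (f (p (bv (rep (F x)))))) +
        (φ (f (ι (γv (F x))⁻¹ • x)) - φ (f x)) := by ring
    rw [h7]
    have h8 := norm_add₃_le (a := (if φ (f (p (bv (rep (F x))))) = 0 then ((κ / 8 : ℝ) : ℂ)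
        else φ (f (p (bv (rep (F x)))))) - φ (f (p (bv (rep (F x))))))
      (b := -(φ (f (ι (γv (F x))⁻¹ • x)) - φ (f (p (bv (rep (F x)))))))
      (c := φ (f (ι (γv (F x))⁻¹ • x)) - φ (f x))
    rw [norm_neg] at h8
    linarith
  · intro s γ v
    dsimp only
    have h1 := hγv v
    have h2 := hγv (covf_pi e (ι γ) v)
    rw [hrep1] at h2
    have h3 : covf_pi e (ι ((γv (covf_pi e (ι γ) v))⁻¹ * (γ * γv v))) (rep v) = rep v := by
      rw [hpim, hpim, h1]
      have h5 := hinv (γv (covf_pi e (ι γ) v)) (rep v)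
      rw [h2] at h5
      exact h5
    have h4 : ι ((γv (covf_pi e (ι γ) v))⁻¹ * (γ * γv v)) ∈ K := by
      refine covf_norm' K hKn _ (e.symm (rep v).1) ?_
      have h5 := congrArg Prod.fst h3
      rw [covf_pi_apply] at h5
      have h6 := congrArg e.symm h5
      rw [Equiv.symm_apply_apply] at h6
      exact h6
    have h6 := hχK s _ h4
    have h7 := hχ s (γv (covf_pi e (ι γ) v)) ((γv (covf_pi e (ι γ) v))⁻¹ * (γ * γv v))
    rw [h6, add_zero, mul_inv_cancel_left, hχ] at h7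
    rw [← h7, add_comm]

end AGR
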