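import Pool.Agent.AGV.Wd
import Pool.Agent.AGV.Om
import Pool.Agent.AGV.Fd
import Pool.Agent.AGV.LstS

/-!
# AGR: definitions (project AGR = MP_b5674c_gt, Ageev's problem for groups that contain `A_p ^ k`)

Paper proof: /team-store/agr_proof.md.  Chains on a set `X` (`AGV.Ch`), the boundary `bd`, `mp`, `pr`, `SP`, `Msh`, vertices `Vx M N`, `om`,
`dd`, `fd`, `Good`, `OK` are those of the project AGV.  The group structure of `ZMod M` in `Vx M N = ZMod M × Fin N` is not used here: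
the group acts on the vertices by permutations that keep the second coordinate.
-/

set_option autoImplicit false

namespace AGR

open AGV

/-- There is no annulus: two disjoint (in `Y`) continua `Q`, `Q'` are not joined by two disjoint (in `Y`) continua `C`, `C'`. -/
def NoAnn {X Y : Type} [TopologicalSpace X] (f : X → Y) : Prop :=
  ∀ Q Q' C C' : Set X, IsClosed Q → IsClosed Q' → IsClosed C → IsClosed C' →
    IsPreconnected Q → IsPreconnected Q' → IsPreconnected C → IsPreconnected C' →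
    (C ∩ Q).Nonempty → (C ∩ Q').Nonempty → (C' ∩ Q).Nonempty → (C' ∩ Q').Nonempty →
    Disjoint (f '' Q) (f '' Q') → Disjoint (f '' C) (f '' C') → False

/-- every point of the list is within `t` of a point of `A` -/
def Cl {X : Type} [PseudoMetricSpace X] (A : Set X) (t : ℝ) (l : List X) : Prop :=
  ∀ y ∈ l, ∃ x ∈ A, dist y x < t

/-- fine chains: lists of `j` points of mesh `< μ` -/
noncomputable def Fi {X : Type} [PseudoMetricSpace X] (μ : ℝ) (j : ℕ) : Submodule ℤ (Ch X) :=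
  SP (fun l : List X => l.length = j ∧ Msh μ l)

/-- fine chains near `A` -/
noncomputable def Ne {X : Type} [PseudoMetricSpace X] (A : Set X) (μ : ℝ) (j : ℕ) (t : ℝ) : Submodule ℤ (Ch X) :=
  SP (fun l : List X => l.length = j ∧ Msh μ l ∧ Cl A t l)

section

variable {M N : ℕ}

/-- at most one vertex in each orbit -/
def GdL (l : List (Vx M N)) : Prop := ∀ u ∈ l, ∀ w ∈ l, u.2 = w.2 → u = w

/-- pairing of a cochain with an oriented chain -/
noncomputable def pair [NeZero M] {β : Type} [AddCommGroup β] (c : Finset (Vx M N) → β) :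
    (Finset (Vx M N) → ℤ) →ₗ[ℤ] β where
  toFun α := ∑ S : Finset (Vx M N), α S • c S
  map_add' α α' := by
    simp only [Pi.add_apply, add_smul, Finset.sum_add_distrib]
  map_smul' m α := by
    simp only [Pi.smul_apply, smul_eq_mul, mul_smul, Finset.smul_sum, RingHom.id_apply]

/-- the cochains `c 0 = w`, `c (s + 1) = dl (lam s * c s)` -/
noncomputable def cc {p : ℕ} (w : Finset (Vx M N) → ZMod p) (la : ℕ → Finset (Vx M N) → ZMod p) :
    ℕ → Finset (Vx M N) → ZMod p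
  | 0 => w
  | s + 1 => fd (fun σ => la s σ * cc w la s σ)

open Classical in
/-- the label of the first vertex of the simplex -/
noncomputable def lam {p : ℕ} (lab : Vx M N → ZMod p) (σ : Finset (Vx M N)) : ZMod p :=
  ∑ v ∈ σ.filter (fun v => ∀ w ∈ σ, v.2 ≤ w.2), lab v

open Classical in
/-- the angle of an edge, in turns -/
noncomputable def th (Φ : Vx M N → ℂ) (σ : Finset (Vx M N)) : ℝ :=
  if σ.card = 2 then ∑ v ∈ σ, ∑ w ∈ σ, (if v.2 < w.2 then Complex.arg (Φ w / Φ v) / (2 * Real.pi) else 0) else 0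

/-- the winding number of a triangle -/
noncomputable def w0 (Φ : Vx M N → ℂ) (σ : Finset (Vx M N)) : ℤ := round (fd (th Φ) σ)

/-- the values of `Φ` on the simplex are large and close to each other -/
def Sml (Φ : Vx M N → ℂ) (σ : Finset (Vx M N)) : Prop :=
  (∀ v ∈ σ, 1 / 2 ≤ ‖Φ v‖) ∧ ∀ v ∈ σ, ∀ w ∈ σ, ‖Φ v - Φ w‖ ≤ 1 / 8

end

/-- The operators `P r` (homotopies from the identity to `a r`) and `R` (second order homotopy for `a 0`), with all their properties. -/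
structure Opr {X : Type} [MetricSpace X] (k : ℕ) (ρ L : ℝ) (a : ℕ → X → X) (n : ℕ) (μ : ℕ → ℝ)
    (P : ℕ → Ch X →ₗ[ℤ] Ch X) (R : Ch X →ₗ[ℤ] Ch X) : Prop where
  μ_pos : ∀ r, 0 < μ r
  μ_anti : ∀ r, μ (r + 1) ≤ μ r
  μ_zero : μ 0 ≤ L
  a_iso : ∀ r x y, dist (a r x) (a r y) = dist x y
  a_comm : ∀ r s x, a r (a s x) = a s (a r x)
  P_fin : ∀ r j, 1 ≤ j → j ≤ k + 2 → ∀ z ∈ Fi (μ (r + 1)) j, P r z ∈ Fi (μ r) (j + 1)
  P_mem : ∀ r j (A : Set X) (t : ℝ), 1 ≤ j → j ≤ k + 2 → ∀ z ∈ Ne A (μ (r + 1)) j t, P r z ∈ Ne A (μ r) (j + 1) (t + ρ)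
  P_bd : ∀ r j, 1 ≤ j → j ≤ k + 2 → ∀ z ∈ Fi (μ (r + 1)) j, bd (P r z) = mp (a r) z - z - P r (bd z)
  P_comm : ∀ r s z, P r (mp (a s) z) = mp (a s) (P r z)
  R_fin : ∀ j, 1 ≤ j → j ≤ k + 2 → ∀ z ∈ Fi (μ 1) j, R z ∈ Fi L (j + 2)
  R_mem : ∀ j (A : Set X) (t : ℝ), 1 ≤ j → j ≤ k + 2 → ∀ z ∈ Ne A (μ 1) j t, R z ∈ Ne A L (j + 2) (t + ρ)
  R_bd : ∀ j, 1 ≤ j → j ≤ k + 2 → ∀ z ∈ Fi (μ 1) j,
    bd (R z) = (∑ t ∈ Finset.range n, mp ((a 0)^[t]) (P 0 z)) - pr id ((a 0)^[n]) z + R (bd z)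
  R_comm : ∀ s z, R (mp (a s) z) = mp (a s) (R z)

/-- The functionals: `U s = < c s, . >`, `U' s = < lam s * c s, . >`, `V = < c', . >`. -/
structure Fnl {X : Type} [MetricSpace X] (k p : ℕ) (L t₀ : ℝ) (A : Set X) (a : ℕ → X → X) (n : ℕ)
    (U U' : ℕ → Ch X →ₗ[ℤ] ZMod p) (V : Ch X →ₗ[ℤ] ℤ) : Prop where
  u1 : ∀ s, s < k → ∀ z ∈ Fi L (s + 4), U (s + 1) z = U' s (bd z)
  u2 : ∀ s r, s ≤ k → r < k → ∀ z ∈ Fi L (s + 3), U s (mp (a r) z) = U s z
  u3 : ∀ s r, s < k → r < k → ∀ z ∈ Fi L (s + 3), U' s (mp (a r) z) = U' s z + if r = s then U s z else 0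
  u4 : ∀ s, s < k → ∀ z ∈ Ne A L (s + 3) t₀, U' s z = 0
  v1 : ∀ r, r < k → ∀ z ∈ Fi L (k + 3), V (mp (a r) z) = V z
  v2 : ∀ z ∈ Ne A L (k + 3) t₀, V z = 0
  v3 : ∀ z ∈ Fi L (k + 4), V (bd z) = 0
  v4 : ∀ z, V (pr id ((a 0)^[n]) z) = 0
  v5 : ∀ z ∈ Fi L (k + 3), ((V z : ℤ) : ZMod p) = U k z

end AGR
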