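import Pool.Agent.AGR.Defs

/-!
# AGR/DefsD: chains measured by a decreasing family of pseudometrics (second version of the project AGR)

Second version: the condition `d < m + n` is dropped.  Cycles of lists with at most `n + 1` points are filled in `X` (which is `n`-connected
locally), cycles of lists with at least `n + 2` points are filled with respect to the pseudometric of the image `f '' X` in the `n`-dimensional
space `Y`.  So the fineness of a list of `q` points is measured by a pseudometric `dq q`, with `dq (q + 1) ≤ dq q`.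
-/

set_option autoImplicit false

namespace AGR

open AGV

/-- all mutual distances are less than `μ` -/
def MshQ {X : Type} (D : X → X → ℝ) (μ : ℝ) (l : List X) : Prop := ∀ x ∈ l, ∀ y ∈ l, D x y < μ

/-- a decreasing family of pseudometrics; `dq q` is used for lists of `q` points -/
structure DQ {X : Type} (dq : ℕ → X → X → ℝ) : Prop where
  self : ∀ q x, dq q x x = 0
  symm : ∀ q x y, dq q x y = dq q y x
  tri : ∀ q x y z, dq q x z ≤ dq q x y + dq q y z
  anti : ∀ q x y, dq (q + 1) x y ≤ dq q x y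

/-- local acyclicity for sequences of `q` points: cycles on lists of `q` points bound chains on lists of `q + 1` points -/
def VLD {X : Type} (dq : ℕ → X → X → ℝ) (q : ℕ) : Prop :=
  ∀ ε : ℝ, 0 < ε → ∃ δ : ℝ, 0 < δ ∧ ∀ η : ℝ, 0 < η → ∃ μ : ℝ, 0 < μ ∧ ∀ x : X,
    ∀ z ∈ SP (fun l : List X => l.length = q ∧ MshQ (dq q) μ l ∧ ∀ y ∈ l, dq q y x < δ), bd z = 0 →
      ∃ w ∈ SP (fun l : List X => l.length = q + 1 ∧ MshQ (dq (q + 1)) η l ∧ ∀ y ∈ l, dq (q + 1) y x < ε), bd w = z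

/-- the family that is used: the maximum of both metrics up to `n + 2` points, the metric of the images for more points -/
noncomputable def dqf {X Y : Type} [PseudoMetricSpace X] [PseudoMetricSpace Y] (f : X → Y) (n q : ℕ) (x y : X) : ℝ :=
  if q ≤ n + 2 then max (dist x y) (dist (f x) (f y)) else dist (f x) (f y)

/-- the sign of `r` in `S` -/
def sn (S : Finset ℕ) (r : ℕ) : ℤ := (-1) ^ (S.filter (· < r)).card

/-- the input lists: 1 to 3 points, mesh `< μ` -/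
def LOK {X : Type} (dq : ℕ → X → X → ℝ) (μ : ℝ) (l : List X) : Prop :=
  1 ≤ l.length ∧ l.length ≤ 3 ∧ MshQ (dq 0) μ l

/-- output chains for the input list `l`: lists of `q` points of mesh `< μ` within `δ` of the points of `l` -/
noncomputable def Ou {X : Type} (dq : ℕ → X → X → ℝ) (q : ℕ) (μ δ : ℝ) (l : List X) : Submodule ℤ (Ch X) :=
  SP (fun l' : List X => l'.length = q ∧ MshQ (dq q) μ l' ∧ ∀ y ∈ l', ∀ x ∈ l, dq q y x < δ)

/-- input chains: lists of `j` points of `dq 0`-mesh `< μ` -/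
noncomputable def InD {X : Type} (dq : ℕ → X → X → ℝ) (μ : ℝ) (j : ℕ) : Submodule ℤ (Ch X) :=
  SP (fun l : List X => l.length = j ∧ MshQ (dq 0) μ l)

/-- input chains near `A` -/
noncomputable def InN {X : Type} (dq : ℕ → X → X → ℝ) (A : Set X) (μ : ℝ) (j : ℕ) (t : ℝ) : Submodule ℤ (Ch X) :=
  SP (fun l : List X => l.length = j ∧ MshQ (dq 0) μ l ∧ ∀ y ∈ l, ∃ x ∈ A, dq 0 y x < t)

/-- output chains: lists of `j` points of `dq j`-mesh `< μ` -/
noncomputable def FiD {X : Type} (dq : ℕ → X → X → ℝ) (μ : ℝ) (j : ℕ) : Submodule ℤ (Ch X) :=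
  SP (fun l : List X => l.length = j ∧ MshQ (dq j) μ l)

/-- output chains near `A` -/
noncomputable def NeD {X : Type} (dq : ℕ → X → X → ℝ) (A : Set X) (μ : ℝ) (j : ℕ) (t : ℝ) : Submodule ℤ (Ch X) :=
  SP (fun l : List X => l.length = j ∧ MshQ (dq j) μ l ∧ ∀ y ∈ l, ∃ x ∈ A, dq j y x < t)

/-- The operators: `P S` is the homotopy of order `|S|` for the maps `a r`, `r ∈ S`; `R S` (`0 ∉ S`) is of order `|S| + 2`. -/
structure Sy {X : Type} (dq : ℕ → X → X → ℝ) (k : ℕ) (ρ L μ : ℝ) (a : ℕ → X → X) (N : ℕ)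
    (P R : Finset ℕ → Ch X →ₗ[ℤ] Ch X) : Prop where
  μ_pos : 0 < μ
  μ_le : μ ≤ L
  P_empty : ∀ z, P ∅ z = z
  P_fin : ∀ S ⊆ Finset.range k, ∀ j, 1 ≤ j → j ≤ 3 → ∀ z ∈ InD dq μ j, P S z ∈ FiD dq L (j + S.card)
  P_mem : ∀ S ⊆ Finset.range k, ∀ j (A : Set X) (t : ℝ), 1 ≤ j → j ≤ 3 → ∀ z ∈ InN dq A μ j t,
    P S z ∈ NeD dq A L (j + S.card) (t + ρ)
  P_bd : ∀ S ⊆ Finset.range k, ∀ j, 1 ≤ j → j ≤ 3 → ∀ z ∈ InD dq μ j, bd (P S z) =
    (∑ r ∈ S, sn S r • (mp (a r) (P (S.erase r) z) - P (S.erase r) z)) + (-1) ^ S.card • P S (bd z)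
  R_fin : ∀ S ⊆ Finset.range k, 0 ∉ S → ∀ j, 1 ≤ j → j ≤ 3 → ∀ z ∈ InD dq μ j, R S z ∈ FiD dq L (j + S.card + 2)
  R_mem : ∀ S ⊆ Finset.range k, 0 ∉ S → ∀ j (A : Set X) (t : ℝ), 1 ≤ j → j ≤ 3 → ∀ z ∈ InN dq A μ j t,
    R S z ∈ NeD dq A L (j + S.card + 2) (t + ρ)
  R_bd : ∀ S ⊆ Finset.range k, 0 ∉ S → ∀ j, 1 ≤ j → j ≤ 3 → ∀ z ∈ InD dq μ j, bd (R S z) =
    (∑ t ∈ Finset.range N, mp ((a 0)^[t]) (P (insert 0 S) z)) - pr id ((a 0)^[N]) (P S z) +
      (∑ r ∈ S, sn S r • (mp (a r) (R (S.erase r) z) - R (S.erase r) z)) + (-1) ^ S.card • R S (bd z)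

end AGR
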