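import Pool.Agent.AGR.AnnSep

/-!
# AGR/NoMap: no equivariant map without annuli
-/

set_option autoImplicit false

namespace AGR

open AGV Pool.Agent.Helper87.AG

theorem no_map {X Y G : Type} [MetricSpace X] [CompactSpace X] [PreconnectedSpace X] [LocallyConnectedSpace X]
    [TopologicalSpace Y] [T2Space Y] [CompactSpace Y] [Group G] [TopologicalSpace G] [CompactSpace G]
    [MulAction G X] [ContinuousSMul G X] [MulAction G Y] [ContinuousSMul G Y] [Nontrivial G] [Nonempty X]
    (hlift : ∀ φ : C(X, Circle), ∃ θ : C(X, ℝ), ∀ x, φ x = Circle.exp (θ x)) {f : X → Y} (hf : Continuous f)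
    (hna : NoAnn f) (hfe : ∀ (g : G) (x : X), f (g • x) = g • f x)
    (hfree : ∀ (g : G) (y : Y), g • y = y → g = 1) : False := by
  classical
  obtain ⟨g₀, hg₀⟩ := exists_ne (1 : G)
  have hside : ∀ (x : X) (g h : G), g ≠ 1 → h ≠ 1 →
      h • x ∈ connectedComponentIn (fc f x)ᶜ (g • x) :=
    fun x g h hg hh => translates_one_side hf hfe hfree x hg hh
  have hnfc : ∀ (x : X) (g : G), g ≠ 1 → g • x ∉ fc f x := by
    intro x g hg h
    apply hg
    apply hfree g (f x)
    rw [← hfe]
    exact fc_sub f x _ h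
  let Dp : X → Set X := fun x => connectedComponentIn (fc f x)ᶜ (g₀ • x)
  have hDp : ∀ (x : X) (g : G), g ≠ 1 → Dp x = connectedComponentIn (fc f x)ᶜ (g • x) := by
    intro x g hg
    exact connectedComponentIn_eq (hside x g₀ g hg₀ hg)
  let R : X → Set X := fun x => Dp x ∪ fc f x
  have hRc : ∀ x, IsClosed (R x) := fun x => isClosed_comp_union (fc_closed hf x) _
  have hRp : ∀ x, IsPreconnected (R x) := fun x =>
    isPreconnected_comp_union (fc_closed hf x) (fc_conn f x) ⟨x, mem_fc f x⟩ _
  have hRmem : ∀ (x : X) (g : G), g • x ∈ R x := by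
    intro x g
    by_cases hg : g = 1
    · rw [hg, one_smul]
      exact Or.inr (mem_fc f x)
    · left
      exact hside x g₀ g hg₀ hg
  have hDsub : ∀ x, Dp x ⊆ (fc f x)ᶜ := fun x => connectedComponentIn_subset _ _
  -- key fact
  have T1 : ∀ x x' : X, x' ∉ R x → R x ⊆ Dp x' := by
    intro x x' hx'
    have hx'fc : x' ∉ fc f x := fun h => hx' (Or.inr h)
    have hdis : R x ⊆ (fc f x')ᶜ := by
      rintro w (hw | hw) hw'
      · apply hx'
        left
        have hsub : fc f x' ⊆ (fc f x)ᶜ := fun v hv => fc_disj hx'fc hv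
        exact subset_comp_of_meets (fc_conn f x') hsub hw' hw (mem_fc f x')
      · exact fc_disj hx'fc hw' hw
    have hxR : x ∈ R x := Or.inr (mem_fc f x)
    have hRsub : R x ⊆ connectedComponentIn (fc f x')ᶜ x :=
      (hRp x).subset_connectedComponentIn hxR hdis
    have hxD : x ∈ Dp x' := by
      by_contra hcon
      -- the component of x, together with fc x', misses fc (g₀ • x')
      have hg0x' : g₀ • x' ∉ fc f x' := hnfc x' g₀ hg₀
      have hR' : IsPreconnected (connectedComponentIn (fc f x')ᶜ x ∪ fc f x') :=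
        isPreconnected_comp_union (fc_closed hf x') (fc_conn f x') ⟨x', mem_fc f x'⟩ _
      have hmiss : connectedComponentIn (fc f x')ᶜ x ∪ fc f x' ⊆ (fc f (g₀ • x'))ᶜ := by
        rintro w (hw | hw) hw'
        · have hsub : fc f (g₀ • x') ⊆ (fc f x')ᶜ := fun v hv => fc_disj hg0x' hv
          have h1 : g₀ • x' ∈ connectedComponentIn (fc f x')ᶜ x :=
            subset_comp_of_meets (fc_conn f _) hsub hw' hw (mem_fc f _)
          exact hcon (mem_comp_symm h1)
        · exact fc_disj hg0x' hw' hw
      have h2 : x ∈ connectedComponentIn (fc f (g₀ • x'))ᶜ x' :=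
        hR'.subset_connectedComponentIn (Or.inr (mem_fc f x')) hmiss
          (Or.inl (mem_connectedComponentIn (hdis hxR)))
      have h3 : g₀⁻¹ • x ∈ connectedComponentIn (fc f x')ᶜ (g₀⁻¹ • x') := by
        have := (smul_mem_comp hfe g₀ (x := x') (y := g₀⁻¹ • x') (z := g₀⁻¹ • x))
        rw [smul_inv_smul, smul_inv_smul] at this
        exact this.1 h2
      rw [← hDp x' g₀⁻¹ (inv_ne_one.2 hg₀)] at h3
      have h4 : g₀⁻¹ • x ∈ connectedComponentIn (fc f x')ᶜ x := hRsub (hRmem x g₀⁻¹)
      exact hcon (mem_comp_trans h3 (mem_comp_symm h4))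
    intro w hw
    exact mem_comp_trans hxD (hRsub hw)
  -- finite intersection property
  have hfin : ∀ t : Finset X, t.Nonempty → ∃ i ∈ t, ∀ j ∈ t, i ∈ R j := by
    intro t ht
    induction t using Finset.induction_on with
    | empty => exact absurd ht (by simp)
    | insert a t hat ih =>
      rcases t.eq_empty_or_nonempty with h0 | h0
      · subst h0
        refine ⟨a, by simp, ?_⟩
        intro j hj
        have : j = a := by simpa using hj
        rw [this]
        exact Or.inr (mem_fc f a)
      · obtain ⟨i, hit, hi⟩ := ih h0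
        by_cases hia : i ∈ R a
        · refine ⟨i, Finset.mem_insert_of_mem hit, ?_⟩
          intro j hj
          rcases Finset.mem_insert.1 hj with rfl | hj
          · exact hia
          · exact hi j hj
        · refine ⟨a, Finset.mem_insert_self _ _, ?_⟩
          intro j hj
          rcases Finset.mem_insert.1 hj with rfl | hj
          · exact Or.inr (mem_fc f _)
          · by_contra haj
            exact hia (Or.inl (T1 j a haj (hi j hj)))
  obtain ⟨s, hs⟩ : (⋂ x, R x).Nonempty := by
    have := (isCompact_univ (X := X)).inter_iInter_nonempty R hRc (by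
      intro t
      rcases t.eq_empty_or_nonempty with h0 | h0
      · subst h0
        simp
      · obtain ⟨i, -, hi⟩ := hfin t h0
        exact ⟨i, trivial, by simpa using hi⟩)
    simpa using this
  rw [Set.mem_iInter] at hs
  have hgs : ∀ x, g₀ • s ∈ R x := by
    intro x
    have h1 := hs (g₀⁻¹ • x)
    rcases h1 with h1 | h1
    · left
      have h2 : s ∈ connectedComponentIn (fc f (g₀⁻¹ • x))ᶜ (g₀ • (g₀⁻¹ • x)) := h1
      have h3 := (smul_mem_comp hfe g₀ (x := g₀⁻¹ • x) (y := g₀ • (g₀⁻¹ • x)) (z := s)).2 h2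
      rw [smul_inv_smul] at h3
      exact h3
    · right
      have h3 := (smul_mem_fc hfe g₀ (x := g₀⁻¹ • x) (z := s)).2 h1
      rwa [smul_inv_smul] at h3
  have hne : f s ≠ f (g₀ • s) := by
    intro h
    apply hg₀
    apply hfree g₀ (f s)
    rw [← hfe, ← h]
  obtain ⟨c, hc1, hc2, hc3⟩ := ann_sep hlift hf hna hne
  have h1 : s ∈ Dp c := (hs c).resolve_right hc1
  have h2 : g₀ • s ∈ Dp c := (hgs c).resolve_right hc2
  exact hc3 (mem_comp_trans (mem_comp_symm h1) h2)

end AGR
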