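import Pool.Agent.AGR.Hst
import Pool.Agent.AGR.NoMap
import Pool.Agent.AGV.InvM
import Pool.Agent.AGV.Trf
import Pool.Agent.AGV.MgV
import Pool.Agent.AGV.MgX
import Pool.Agent.Helper87.AG.Bdry
import Pool.Agent.Helper87.AG.Conn
import Pool.Agent.Helper87.AG.Lift

/-!
# AGR/Fin: Menger compacta

PROOF PLAN.  `rank_main`: as `t2_main` in AGV/T2.lean: `inv_metric` gives `X'` with an invariant metric and `e : X ≃ₜ X'`; transport `VC`, `VLC` (`VC_transfer`, `VLC_transfer`), connectedness, local connectedness (`Homeomorph`: `e.symm.isOpenQuotientMap`… or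
`Homeomorph.locallyConnectedSpace`-type lemma; otherwise prove from a basis), the lifting property (compose with `e`), `f' = f ∘ e.symm`; `no_ann`, `no_map`; `G` is nontrivial since `ι₀` is injective and `k ≥ 1`.
`menger_rank`: instances and `menger_VC`, `menger_VLC`, `menger_connected`, `menger_locallyConnected`, `menger_lift` as in AGV/FinT2.lean and in Results/MP_b5674c_gt/TargetDimensionOne.lean.
-/

set_option autoImplicit false

namespace AGR

open AGV Pool.Agent.Helper87.AG

theorem rank_main {p : ℕ} [Fact p.Prime] {k : ℕ} (hk : 1 ≤ k) {G X Y : Type} [Group G] [TopologicalSpace G] [IsTopologicalGroup G]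
    [CompactSpace G] [TotallyDisconnectedSpace G] [MetricSpace X] [CompactSpace X] [ConnectedSpace X] [LocallyConnectedSpace X]
    [TopologicalSpace Y] [CompactSpace Y] [T2Space Y] [MulAction G X] [ContinuousSMul G X] [MulAction G Y] [ContinuousSMul G Y]
    (hlift : ∀ φ : C(X, Circle), ∃ θ : C(X, ℝ), ∀ x, φ x = Circle.exp (θ x)) (hVC : VC X 2)
    (hv : ∀ j, 1 ≤ j → j ≤ k + 3 → VLC X j)
    (ι₀ : Multiplicative (Fin k → ℤ_[p]) →* G) (hc : Continuous ι₀) (hi : Function.Injective ι₀)
    (hfree : ∀ (g : G) (y : Y), g • y = y → g = 1)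
    (hd : CovDimLE (MulAction.orbitRel.Quotient G Y) (k + 2)) :
    ¬ ∃ f : X → Y, Continuous f ∧ ∀ (g : G) (x : X), f (g • x) = g • f x := by
  rintro ⟨f, hf, hfe⟩
  obtain ⟨X', _, _, _, _, e, he, hiso⟩ := inv_metric G X
  have u1 : UniformContinuous e.toEquiv := CompactSpace.uniformContinuous_of_continuous e.continuous
  have u2 : UniformContinuous e.toEquiv.symm := CompactSpace.uniformContinuous_of_continuous e.symm.continuous
  have hconn : ConnectedSpace X' := e.surjective.connectedSpace e.continuous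
  have hlc : LocallyConnectedSpace X' := e.symm.isOpenEmbedding.locallyConnectedSpace
  have hne : Nonempty X' := hconn.toNonempty
  have hntG : Nontrivial G := by
    have : Nonempty (Fin k) := ⟨⟨0, by omega⟩⟩
    have h1 : Nontrivial (Fin k → ℤ_[p]) := inferInstance
    have h2 : Nontrivial (Multiplicative (Fin k → ℤ_[p])) := h1
    exact hi.nontrivial
  have hf' : Continuous (f ∘ e.symm) := hf.comp e.symm.continuous
  have hfe' : ∀ (g : G) (x : X'), (f ∘ e.symm) (g • x) = g • (f ∘ e.symm) x := by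
    intro g x
    have h : e.symm (g • x) = g • e.symm x := by
      apply e.injective
      rw [he, e.apply_symm_apply, e.apply_symm_apply]
    show f (e.symm (g • x)) = g • f (e.symm x)
    rw [h, hfe]
  have hlift' : ∀ φ : C(X', Circle), ∃ θ : C(X', ℝ), ∀ x, φ x = Circle.exp (θ x) := by
    intro φ
    obtain ⟨θ, hθ⟩ := hlift (φ.comp ⟨e, e.continuous⟩)
    refine ⟨θ.comp ⟨e.symm, e.symm.continuous⟩, fun x => ?_⟩
    have h1 := hθ (e.symm x)
    simp only [ContinuousMap.comp_apply, ContinuousMap.coe_mk] at h1 ⊢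
    rw [e.apply_symm_apply] at h1
    exact h1
  exact no_map hlift' hf' (no_ann hk hiso (VC_transfer e.toEquiv u1 u2 hVC)
    (fun j h1 h2 => VLC_transfer e.toEquiv u1 u2 (hv j h1 h2)) ι₀ hc hi hfree hd hf' hfe') hfe' hfree

theorem menger_rank {p : ℕ} [Fact p.Prime] {k m n : ℕ} (hk : 1 ≤ k) (hmn : k + 3 ≤ m + n) {G : Type} [Group G] [TopologicalSpace G]
    [IsTopologicalGroup G] [CompactSpace G] [TotallyDisconnectedSpace G]
    [MulAction G (Menger (Fin (2 * (m + n) + 1)) (m + n))] [MulAction G (Menger (Fin (2 * n + 1)) n)]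
    [ContinuousSMul G (Menger (Fin (2 * (m + n) + 1)) (m + n))] [ContinuousSMul G (Menger (Fin (2 * n + 1)) n)]
    (ι₀ : Multiplicative (Fin k → ℤ_[p]) →* G) (hc : Continuous ι₀) (hi : Function.Injective ι₀)
    (hfree : ∀ (g : G) (y : Menger (Fin (2 * n + 1)) n), g • y = y → g = 1)
    (hd : CovDimLE (MulAction.orbitRel.Quotient G (Menger (Fin (2 * n + 1)) n)) (k + 2)) :
    ¬ ∃ f : Menger (Fin (2 * (m + n) + 1)) (m + n) → Menger (Fin (2 * n + 1)) n,
      Continuous f ∧ ∀ (g : G) (x : Menger (Fin (2 * (m + n) + 1)) (m + n)), f (g • x) = g • f x := by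
  have c1 : CompactSpace (Menger (Fin (2 * (m + n) + 1)) (m + n)) :=
    isCompact_iff_compactSpace.mp (menger_isCompact _)
  have c2 : CompactSpace (Menger (Fin (2 * n + 1)) n) :=
    isCompact_iff_compactSpace.mp (menger_isCompact _)
  have c3 : ConnectedSpace (Menger (Fin (2 * (m + n) + 1)) (m + n)) :=
    menger_connected (by omega)
  have c4 : LocallyConnectedSpace (Menger (Fin (2 * (m + n) + 1)) (m + n)) :=
    menger_locallyConnected (by omega)
  exact rank_main hk (fun φ => menger_lift (by omega) φ) (menger_VC (by omega))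
    (fun j _ h2 => menger_VLC (by omega)) ι₀ hc hi hfree hd

end AGR
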