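import Pool.Agent.AGR.HstS
import Pool.Agent.AGR.NoMap
import Pool.Agent.AGV.InvM
import Pool.Agent.AGV.Trf
import Pool.Agent.AGV.MgV
import Pool.Agent.AGV.MgX
import Pool.Agent.AGV.MgDim
import Pool.Agent.Helper87.AG.Bdry
import Pool.Agent.Helper87.AG.Conn
import Pool.Agent.Helper87.AG.Lift

/-!
# AGR/FinS: Menger compacta (second version)
-/

set_option autoImplicit false

namespace AGR

open AGV Pool.Agent.Helper87.AG

theorem inv_metric_same (G : Type) {Y : Type} [Group G] [TopologicalSpace G] [IsTopologicalGroup G] [CompactSpace G]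
    [t : TopologicalSpace Y] [TopologicalSpace.MetrizableSpace Y] [CompactSpace Y] [MulAction G Y] [ContinuousSMul G Y] :
    ∃ m : MetricSpace Y, t = m.toPseudoMetricSpace.toUniformSpace.toTopologicalSpace ∧
      ∀ (g : G) (x y : Y), m.dist (g • x) (g • y) = m.dist x y := by
  letI m₀ : MetricSpace Y := TopologicalSpace.metrizableSpaceMetric Y
  obtain ⟨Y', i1, i2, i3, i4, e, he, hiso⟩ := inv_metric G Y
  refine ⟨MetricSpace.induced e e.injective i1, ?_, ?_⟩
  · exact e.isInducing.eq_induced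
  · intro g x y
    show dist (e (g • x)) (e (g • y)) = dist (e x) (e y)
    rw [he, he, hiso]

theorem rank_mainS {p : ℕ} [Fact p.Prime] {k n : ℕ} (hk : 1 ≤ k) {G X Y : Type} [Group G] [TopologicalSpace G] [IsTopologicalGroup G]
    [CompactSpace G] [TotallyDisconnectedSpace G] [MetricSpace X] [CompactSpace X] [ConnectedSpace X] [LocallyConnectedSpace X]
    [TopologicalSpace Y] [TopologicalSpace.MetrizableSpace Y] [CompactSpace Y] [MulAction G X] [ContinuousSMul G X] [MulAction G Y]
    [ContinuousSMul G Y]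
    (hlift : ∀ φ : C(X, Circle), ∃ θ : C(X, ℝ), ∀ x, φ x = Circle.exp (θ x)) (hVC : VC X 2)
    (hv : ∀ j, 1 ≤ j → j ≤ n + 1 → VLC X j) (hY : CovDimLE Y n)
    (ι₀ : Multiplicative (Fin k → ℤ_[p]) →* G) (hc : Continuous ι₀) (hi : Function.Injective ι₀)
    (hfree : ∀ (g : G) (y : Y), g • y = y → g = 1)
    (hd : CovDimLE (MulAction.orbitRel.Quotient G Y) (k + 2)) :
    ¬ ∃ f : X → Y, Continuous f ∧ ∀ (g : G) (x : X), f (g • x) = g • f x := by
  rintro ⟨f, hf, hfe⟩
  obtain ⟨m, hm, hinv⟩ := inv_metric_same G (Y := Y)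
  subst hm
  obtain ⟨X', _, _, _, _, e, he, hiso⟩ := inv_metric G X
  have u1 : UniformContinuous e.toEquiv := CompactSpace.uniformContinuous_of_continuous e.continuous
  have u2 : UniformContinuous e.toEquiv.symm := CompactSpace.uniformContinuous_of_continuous e.symm.continuous
  have hconn : ConnectedSpace X' := e.surjective.connectedSpace e.continuous
  have hlc : LocallyConnectedSpace X' := e.symm.isOpenEmbedding.locallyConnectedSpace
  have hne : Nonempty X' := hconn.toNonempty
  have hntG : Nontrivial G := by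
    have : Nonempty (Fin k) := ⟨⟨0, by omega⟩⟩
    have h1 : Nontrivial (Fin k → ℤ_[p]) := inferInstance
    have h2 : Nontrivial (Multiplicative (Fin k → ℤ_[p])) := h1
    exact hi.nontrivial
  have hf' : Continuous (f ∘ e.symm) := hf.comp e.symm.continuous
  have hfe' : ∀ (g : G) (x : X'), (f ∘ e.symm) (g • x) = g • (f ∘ e.symm) x := by
    intro g x
    have h : e.symm (g • x) = g • e.symm x := by
      apply e.injective
      rw [he, e.apply_symm_apply, e.apply_symm_apply]
    show f (e.symm (g • x)) = g • f (e.symm x)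
    rw [h, hfe]
  have hlift' : ∀ φ : C(X', Circle), ∃ θ : C(X', ℝ), ∀ x, φ x = Circle.exp (θ x) := by
    intro φ
    obtain ⟨θ, hθ⟩ := hlift (φ.comp ⟨e, e.continuous⟩)
    refine ⟨θ.comp ⟨e.symm, e.symm.continuous⟩, fun x => ?_⟩
    have h1 := hθ (e.symm x)
    simp only [ContinuousMap.comp_apply, ContinuousMap.coe_mk] at h1 ⊢
    rw [e.apply_symm_apply] at h1
    exact h1
  exact no_map hlift' hf' (no_annS (n := n) hk hiso hinv (VC_transfer e.toEquiv u1 u2 hVC)
    (fun j h1 h2 => VLC_transfer e.toEquiv u1 u2 (hv j h1 h2)) hY ι₀ hc hi hfree hd hf' hfe') hfe' hfree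

theorem menger_rankS {p : ℕ} [Fact p.Prime] {k m n : ℕ} (hk : 1 ≤ k) (hm : 0 < m) (hn : 0 < n) {G : Type} [Group G]
    [TopologicalSpace G] [IsTopologicalGroup G] [CompactSpace G] [TotallyDisconnectedSpace G]
    [MulAction G (Menger (Fin (2 * (m + n) + 1)) (m + n))] [MulAction G (Menger (Fin (2 * n + 1)) n)]
    [ContinuousSMul G (Menger (Fin (2 * (m + n) + 1)) (m + n))] [ContinuousSMul G (Menger (Fin (2 * n + 1)) n)]
    (ι₀ : Multiplicative (Fin k → ℤ_[p]) →* G) (hc : Continuous ι₀) (hi : Function.Injective ι₀)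
    (hfree : ∀ (g : G) (y : Menger (Fin (2 * n + 1)) n), g • y = y → g = 1)
    (hd : CovDimLE (MulAction.orbitRel.Quotient G (Menger (Fin (2 * n + 1)) n)) (k + 2)) :
    ¬ ∃ f : Menger (Fin (2 * (m + n) + 1)) (m + n) → Menger (Fin (2 * n + 1)) n,
      Continuous f ∧ ∀ (g : G) (x : Menger (Fin (2 * (m + n) + 1)) (m + n)), f (g • x) = g • f x := by
  have c1 : CompactSpace (Menger (Fin (2 * (m + n) + 1)) (m + n)) :=
    isCompact_iff_compactSpace.mp (menger_isCompact _)
  have c2 : CompactSpace (Menger (Fin (2 * n + 1)) n) :=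
    isCompact_iff_compactSpace.mp (menger_isCompact _)
  have c3 : ConnectedSpace (Menger (Fin (2 * (m + n) + 1)) (m + n)) :=
    menger_connected (by omega)
  have c4 : LocallyConnectedSpace (Menger (Fin (2 * (m + n) + 1)) (m + n)) :=
    menger_locallyConnected (by omega)
  exact rank_mainS hk (fun φ => menger_lift (by omega) φ) (menger_VC (by omega))
    (fun j _ h2 => menger_VLC (by omega)) (menger_dim n) ι₀ hc hi hfree hd

end AGR
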