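import Pool.Agent.AGR.Perm

/-!
# AGR/Theta: the integral cochain `w0`

PROOF PLAN.  `fd (th Φ) σ = ∑_{v ∈ σ} sg v σ * th Φ (σ.erase v)` is `0` unless `σ` has three elements.  A good `σ` with three elements is `{a, b, c}`, `a.2 < b.2 < c.2` (e.g. sort by the second coordinate), and then
`fd (th Φ) σ = (arg (Φ c / Φ b) - arg (Φ c / Φ a) + arg (Φ b / Φ a)) / (2 π)`, an integer: `exp` of `2 π i` times it is `(Φ c / Φ b) / |..| * …  = 1`
(`Complex.norm_mul_exp_arg_mul_I`, `Complex.exp_eq_one_iff`).  `th_int`: so `round` does not change it.  `w0_fd`: cast to `ℝ`: the faces of a good simplex are good, `fd_fd`.  `w0_perm`: `fd_perm` and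
`th Φ (ρ.image π) = th Φ ρ` (`Finset.sum_image`, card of the image; `Φ (π v) = Φ v`, `(π v).2 = v.2`).  `w0_small`: every `|th Φ ρ| < 1 / 6` for a face `ρ` with 2 elements of a small simplex: `z = Φ w / Φ v` has `|z - 1| ≤ 1 / 4`, so
`re z ≥ 3 / 4`, `|im z| ≤ 1 / 4`, `|arg z| ≤ π / 6 < π / 3` (e.g. `|sin (arg z)| = |im z| / |z| ≤ 1 / 3` and `cos (arg z) > 0`); three such terms: `|fd (th Φ) σ| < 1 / 2`, so `round` is `0`
(`σ` need not be good; `|sg| = 1`).  `w0_pair`: `pair_congr`-type argument to replace `w0` by `fd (th Φ)` on the good sets `l.toFinset`, then `pair_dd`, `om_bd`.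
`th_pair`: `om (single [v, w] 1)` is `0` if `v = w` (then `arg 1 = 0`), `1` or `-1` on `{v, w}` according to the order of `v.2`, `w.2` (`omL`, `wd`, `sg`), `0` on other sets; `arg z⁻¹ = - arg z` (`Complex.arg_inv`; `arg z ≠ π` as
`re z > 0`).
-/

set_option autoImplicit false

namespace AGR

open AGV

variable {M N : ℕ}

private theorem theta_card (Φ : Vx M N → ℂ) (σ : Finset (Vx M N)) (h : σ.card ≠ 3) : fd (th Φ) σ = 0 := by
  unfold fd
  refine Finset.sum_eq_zero fun v hv => ?_
  have h1 : (σ.erase v).card ≠ 2 := by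
    rw [Finset.card_erase_of_mem hv]
    have := Finset.card_pos.2 ⟨v, hv⟩
    omega
  have h2 : th Φ (σ.erase v) = 0 := by
    unfold th
    rw [if_neg h1]
  rw [h2, smul_zero]

private theorem theta_pair (Φ : Vx M N → ℂ) {v w : Vx M N} (h : v.2 < w.2) :
    th Φ {v, w} = Complex.arg (Φ w / Φ v) / (2 * Real.pi) := by
  have hne : v ≠ w := by
    rintro rfl
    exact lt_irrefl _ h
  unfold th
  rw [if_pos (Finset.card_pair hne), Finset.sum_pair hne, Finset.sum_pair hne, Finset.sum_pair hne,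
    if_neg (lt_irrefl _), if_pos h, if_neg (not_lt.2 h.le), if_neg (lt_irrefl _)]
  ring

private theorem theta_sorted {σ : Finset (Vx M N)} (h : Good σ) (h3 : σ.card = 3) :
    ∃ a b c : Vx M N, a.2 < b.2 ∧ b.2 < c.2 ∧ σ = {a, b, c} := by
  obtain ⟨x, y, z, hxy, hxz, hyz, rfl⟩ := Finset.card_eq_three.1 h3
  have hx : x ∈ ({x, y, z} : Finset (Vx M N)) := by simp
  have hy : y ∈ ({x, y, z} : Finset (Vx M N)) := by simp
  have hz : z ∈ ({x, y, z} : Finset (Vx M N)) := by simp
  have nxy : x.2 ≠ y.2 := fun e => hxy (h x hx y hy e)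
  have nxz : x.2 ≠ z.2 := fun e => hxz (h x hx z hz e)
  have nyz : y.2 ≠ z.2 := fun e => hyz (h y hy z hz e)
  rcases lt_or_gt_of_ne nxy with h1 | h1
  · rcases lt_or_gt_of_ne nyz with h2 | h2
    · exact ⟨x, y, z, h1, h2, rfl⟩
    · rcases lt_or_gt_of_ne nxz with h4 | h4
      · exact ⟨x, z, y, h4, h2, by ext u; simp only [Finset.mem_insert, Finset.mem_singleton]; tauto⟩
      · exact ⟨z, x, y, h4, h1, by ext u; simp only [Finset.mem_insert, Finset.mem_singleton]; tauto⟩
  · rcases lt_or_gt_of_ne nxz with h2 | h2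
    · exact ⟨y, x, z, h1, h2, by ext u; simp only [Finset.mem_insert, Finset.mem_singleton]; tauto⟩
    · rcases lt_or_gt_of_ne nyz with h4 | h4
      · exact ⟨y, z, x, h4, h2, by ext u; simp only [Finset.mem_insert, Finset.mem_singleton]; tauto⟩
      · exact ⟨z, y, x, h4, h1, by ext u; simp only [Finset.mem_insert, Finset.mem_singleton]; tauto⟩

private theorem theta_fd (Φ : Vx M N → ℂ) {a b c : Vx M N} (hab : a.2 < b.2) (hbc : b.2 < c.2) :
    fd (th Φ) {a, b, c} = Complex.arg (Φ c / Φ b) / (2 * Real.pi) - Complex.arg (Φ c / Φ a) / (2 * Real.pi) +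
      Complex.arg (Φ b / Φ a) / (2 * Real.pi) := by
  have hac : a.2 < c.2 := hab.trans hbc
  have nab : a ≠ b := by rintro rfl; exact lt_irrefl _ hab
  have nbc : b ≠ c := by rintro rfl; exact lt_irrefl _ hbc
  have nac : a ≠ c := by rintro rfl; exact lt_irrefl _ hac
  have ea : ({a, b, c} : Finset (Vx M N)).erase a = {b, c} := by
    rw [Finset.erase_insert]
    simp only [Finset.mem_insert, Finset.mem_singleton]
    tauto
  have eb : ({a, b, c} : Finset (Vx M N)).erase b = {a, c} := by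
    rw [Finset.insert_comm, Finset.erase_insert]
    simp only [Finset.mem_insert, Finset.mem_singleton]
    tauto
  have ec : ({a, b, c} : Finset (Vx M N)).erase c = {a, b} := by
    have : ({a, b, c} : Finset (Vx M N)) = {c, a, b} := by
      ext u
      simp only [Finset.mem_insert, Finset.mem_singleton]
      tauto
    rw [this, Finset.erase_insert]
    simp only [Finset.mem_insert, Finset.mem_singleton]
    tauto
  have fa : ({a, b, c} : Finset (Vx M N)).filter (fun w => w.2 < a.2) = ∅ := by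
    ext u
    simp only [Finset.mem_filter, Finset.mem_insert, Finset.mem_singleton, Finset.notMem_empty, iff_false]
    rintro ⟨rfl | rfl | rfl, h⟩
    · exact lt_irrefl _ h
    · exact lt_asymm hab h
    · exact lt_asymm hac h
  have fb : ({a, b, c} : Finset (Vx M N)).filter (fun w => w.2 < b.2) = {a} := by
    ext u
    simp only [Finset.mem_filter, Finset.mem_insert, Finset.mem_singleton]
    constructor
    · rintro ⟨rfl | rfl | rfl, h⟩
      · rfl
      · exact absurd h (lt_irrefl _)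
      · exact absurd h (lt_asymm hbc)
    · rintro rfl
      exact ⟨Or.inl rfl, hab⟩
  have fc : ({a, b, c} : Finset (Vx M N)).filter (fun w => w.2 < c.2) = {a, b} := by
    ext u
    simp only [Finset.mem_filter, Finset.mem_insert, Finset.mem_singleton]
    constructor
    · rintro ⟨rfl | rfl | rfl, h⟩
      · exact Or.inl rfl
      · exact Or.inr rfl
      · exact absurd h (lt_irrefl _)
    · rintro (rfl | rfl)
      · exact ⟨Or.inl rfl, hac⟩
      · exact ⟨Or.inr (Or.inl rfl), hbc⟩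
  have sa : sg a ({a, b, c} : Finset (Vx M N)) = 1 := by
    rw [sg, fa, Finset.card_empty, pow_zero]
  have sb : sg b ({a, b, c} : Finset (Vx M N)) = -1 := by
    rw [sg, fb, Finset.card_singleton, pow_one]
  have sc : sg c ({a, b, c} : Finset (Vx M N)) = 1 := by
    rw [sg, fc, Finset.card_pair nab]
    norm_num
  have h1 : a ∉ ({b, c} : Finset (Vx M N)) := by
    simp only [Finset.mem_insert, Finset.mem_singleton]
    tauto
  have h2 : b ∉ ({c} : Finset (Vx M N)) := by
    rw [Finset.mem_singleton]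
    exact nbc
  unfold fd
  rw [Finset.sum_insert h1, Finset.sum_insert h2, Finset.sum_singleton, ea, eb, ec, sa, sb, sc,
    theta_pair Φ hab, theta_pair Φ hbc, theta_pair Φ hac, one_smul, one_smul, neg_smul, one_smul]
  ring

private theorem theta_arg_int {x y z : ℂ} (hx : x ≠ 0) (hy : y ≠ 0) (hz : z ≠ 0) :
    ∃ n : ℤ, Complex.arg (z / y) / (2 * Real.pi) - Complex.arg (z / x) / (2 * Real.pi) +
      Complex.arg (y / x) / (2 * Real.pi) = n := by
  have h1 : (z / y) * (y / x) = z / x := by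
    field_simp
  have h2 := Complex.arg_mul_coe_angle (div_ne_zero hz hy) (div_ne_zero hy hx)
  rw [h1, ← Real.Angle.coe_add] at h2
  obtain ⟨k, hk⟩ := Real.Angle.angle_eq_iff_two_pi_dvd_sub.1 h2
  refine ⟨-k, ?_⟩
  have hpi : (2 * Real.pi) ≠ 0 := by positivity
  push_cast
  field_simp
  linarith

theorem th_int (Φ : Vx M N → ℂ) (hΦ : ∀ v, Φ v ≠ 0) (σ : Finset (Vx M N)) (h : Good σ) :
    ((w0 Φ σ : ℤ) : ℝ) = fd (th Φ) σ := by
  have key : ∃ n : ℤ, fd (th Φ) σ = n := by
    by_cases h3 : σ.card = 3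
    · obtain ⟨a, b, c, hab, hbc, rfl⟩ := theta_sorted h h3
      rw [theta_fd Φ hab hbc]
      exact theta_arg_int (hΦ a) (hΦ b) (hΦ c)
    · exact ⟨0, by rw [theta_card Φ σ h3, Int.cast_zero]⟩
  obtain ⟨n, hn⟩ := key
  unfold w0
  rw [hn, round_intCast]

theorem w0_fd (Φ : Vx M N → ℂ) (hΦ : ∀ v, Φ v ≠ 0) (σ : Finset (Vx M N)) (h : Good σ) : fd (w0 Φ) σ = 0 := by
  have h1 := fd_map ((Int.castAddHom ℝ).toIntLinearMap) (w0 Φ) σ
  have h2 : fd (fun ρ => (Int.castAddHom ℝ).toIntLinearMap (w0 Φ ρ)) σ = fd (fd (th Φ)) σ :=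
    fd_congr fun v _ => th_int Φ hΦ _ (h.erase v)
  rw [h2, fd_fd _ h] at h1
  have h3 : ((fd (w0 Φ) σ : ℤ) : ℝ) = 0 := h1
  exact_mod_cast h3

theorem w0_perm [NeZero M] (Φ : Vx M N → ℂ) (π : Equiv.Perm (Vx M N)) (hπ : ∀ v, (π v).2 = v.2)
    (hΦ : ∀ v, Φ (π v) = Φ v) (σ : Finset (Vx M N)) : w0 Φ (σ.image π) = w0 Φ σ := by
  have h1 : ∀ ρ : Finset (Vx M N), th Φ (ρ.image π) = th Φ ρ := by
    intro ρ
    unfold th
    rw [Finset.card_image_of_injective _ π.injective]
    by_cases h : ρ.card = 2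
    · rw [if_pos h, if_pos h, Finset.sum_image fun x _ y _ hxy => π.injective hxy]
      refine Finset.sum_congr rfl fun v _ => ?_
      rw [Finset.sum_image fun x _ y _ hxy => π.injective hxy]
      refine Finset.sum_congr rfl fun w _ => ?_
      rw [hπ, hπ, hΦ, hΦ]
    · rw [if_neg h, if_neg h]
  unfold w0
  rw [fd_perm (th Φ) π hπ σ]
  congr 2
  funext ρ
  exact h1 ρ

private theorem theta_arg_lt {z : ℂ} (h : ‖z - 1‖ ≤ 1 / 4) : |Complex.arg z| < Real.pi / 3 := by
  have hre : 3 / 4 ≤ z.re := by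
    have h1 := (Complex.abs_re_le_norm (z - 1)).trans h
    rw [Complex.sub_re, Complex.one_re] at h1
    have := (abs_le.1 h1).1
    linarith
  have hn : ‖z‖ ≤ 5 / 4 := by
    have h1 : ‖z‖ ≤ ‖z - 1‖ + ‖(1 : ℂ)‖ := by
      have := norm_add_le (z - 1) 1
      rwa [sub_add_cancel] at this
    rw [norm_one] at h1
    linarith
  have hz : z ≠ 0 := by
    rintro rfl
    rw [Complex.zero_re] at hre
    linarith
  have hpos : 0 < ‖z‖ := norm_pos_iff.2 hz
  have hcos : 1 / 2 < Real.cos (Complex.arg z) := by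
    rw [Complex.cos_arg hz, lt_div_iff₀ hpos]
    linarith
  by_contra hc
  rw [not_lt] at hc
  have h1 := Real.cos_le_cos_of_nonneg_of_le_pi (x := Real.pi / 3) (y := |Complex.arg z|)
    (by positivity) (Complex.abs_arg_le_pi z) hc
  rw [Real.cos_abs, Real.cos_pi_div_three] at h1
  linarith

private theorem theta_div_sub {x y : ℂ} (hx : 1 / 2 ≤ ‖x‖) (h : ‖x - y‖ ≤ 1 / 8) : ‖y / x - 1‖ ≤ 1 / 4 := by
  have hx0 : x ≠ 0 := by
    rintro rfl
    rw [norm_zero] at hx
    linarith
  have h1 : y / x - 1 = (y - x) / x := by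
    rw [sub_div, div_self hx0]
  rw [h1, norm_div, norm_sub_rev, div_le_iff₀ (norm_pos_iff.2 hx0)]
  linarith

private theorem theta_turn {z : ℂ} (h : ‖z - 1‖ ≤ 1 / 4) : |Complex.arg z / (2 * Real.pi)| < 1 / 6 := by
  have h1 := theta_arg_lt h
  have hpi := Real.pi_pos
  rw [abs_div, abs_of_pos (by positivity : (0 : ℝ) < 2 * Real.pi), div_lt_iff₀ (by positivity)]
  linarith

private theorem theta_small (Φ : Vx M N → ℂ) (ρ : Finset (Vx M N)) (h : Sml Φ ρ) : |th Φ ρ| < 1 / 6 := by
  unfold th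
  by_cases h2 : ρ.card = 2
  · rw [if_pos h2]
    obtain ⟨x, y, hxy, rfl⟩ := Finset.card_eq_two.1 h2
    have hx : x ∈ ({x, y} : Finset (Vx M N)) := by simp
    have hy : y ∈ ({x, y} : Finset (Vx M N)) := by simp
    rw [Finset.sum_pair hxy, Finset.sum_pair hxy, Finset.sum_pair hxy,
      if_neg (lt_irrefl _), if_neg (lt_irrefl _)]
    have h3 := theta_turn (theta_div_sub (h.1 x hx) (h.2 x hx y hy))
    have h4 := theta_turn (theta_div_sub (h.1 y hy) (h.2 y hy x hx))
    rcases lt_trichotomy x.2 y.2 with h5 | h5 | h5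
    · rw [if_pos h5, if_neg (not_lt.2 h5.le)]
      simpa using h3
    · rw [if_neg (by rw [h5]; exact lt_irrefl _), if_neg (by rw [h5]; exact lt_irrefl _)]
      norm_num
    · rw [if_neg (not_lt.2 h5.le), if_pos h5]
      simpa using h4
  · rw [if_neg h2]
    norm_num

theorem w0_small (Φ : Vx M N → ℂ) (σ : Finset (Vx M N)) (h : Sml Φ σ) : w0 Φ σ = 0 := by
  have key : |fd (th Φ) σ| < 1 / 2 := by
    by_cases h3 : σ.card = 3
    · have hsg : ∀ v : Vx M N, |((sg v σ : ℤ) : ℝ)| = 1 := by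
        intro v
        unfold sg
        push_cast
        rw [abs_pow, abs_neg, abs_one, one_pow]
      have h1 : |fd (th Φ) σ| < ∑ v ∈ σ, (1 / 6 : ℝ) := by
        unfold fd
        refine lt_of_le_of_lt (Finset.abs_sum_le_sum_abs _ _) ?_
        refine Finset.sum_lt_sum_of_nonempty (Finset.card_pos.1 (by omega)) fun v hv => ?_
        rw [zsmul_eq_mul, abs_mul, hsg v, one_mul]
        refine theta_small Φ _ ⟨fun u hu => h.1 u (Finset.mem_of_mem_erase hu), fun u hu w hw =>
          h.2 u (Finset.mem_of_mem_erase hu) w (Finset.mem_of_mem_erase hw)⟩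
      rw [Finset.sum_const, h3] at h1
      norm_num at h1 ⊢
      exact h1
    · rw [theta_card Φ σ h3, abs_zero]
      norm_num
  unfold w0
  rw [round_eq_zero_iff, Set.mem_Ico]
  have := abs_lt.1 key
  exact ⟨by linarith [this.1], this.2⟩

theorem w0_empty (Φ : Vx M N → ℂ) : w0 Φ ∅ = 0 := by
  unfold w0 fd
  rw [Finset.sum_empty, round_zero]

theorem w0_pair [NeZero M] (Φ : Vx M N → ℂ) (hΦ : ∀ v, Φ v ≠ 0) {z : Ch (Vx M N)} (hz : z ∈ SP (GdL (M := M) (N := N))) :
    ((pair (w0 Φ) (om z) : ℤ) : ℝ) = pair (th Φ) (om (bd z)) := by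
  have h1 : om (bd z) = dd (om z) := om_bd hz
  have h2 : ((pair (w0 Φ) (om z) : ℤ) : ℝ) = pair (fun S => ((w0 Φ S : ℤ) : ℝ)) (om z) := by
    show ((∑ S : Finset (Vx M N), om z S • w0 Φ S : ℤ) : ℝ) =
      ∑ S : Finset (Vx M N), om z S • ((w0 Φ S : ℤ) : ℝ)
    rw [Int.cast_sum]
    refine Finset.sum_congr rfl fun S _ => ?_
    rw [smul_eq_mul, zsmul_eq_mul, Int.cast_mul]
  rw [h1, pair_dd, h2]
  exact pair_congr _ _ hz fun l hl => th_int Φ hΦ _ (good_toFinset hl)

theorem th_pair [NeZero M] (Φ : Vx M N → ℂ) (v w : Vx M N) (hvw : v.2 = w.2 → v = w) (hv : 1 / 2 ≤ ‖Φ v‖)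
    (hw : ‖Φ v - Φ w‖ ≤ 1 / 8) :
    pair (th Φ) (om (Finsupp.single [v, w] 1)) = Complex.arg (Φ w / Φ v) / (2 * Real.pi) := by
  have hv0 : Φ v ≠ 0 := by
    intro h
    rw [h, norm_zero] at hv
    linarith
  rw [om_single, one_smul]
  by_cases hne : v = w
  · subst hne
    have h1 : omL [v, v] = 0 := wd_wd_self v _
    rw [h1, map_zero, div_self hv0, Complex.arg_one, zero_div]
  · have hne2 : v.2 ≠ w.2 := fun h => hne (hvw h)
    have h1 : pair (th Φ) (omL [v, w]) = omL [v, w] {v, w} • th Φ {v, w} := by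
      show (∑ S : Finset (Vx M N), omL [v, w] S • th Φ S) = _
      refine Finset.sum_eq_single ({v, w} : Finset (Vx M N)) (fun S _ hS => ?_) (fun h => absurd (Finset.mem_univ _) h)
      have h2 : omL [v, w] S = 0 := by
        by_contra h0
        have h3 := (omL_supp [v, w] S h0).1
        rw [List.toFinset_cons, List.toFinset_cons, List.toFinset_nil] at h3
        exact hS h3
      rw [h2, zero_smul]
    have h2 : omL [v, w] {v, w} = sg v ({v, w} : Finset (Vx M N)) := by
      show (if v ∈ ({v, w} : Finset (Vx M N)) then sg v ({v, w} : Finset (Vx M N)) *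
        (if w ∈ ({v, w} : Finset (Vx M N)).erase v then sg w (({v, w} : Finset (Vx M N)).erase v) *
          (if (({v, w} : Finset (Vx M N)).erase v).erase w = ∅ then (1 : ℤ) else 0) else 0) else 0) = _
      have e1 : ({v, w} : Finset (Vx M N)).erase v = {w} := by
        rw [Finset.erase_insert]
        rw [Finset.mem_singleton]
        exact hne
      have e2 : ({w} : Finset (Vx M N)).erase w = ∅ := by simp
      have e3 : sg w ({w} : Finset (Vx M N)) = 1 := by
        rw [← Finset.insert_empty, sg_insert_self, sg, Finset.filter_empty, Finset.card_empty, pow_zero]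
      rw [e1, e2, if_pos (Finset.mem_insert_self _ _), if_pos (Finset.mem_singleton_self _), if_pos rfl, e3,
        mul_one, mul_one]
    rw [h1, h2]
    rcases lt_or_gt_of_ne hne2 with h3 | h3
    · have h4 : sg v ({v, w} : Finset (Vx M N)) = 1 := by
        rw [sg_insert_self, show ({w} : Finset (Vx M N)) = insert w ∅ from rfl, sg_insert_not_lt _ (not_lt.2 h3.le), sg,
          Finset.filter_empty, Finset.card_empty, pow_zero]
      rw [h4, one_smul, theta_pair Φ h3]
    · have h4 : sg v ({v, w} : Finset (Vx M N)) = -1 := by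
        rw [sg_insert_self, show ({w} : Finset (Vx M N)) = insert w ∅ from rfl, sg_insert_lt (Finset.notMem_empty _) h3, sg,
          Finset.filter_empty, Finset.card_empty, pow_zero]
      have h5 : Complex.arg (Φ w / Φ v) ≠ Real.pi := by
        intro h6
        have h7 := theta_arg_lt (theta_div_sub hv hw)
        rw [h6, abs_of_pos Real.pi_pos] at h7
        linarith [Real.pi_pos]
      have h6 : Complex.arg (Φ v / Φ w) = - Complex.arg (Φ w / Φ v) := by
        rw [← inv_div, Complex.arg_inv, if_neg h5]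
      rw [h4, Finset.pair_comm, theta_pair Φ h3, h6, neg_smul, one_smul]
      ring

end AGR
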