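import Pool.Agent.AGR.Coch
import Pool.Agent.AGR.Theta

/-!
# AGR/Fun: the functionals `U`, `U'`, `V`

PROOF PLAN.  `w σ = (w0 Φ σ : ZMod p)`, `la s = lam (lab s)` for `s < k` and `0` for `s ≥ k` (so that `cc_inv` applies, with `t s = if r = s then 1 else 0` for `s < k`, `t s = 0` for `s ≥ k`), `c s = cc w la s`, `c' σ = ((c k σ).val : ℤ)`;
`U s z = pair (c s) (om (mp F z))`, `U' s z = pair (fun σ => la s σ * c s σ) (om (mp F z))`, `V z = pair c' (om (mp F z))` (linear maps: compose `pair _`, `om`, `mp F`).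
For `z ∈ Fi L j` the lists of `mp F z` satisfy `GdL` and have at most `k + 3` different vertices (`hOK`).
`u1`: `pair_dd`, `om_bd`, `bd_mp`.  `mp F (mp (a r) z) = mp (π r) (mp F z)` (`mp_mp`, `hF`), then `pair_perm` and `pair_congr` (good sets) with `cc_inv`, resp. `lam_perm` (`(la s (σ.image π)) = la s σ + t s r`, `t s r = 1` for
`r = s`, `0` otherwise): `u2`, `v1`, `u3` (`l.toFinset` is nonempty for `l.length = s + 3`).  `u4`, `v2`: `l.toFinset` is small (`hnear`, `cc_small`; `w0_small` cast), `pair_congr` with `0`.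
`v3`: `om (bd (mp F z)) = dd (om (mp F z))` and `om (mp F z) = 0` by `om_small` (`k + 4` points, at most `k + 3` vertices).  `v4`: `mp_pr`, `F ∘ (a 0)^[n] = F`, `om_pr_self`.  `v5`: cast of the sum: `((c k σ).val : ZMod p) = c k σ`
(`ZMod.natCast_zmod_val`).  The last statement: `c 0 = w`: cast of the sum.
-/

set_option autoImplicit false

namespace AGR

open AGV

private theorem fun_pair {M N : ℕ} [NeZero M] {β : Type} [AddCommGroup β] (c : Finset (Vx M N) → β)
    (α : Finset (Vx M N) → ℤ) : pair c α = ∑ S : Finset (Vx M N), α S • c S := rfl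

private theorem fun_pair_add {M N : ℕ} [NeZero M] {β : Type} [AddCommGroup β] (c c' : Finset (Vx M N) → β)
    (α : Finset (Vx M N) → ℤ) : pair (fun S => c S + c' S) α = pair c α + pair c' α := by
  rw [fun_pair, fun_pair, fun_pair, ← Finset.sum_add_distrib]
  exact Finset.sum_congr rfl fun S _ => smul_add _ _ _

private theorem fun_pair_zero {M N : ℕ} [NeZero M] {β : Type} [AddCommGroup β]
    (α : Finset (Vx M N) → ℤ) : pair (fun _ => (0 : β)) α = 0 := by
  rw [fun_pair]
  exact Finset.sum_eq_zero fun S _ => smul_zero _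

private theorem fun_cast {M N p : ℕ} [NeZero M] (c : Finset (Vx M N) → ℤ) (α : Finset (Vx M N) → ℤ) :
    ((pair c α : ℤ) : ZMod p) = pair (fun S => ((c S : ℤ) : ZMod p)) α := by
  rw [fun_pair, fun_pair, Int.cast_sum]
  refine Finset.sum_congr rfl fun S _ => ?_
  rw [smul_eq_mul, zsmul_eq_mul, Int.cast_mul]

private theorem fun_w0_fd {M N p : ℕ} (Φ : Vx M N → ℂ) (hΦ0 : ∀ v, Φ v ≠ 0) (σ : Finset (Vx M N)) (h : Good σ) :
    fd (fun σ => ((w0 Φ σ : ℤ) : ZMod p)) σ = 0 := by
  have h1 := fd_map ((Int.castAddHom (ZMod p)).toIntLinearMap) (w0 Φ) σ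
  rw [w0_fd Φ hΦ0 σ h, map_zero] at h1
  exact h1.symm

private theorem fun_sml {M N : ℕ} (Φ : Vx M N → ℂ) (σ τ : Finset (Vx M N)) (h : τ ⊆ σ) (hs : Sml Φ σ) :
    Sml Φ τ :=
  ⟨fun v hv => hs.1 v (h hv), fun v hv w hw => hs.2 v (h hv) w (h hw)⟩

theorem funs {X : Type} [MetricSpace X] {M N k p : ℕ} [NeZero M] [NeZero p] {L t₀ : ℝ} {A : Set X} (a : ℕ → X → X) (n : ℕ)
    (F : X → Vx M N) (hOK : ∀ l : List X, Msh L l → OK (k + 2) (l.map F)) (π : ℕ → Equiv.Perm (Vx M N))
    (hπ : ∀ r v, (π r v).2 = v.2) (hF : ∀ r x, F (a r x) = π r (F x)) (hFn : ∀ x, F ((a 0)^[n] x) = F x)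
    (Φ : Vx M N → ℂ) (hΦ0 : ∀ v, Φ v ≠ 0) (hΦ : ∀ r v, Φ (π r v) = Φ v) (lab : ℕ → Vx M N → ZMod p)
    (hlab : ∀ s r, s < k → r < k → ∀ v, lab s (π r v) = lab s v + if r = s then 1 else 0)
    (hnear : ∀ l : List X, Msh L l → Cl A t₀ l → Sml Φ (l.map F).toFinset) :
    ∃ (U U' : ℕ → Ch X →ₗ[ℤ] ZMod p) (V : Ch X →ₗ[ℤ] ℤ), Fnl k p L t₀ A a n U U' V ∧
      ∀ z, U 0 z = ((pair (w0 Φ) (om (mp F z)) : ℤ) : ZMod p) := by
  classical
  -- the cochains
  obtain ⟨w, hwdef⟩ : ∃ w : Finset (Vx M N) → ZMod p, w = fun σ => ((w0 Φ σ : ℤ) : ZMod p) := ⟨_, rfl⟩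
  obtain ⟨la, hladef⟩ : ∃ la : ℕ → Finset (Vx M N) → ZMod p,
      la = fun s => if s < k then lam (lab s) else fun _ => 0 := ⟨_, rfl⟩
  have hw : ∀ σ, Good σ → fd w σ = 0 := by
    intro σ hσ
    rw [hwdef]
    exact fun_w0_fd Φ hΦ0 σ hσ
  have hw0 : w ∅ = 0 := by
    rw [hwdef]
    show ((w0 Φ ∅ : ℤ) : ZMod p) = 0
    rw [w0_empty, Int.cast_zero]
  have hw2 : ∀ r σ, w (σ.image (π r)) = w σ := by
    intro r σ
    rw [hwdef]
    show ((w0 Φ (σ.image (π r)) : ℤ) : ZMod p) = ((w0 Φ σ : ℤ) : ZMod p)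
    rw [w0_perm Φ (π r) (hπ r) (hΦ r)]
  have hws : ∀ σ, Sml Φ σ → w σ = 0 := by
    intro σ hσ
    rw [hwdef]
    show ((w0 Φ σ : ℤ) : ZMod p) = 0
    rw [w0_small Φ σ hσ, Int.cast_zero]
  have hla : ∀ r, r < k → ∀ s σ, Good σ → σ.Nonempty →
      la s (σ.image (π r)) = la s σ + if s < k then (if r = s then 1 else 0) else 0 := by
    intro r hr s σ hσ hne
    rw [hladef]
    by_cases hs : s < k
    · show (if s < k then lam (lab s) else fun _ => 0) (σ.image (π r)) =
        (if s < k then lam (lab s) else fun _ => 0) σ + _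
      rw [if_pos hs, if_pos hs]
      exact lam_perm (lab s) (π r) (hπ r) _ (hlab s r hs hr) σ hσ hne
    · show (if s < k then lam (lab s) else fun _ => 0) (σ.image (π r)) =
        (if s < k then lam (lab s) else fun _ => 0) σ + _
      rw [if_neg hs, if_neg hs, add_zero]
  have hinv : ∀ s r, r < k → ∀ σ, Good σ → cc w la s (σ.image (π r)) = cc w la s σ := by
    intro s r hr σ hσ
    exact cc_inv w hw hw0 la (π r) (hπ r) (fun s => if s < k then (if r = s then 1 else 0) else 0)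
      (fun σ _ => hw2 r σ) (fun s σ h1 h2 => hla r hr s σ h1 h2) s σ hσ
  have hsm : ∀ s σ, Sml Φ σ → cc w la s σ = 0 := fun s σ hσ =>
    cc_small w la (Sml Φ) (fun_sml Φ) hws s σ hσ
  -- supports
  have hG : ∀ j (z : Ch X), z ∈ Fi L j →
      mp F z ∈ SP (fun l : List (Vx M N) => GdL l ∧ l.length = j ∧ l.toFinset.card ≤ k + 3) := by
    intro j z hz
    refine mp_mem F (fun l hl => ?_) hz
    have h1 := hOK l hl.2
    exact ⟨h1.1, by rw [List.length_map]; exact hl.1, h1.2⟩
  have hN : ∀ j (z : Ch X), z ∈ Ne A L j t₀ →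
      mp F z ∈ SP (fun l : List (Vx M N) => Sml Φ l.toFinset) := by
    intro j z hz
    exact mp_mem F (fun l hl => hnear l hl.2.1 hl.2.2) hz
  have hGd : ∀ j (z : Ch X), z ∈ Fi L j → mp F z ∈ SP (GdL (M := M) (N := N)) := fun j z hz =>
    SP_mono (fun l hl => hl.1) (hG j z hz)
  have hmp : ∀ r (z : Ch X), mp F (mp (a r) z) = mp (π r) (mp F z) := by
    intro r z
    rw [mp_mp, mp_mp]
    congr 1
    congr 1
    funext x
    exact hF r x
  have hbd : ∀ j (z : Ch X), z ∈ Fi L j → om (mp F (bd z)) = dd (om (mp F z)) := by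
    intro j z hz
    rw [← bd_mp]
    exact om_bd (hGd j z hz)
  -- invariance of a pairing
  have hpi : ∀ {β : Type} [AddCommGroup β] (c c' : Finset (Vx M N) → β) (r j : ℕ) (z : Ch X),
      z ∈ Fi L j → (∀ l : List (Vx M N), GdL l → l.length = j →
        c (l.toFinset.image (π r)) = c' l.toFinset) →
      pair c (om (mp F (mp (a r) z))) = pair c' (om (mp F z)) := by
    intro β _ c c' r j z hz h
    rw [hmp, pair_perm c (π r) (hπ r)]
    exact pair_congr _ _ (hG j z hz) fun l hl => h l hl.1 hl.2.1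
  refine ⟨fun s => (pair (cc w la s)) ∘ₗ om ∘ₗ mp F,
    fun s => (pair (fun σ => la s σ * cc w la s σ)) ∘ₗ om ∘ₗ mp F,
    (pair (fun σ => ((cc w la k σ).val : ℤ))) ∘ₗ om ∘ₗ mp F, ⟨?_, ?_, ?_, ?_, ?_, ?_, ?_, ?_, ?_⟩, ?_⟩
  · intro s hs z hz
    show pair (cc w la (s + 1)) (om (mp F z)) = pair (fun σ => la s σ * cc w la s σ) (om (mp F (bd z)))
    rw [hbd _ z hz, pair_dd]
    rfl
  · intro s r _ hr z hz
    show pair (cc w la s) (om (mp F (mp (a r) z))) = pair (cc w la s) (om (mp F z))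
    exact hpi _ _ r _ z hz fun l hl _ => hinv s r hr _ (good_toFinset hl)
  · intro s r hs hr z hz
    show pair (fun σ => la s σ * cc w la s σ) (om (mp F (mp (a r) z))) =
      pair (fun σ => la s σ * cc w la s σ) (om (mp F z)) +
        if r = s then pair (cc w la s) (om (mp F z)) else 0
    have h1 : (if r = s then pair (cc w la s) (om (mp F z)) else 0) =
        pair (fun σ => if r = s then cc w la s σ else 0) (om (mp F z)) := by
      by_cases h : r = s
      · rw [if_pos h]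
        congr 2
        funext σ
        rw [if_pos h]
      · rw [if_neg h]
        have h2 : (fun σ => if r = s then cc w la s σ else 0) =
            fun _ : Finset (Vx M N) => (0 : ZMod p) := by
          funext σ
          rw [if_neg h]
        rw [h2, fun_pair_zero]
    rw [h1, ← fun_pair_add]
    refine hpi _ _ r _ z hz fun l hl hlen => ?_
    have hne : l.toFinset.Nonempty := by
      rw [List.toFinset_nonempty_iff]
      rintro rfl
      rw [List.length_nil] at hlen
      omega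
    show la s (l.toFinset.image (π r)) * cc w la s (l.toFinset.image (π r)) = _
    rw [hinv s r hr _ (good_toFinset hl), hla r hr s _ (good_toFinset hl) hne, if_pos hs, add_mul]
    by_cases h : r = s
    · rw [if_pos h, if_pos h, one_mul]
    · rw [if_neg h, if_neg h, zero_mul]
  · intro s _ z hz
    show pair (fun σ => la s σ * cc w la s σ) (om (mp F z)) = 0
    rw [pair_congr _ (fun _ => (0 : ZMod p)) (hN _ z hz) fun l hl => ?_, fun_pair_zero]
    show la s l.toFinset * cc w la s l.toFinset = 0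
    rw [hsm s _ hl, mul_zero]
  · intro r hr z hz
    show pair (fun σ => ((cc w la k σ).val : ℤ)) (om (mp F (mp (a r) z))) =
      pair (fun σ => ((cc w la k σ).val : ℤ)) (om (mp F z))
    refine hpi _ _ r _ z hz fun l hl _ => ?_
    show ((cc w la k (l.toFinset.image (π r))).val : ℤ) = ((cc w la k l.toFinset).val : ℤ)
    rw [hinv k r hr _ (good_toFinset hl)]
  · intro z hz
    show pair (fun σ => ((cc w la k σ).val : ℤ)) (om (mp F z)) = 0
    rw [pair_congr _ (fun _ => (0 : ℤ)) (hN _ z hz) fun l hl => ?_, fun_pair_zero]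
    show ((cc w la k l.toFinset).val : ℤ) = 0
    rw [hsm k _ hl, ZMod.val_zero, Nat.cast_zero]
  · intro z hz
    show pair (fun σ => ((cc w la k σ).val : ℤ)) (om (mp F (bd z))) = 0
    have h1 : om (mp F z) = 0 := by
      refine om_small (SP_mono (fun l hl => ?_) (hG _ z hz))
      rw [hl.2.1]
      exact Nat.lt_succ_of_le hl.2.2
    rw [hbd _ z hz, h1, map_zero, map_zero]
  · intro z
    show pair (fun σ => ((cc w la k σ).val : ℤ)) (om (mp F (pr id ((a 0)^[n]) z))) = 0
    have h1 : F ∘ ((a 0)^[n]) = F := funext hFn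
    rw [mp_pr, h1, Function.comp_id, om_pr_self, map_zero]
  · intro z _
    show ((pair (fun σ => ((cc w la k σ).val : ℤ)) (om (mp F z)) : ℤ) : ZMod p) =
      pair (cc w la k) (om (mp F z))
    rw [fun_cast]
    congr 2
    funext S
    rw [Int.cast_natCast, ZMod.natCast_zmod_val]
  · intro z
    show pair (cc w la 0) (om (mp F z)) = ((pair (w0 Φ) (om (mp F z)) : ℤ) : ZMod p)
    rw [fun_cast]
    show pair w (om (mp F z)) = _
    rw [hwdef]

end AGR
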