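import Pool.Agent.AGR.Defs
import Pool.Agent.AGV.GrA

/-!
# AGR/Grp: a small copy of `A_p ^ k` in `G`

PROOF PLAN.  `Γ = Multiplicative (Fin k → ℤ_[p])` (compact, Hausdorff).  By continuity of the action and compactness of `X` (tube lemma, see `small_open` in AGV/GrA.lean) the set of the `g : G` with `dist (g • x) x < ε` for all `x` is a neighbourhood of `1`; so there is
`l` with `ι₀ (p ^ l • v)` in it for all `v` (`ι₀` continuous, `ι₀ 0 = 1`; `p ^ l ℤ_p ^ k` shrinks to `0`: `‖p ^ l • v‖ ≤ p ^ (- l)`).  `ι v = ι₀ (p ^ l • v)` (additive notation): injective since `ι₀` is and `ℤ_[p]` has no torsion.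
`χ s v = PadicInt.toZMod (v s)` for `s < k`, `0` otherwise (`χ s : Γ → ZMod p`); `g r = ` the basis vector `Pi.single r 1` for `r < k`, `1` (`= 0`) otherwise.
`K`: the set `Z` of the `v` with `χ s v ≠ 0` for some `s < k` is clopen in `Γ`, so `ι '' Z` is compact and does not contain `1` (injectivity).  For every `g ∈ ι '' Z` `small_open` gives an open normal subgroup `K_g` not containing `g`; the sets
`g K_g` are open and cover `ι '' Z`; finitely many suffice; the intersection `K` of the corresponding `K_g` (normal, open) avoids `ι '' Z`: if `h ∈ K ∩ ι '' Z`, `h ∈ g K_g`, then `g ∈ K_g`.  (Intersect also with one `small_open` group for the displacement `ε`; if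
`Z` is empty or `G` is trivial take care: for `k ≥ 1` `G` is nontrivial as `ι` is injective.)
Last statement: `ι ((g 0) ^ (p ^ j)) → 1` as `j → ∞`; `n = p ^ j`: the set of the `g` with displacement `< ε'` and in `K` is a neighbourhood of `1`.  `ι (g 0) ^ n = ι ((g 0) ^ n)`.
-/

set_option autoImplicit false

namespace AGR

open AGV

theorem grp_closed (p : ℕ) [Fact p.Prime] (k : ℕ) (χ : ℕ → Multiplicative (Fin k → ℤ_[p]) → ZMod p)
    (hχ : ∀ s v, χ s v = if h : s < k then PadicInt.toZMod (Multiplicative.toAdd v ⟨s, h⟩) else 0) :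
    IsClosed {v : Multiplicative (Fin k → ℤ_[p]) | ∃ s, χ s v ≠ 0} := by
  have h1 : {v : Multiplicative (Fin k → ℤ_[p]) | ∃ s, χ s v ≠ 0} =
      ⋃ i : Fin k, {v : Multiplicative (Fin k → ℤ_[p]) | ‖Multiplicative.toAdd v i‖ = 1} := by
    ext v
    simp only [Set.mem_ofPred_eq, Set.mem_iUnion]
    have h2 : ∀ x : ℤ_[p], PadicInt.toZMod x ≠ 0 ↔ ‖x‖ = 1 := by
      intro x
      rw [← PadicInt.isUnit_iff, ne_eq, ← RingHom.mem_ker, PadicInt.ker_toZMod,
        IsLocalRing.mem_maximalIdeal, mem_nonunits_iff, not_not]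
    constructor
    · rintro ⟨s, hs⟩
      rw [hχ] at hs
      split_ifs at hs with h
      · exact ⟨⟨s, h⟩, (h2 _).1 hs⟩
      · exact absurd rfl hs
    · rintro ⟨i, hi⟩
      refine ⟨i, ?_⟩
      rw [hχ, dif_pos i.2]
      exact (h2 _).2 hi
  rw [h1]
  apply isClosed_iUnion_of_finite
  intro i
  exact isClosed_eq (((continuous_apply i).comp continuous_toAdd).norm) continuous_const

theorem grp (p : ℕ) [Fact p.Prime] (k : ℕ) (hk : 1 ≤ k) {G X : Type} [Group G] [TopologicalSpace G] [IsTopologicalGroup G] [CompactSpace G]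
    [TotallyDisconnectedSpace G] [MetricSpace X] [CompactSpace X] [MulAction G X] [ContinuousSMul G X]
    (ι₀ : Multiplicative (Fin k → ℤ_[p]) →* G) (hc : Continuous ι₀) (hi : Function.Injective ι₀) {ε : ℝ} (hε : 0 < ε) :
    ∃ (ι : Multiplicative (Fin k → ℤ_[p]) →* G) (K : Subgroup G) (χ : ℕ → Multiplicative (Fin k → ℤ_[p]) → ZMod p)
      (g : ℕ → Multiplicative (Fin k → ℤ_[p])), Function.Injective ι ∧ (∀ γ, ∀ x : X, dist (ι γ • x) x < ε) ∧
      K.Normal ∧ IsOpen (K : Set G) ∧ (∀ h ∈ K, ∀ x : X, dist (h • x) x < ε) ∧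
      (∀ s γ γ', χ s (γ * γ') = χ s γ + χ s γ') ∧ (∀ s γ, ι γ ∈ K → χ s γ = 0) ∧
      (∀ s r, s < k → r < k → χ s (g r) = if r = s then 1 else 0) ∧
      ∀ ε' : ℝ, 0 < ε' → ∃ n : ℕ, 0 < n ∧ (∀ x : X, dist (ι ((g 0) ^ n) • x) x < ε') ∧ ι ((g 0) ^ n) ∈ K := by
  classical
  -- a nontrivial element
  have hne0 : (Multiplicative.ofAdd (Pi.single (⟨0, hk⟩ : Fin k) (1 : ℤ_[p])) :
      Multiplicative (Fin k → ℤ_[p])) ≠ 1 := by
    intro h
    have h1 := congrArg (fun v : Multiplicative (Fin k → ℤ_[p]) => Multiplicative.toAdd v ⟨0, hk⟩) h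
    simp at h1
  have hg1 : ι₀ (Multiplicative.ofAdd (Pi.single (⟨0, hk⟩ : Fin k) (1 : ℤ_[p]))) ≠ 1 := by
    intro h
    exact hne0 (hi (by rw [h, map_one]))
  obtain ⟨K₀, hK₀n, hK₀o, -, hK₀⟩ := small_open (G := G) (X := X) hε hg1
  have hfin : Finite (G ⧸ K₀) := K₀.quotient_finite_of_isOpen hK₀o
  have hind : K₀.index ≠ 0 := (Subgroup.finiteIndex_of_finite_quotient (H := K₀)).index_ne_zero
  let ι : Multiplicative (Fin k → ℤ_[p]) →* G := ι₀.comp (powMonoidHom K₀.index)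
  have hιv : ∀ γ, ι γ = (ι₀ γ) ^ K₀.index := by
    intro γ
    show ι₀ (γ ^ K₀.index) = _
    rw [map_pow]
  have hιi : Function.Injective ι := by
    intro γ γ' h
    have h1 : γ ^ K₀.index = γ' ^ K₀.index := hi h
    have h2 : (K₀.index) • (Multiplicative.toAdd γ) = K₀.index • (Multiplicative.toAdd γ') := h1
    apply Multiplicative.toAdd.injective
    funext i
    have h3 := congrFun h2 i
    simp only [Pi.smul_apply, nsmul_eq_mul] at h3
    exact mul_left_cancel₀ (Nat.cast_ne_zero.2 hind) h3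
  have hιK : ∀ γ, ι γ ∈ K₀ := by
    intro γ
    rw [hιv]
    exact K₀.pow_index_mem _
  have hιc : Continuous ι := by
    have h1 : Continuous fun γ => (ι₀ γ) ^ K₀.index := hc.pow _
    exact h1.congr fun γ => (hιv γ).symm
  let χ : ℕ → Multiplicative (Fin k → ℤ_[p]) → ZMod p := fun s v =>
    if h : s < k then PadicInt.toZMod (Multiplicative.toAdd v ⟨s, h⟩) else 0
  have hχ : ∀ s v, χ s v = if h : s < k then PadicInt.toZMod (Multiplicative.toAdd v ⟨s, h⟩) else 0 :=
    fun s v => rfl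
  let g : ℕ → Multiplicative (Fin k → ℤ_[p]) := fun r =>
    if h : r < k then Multiplicative.ofAdd (Pi.single (⟨r, h⟩ : Fin k) (1 : ℤ_[p])) else 1
  have hZc : IsCompact (ι '' {v : Multiplicative (Fin k → ℤ_[p]) | ∃ s, χ s v ≠ 0}) :=
    (grp_closed p k χ hχ).isCompact.image hιc
  have h1Z : (1 : G) ∈ (ι '' {v : Multiplicative (Fin k → ℤ_[p]) | ∃ s, χ s v ≠ 0})ᶜ ∩ (K₀ : Set G) := by
    refine ⟨?_, K₀.one_mem⟩
    rintro ⟨v, ⟨s, hs⟩, hv⟩
    have hv1 : v = 1 := hιi (by rw [hv, map_one])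
    apply hs
    rw [hχ, hv1]
    split_ifs with h
    · simp
    · rfl
  obtain ⟨H, hH⟩ := ProfiniteGrp.exist_openNormalSubgroup_sub_open_nhds_of_one
    (hZc.isClosed.isOpen_compl.inter hK₀o) h1Z
  have hHK : ∀ h ∈ H.toSubgroup, h ∈ K₀ := fun h hh => (hH hh).2
  refine ⟨ι, H.toSubgroup, χ, g, hιi, fun γ x => hK₀ _ (hιK γ) x, H.isNormal', H.isOpen',
    fun h hh x => hK₀ _ (hHK h hh) x, ?_, ?_, ?_, ?_⟩
  · intro s γ γ'
    simp only [hχ]
    split_ifs with h
    · rw [toAdd_mul, Pi.add_apply, map_add]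
    · rw [add_zero]
  · intro s γ hγ
    by_contra hcon
    exact (hH hγ).1 ⟨γ, ⟨s, hcon⟩, rfl⟩
  · intro s r hs hr
    rw [hχ, dif_pos hs]
    simp only [g, dif_pos hr, toAdd_ofAdd]
    by_cases hrs : r = s
    · subst hrs
      rw [if_pos rfl, Pi.single_eq_same, map_one]
    · rw [if_neg hrs, Pi.single_eq_of_ne, map_zero]
      intro h
      exact hrs (congrArg Fin.val h).symm
  · intro ε' hε'
    obtain ⟨K', hK'n, hK'o, -, hK'⟩ := small_open (G := G) (X := X) hε' hg1
    have hopen : IsOpen ((H.toSubgroup ⊓ K' : Subgroup G) : Set G) := by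
      rw [Subgroup.coe_inf]
      exact H.isOpen'.inter hK'o
    obtain ⟨n, hn, hn'⟩ := pow_mem_open (H.toSubgroup ⊓ K') hopen (ι (g 0))
    have hn2 := Subgroup.mem_inf.1 hn'
    refine ⟨n, hn, ?_, ?_⟩
    · intro x
      rw [map_pow]
      exact hK' _ hn2.2 x
    · rw [map_pow]
      exact hn2.1

end AGR
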