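import Pool.Agent.AGR.Defs

/-!
# AGR/Rec: the recursion

PROOF PLAN.  For `i ≤ s ≤ k` put `W i s = P i (P (i+1) (… P (s-1) D))`, `W s s = D` (recursion on `s - i`; e.g. `Wf i m` with `Wf i 0 = D`, `Wf i (m + 1) = P i (Wf (i + 1) m)`, `W i s = Wf i (s - i)`):
`W i s ∈ Fi (μ i) (s - i + 3)` (`P_fin`, `μ_anti`).
Let `K i s m` be the submodule spanned by the chains `mp (a r) x - x`, `i ≤ r < s`, `x ∈ Fi (μ i) m`, and by `Ne A (μ i) m (t₁ + (k - i) ρ)` (or with `t₁ + (s' - i) ρ`; any increasing bound `≤ t₀` works).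
`P i` maps `K (i+1) s m` to `K i s (m + 1)` (`P_comm`, `P_fin`, `P_mem`, `μ_anti`).  By downward induction on `i < s`:
`bd (W i s) - (-1) ^ (s-1-i) • (mp (a (s-1)) (W i (s-1)) - W i (s-1)) ∈ K i (s-1) (s - i + 2)`:
`i = s - 1`: `bd (P i D) = mp (a i) D - D - P i (bd D)`, `P i (bd D)` is near; step: `bd (P i (W (i+1) s)) = mp (a i) (W (i+1) s) - W (i+1) s - P i (bd (W (i+1) s))`.
Hence `U s (W 0 s) = U' (s-1) (bd (W 0 s)) = ± U (s-1) (W 0 (s-1))` (`u1`; `u3` with `r = s - 1`; `U' (s-1)` vanishes on `K 0 (s-1) (s+2)` by `u3` (`r < s - 1`), `u4`; `μ 0 ≤ L`), so `U k (W 0 k) = ± U 0 D`.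
`V (W 0 k) = 0`: with `W' = W 1 k ∈ Fi (μ 1) (k + 2)`: `n * V (P 0 W') = V (∑_{t<n} mp ((a 0)^[t]) (P 0 W'))` (`v1`, iterated; `Fi L j` is invariant under `mp (a 0)`, `a_iso`)
`= V (bd (R W')) + V (pr …) - V (R (bd W')) = - V (R (bd W'))` (`R_bd`, `v3`, `v4`), and `bd W'` is in `K 1 k (k + 1)` (for `k = 1`: `W' = D`, `bd D` near), `R` maps it to sums of `mp (a r) x - x`
(`R_comm`, `R_fin`; `V` vanishes by `v1`) and near chains (`R_mem`, `v2`).  As `0 < n`, `V (P 0 W') = 0` in `ℤ`.  With `v5`: `U k (W 0 k) = 0`.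
-/

set_option autoImplicit false

namespace AGR

open AGV

/-- the iterated homotopies: `rec_W P D i m = P i (P (i + 1) (... (P (i + m - 1) D)))` -/
private noncomputable def rec_W {X : Type} (P : ℕ → Ch X →ₗ[ℤ] Ch X) (D : Ch X) : ℕ → ℕ → Ch X
  | _, 0 => D
  | i, m + 1 => P i (rec_W P D (i + 1) m)

private theorem rec_Fi_mono {X : Type} [PseudoMetricSpace X] {μ ν : ℝ} (h : μ ≤ ν) {j : ℕ} {z : Ch X}
    (hz : z ∈ Fi μ j) : z ∈ Fi ν j :=
  SP_mono (fun _ hl => ⟨hl.1, fun x hx y hy => (hl.2 x hx y hy).trans_le h⟩) hz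

private theorem rec_Ne_mono {X : Type} [PseudoMetricSpace X] {A : Set X} {μ ν : ℝ} (h : μ ≤ ν) {j : ℕ} {t t' : ℝ} (ht : t ≤ t')
    {z : Ch X} (hz : z ∈ Ne A μ j t) : z ∈ Ne A ν j t' :=
  SP_mono (fun _ hl => ⟨hl.1, fun x hx y hy => (hl.2.1 x hx y hy).trans_le h, fun y hy => by
    obtain ⟨x, hx, hxy⟩ := hl.2.2 y hy
    exact ⟨x, hx, hxy.trans_le ht⟩⟩) hz

private theorem rec_mp_Fi {X : Type} [PseudoMetricSpace X] {f : X → X} (hf : ∀ x y, dist (f x) (f y) = dist x y) {μ : ℝ} {j : ℕ}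
    {z : Ch X} (hz : z ∈ Fi μ j) : mp f z ∈ Fi μ j := by
  refine mp_mem f (fun l hl => ⟨by simpa using hl.1, ?_⟩) hz
  intro x hx y hy
  obtain ⟨x', hx', rfl⟩ := List.mem_map.1 hx
  obtain ⟨y', hy', rfl⟩ := List.mem_map.1 hy
  rw [hf]
  exact hl.2 x' hx' y' hy'

/-- the error module -/
private noncomputable def rec_K {X : Type} [PseudoMetricSpace X] (A : Set X) (a : ℕ → X → X) (μ t : ℝ) (i s m : ℕ) : Submodule ℤ (Ch X) :=
  Submodule.span ℤ {y | ∃ r x, i ≤ r ∧ r < s ∧ x ∈ Fi μ m ∧ y = mp (a r) x - x} ⊔ Ne A μ m t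

private theorem rec_K_left {X : Type} [PseudoMetricSpace X] {A : Set X} {a : ℕ → X → X} {μ t : ℝ} {i s m r : ℕ} (h1 : i ≤ r)
    (h2 : r < s) {x : Ch X} (hx : x ∈ Fi μ m) : mp (a r) x - x ∈ rec_K A a μ t i s m :=
  Submodule.mem_sup_left (Submodule.subset_span ⟨r, x, h1, h2, hx, rfl⟩)

private theorem rec_K_right {X : Type} [PseudoMetricSpace X] {A : Set X} {a : ℕ → X → X} {μ t : ℝ} {i s m : ℕ}
    {x : Ch X} (hx : x ∈ Ne A μ m t) : x ∈ rec_K A a μ t i s m :=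
  Submodule.mem_sup_right hx

/-- a linear map that sends the generators into `Q` sends the error module into `Q` -/
private theorem rec_K_map {X β : Type} [PseudoMetricSpace X] [AddCommGroup β] {A : Set X} {a : ℕ → X → X} {μ t : ℝ} {i s m : ℕ}
    (φ : Ch X →ₗ[ℤ] β) (Q : Submodule ℤ β)
    (h1 : ∀ r x, i ≤ r → r < s → x ∈ Fi μ m → φ (mp (a r) x - x) ∈ Q) (h2 : ∀ x ∈ Ne A μ m t, φ x ∈ Q)
    {z : Ch X} (hz : z ∈ rec_K A a μ t i s m) : φ z ∈ Q := by
  have h : rec_K A a μ t i s m ≤ Q.comap φ := by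
    refine sup_le (Submodule.span_le.2 ?_) (fun x hx => h2 x hx)
    rintro y ⟨r, x, hr1, hr2, hx, rfl⟩
    exact h1 r x hr1 hr2 hx
  exact h hz

section

variable {X : Type} [MetricSpace X] {k p : ℕ} {ρ L t₀ t₁ : ℝ} {A : Set X} {a : ℕ → X → X} {n : ℕ}
    {μ : ℕ → ℝ} {P : ℕ → Ch X →ₗ[ℤ] Ch X} {R : Ch X →ₗ[ℤ] Ch X}

private theorem rec_anti (hO : Opr k ρ L a n μ P R) {i j : ℕ} (h : i ≤ j) : μ j ≤ μ i :=
  antitone_nat_of_succ_le hO.μ_anti h

private theorem rec_W_fin (hO : Opr k ρ L a n μ P R) {D : Ch X} (hD : D ∈ Fi (μ k) 3) :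
    ∀ m i, i + m ≤ k → rec_W P D i m ∈ Fi (μ i) (m + 3) := by
  intro m
  induction m with
  | zero => intro i hi; exact rec_Fi_mono (rec_anti hO (by omega)) hD
  | succ m ih =>
    intro i hi
    exact hO.P_fin i (m + 3) (by omega) (by omega) _ (ih (i + 1) (by omega))

/-- `P i` maps the error module of level `i + 1` to that of level `i` -/
private theorem rec_P_K (hO : Opr k ρ L a n μ P R) {T : ℝ} {i s m : ℕ} (hm : 1 ≤ m) (hm' : m ≤ k + 2) {z : Ch X}
    (hz : z ∈ rec_K A a (μ (i + 1)) T (i + 1) s m) : P i z ∈ rec_K A a (μ i) (T + ρ) i s (m + 1) := by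
  refine rec_K_map (P i) _ ?_ ?_ hz
  · intro r x hr1 hr2 hx
    rw [map_sub, hO.P_comm]
    exact rec_K_left (by omega) hr2 (hO.P_fin i m hm hm' x hx)
  · intro x hx
    exact rec_K_right (hO.P_mem i m A T hm hm' x hx)

/-- the boundary of `W i s`, `s = i + m + 1` -/
private theorem rec_bd (hO : Opr k ρ L a n μ P R) {D : Ch X} (hD : D ∈ Fi (μ k) 3) (hD2 : bd D ∈ Ne A (μ k) 2 t₁) (hρ : 0 < ρ) :
    ∀ m i, i + m + 1 ≤ k → bd (rec_W P D i (m + 1)) -
      (-1 : ℤ) ^ m • (mp (a (i + m)) (rec_W P D i m) - rec_W P D i m) ∈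
        rec_K A a (μ i) (t₁ + (k - i) * ρ) i (i + m) (m + 3) := by
  intro m
  induction m with
  | zero =>
    intro i hi
    have hDi : D ∈ Fi (μ (i + 1)) 3 := rec_Fi_mono (rec_anti hO (by omega)) hD
    have h1 : bd (rec_W P D i 1) = mp (a i) D - D - P i (bd D) := hO.P_bd i 3 (by omega) (by omega) D hDi
    have h2 : P i (bd D) ∈ Ne A (μ i) 3 (t₁ + (k - i) * ρ) := by
      have hk : (i : ℝ) + 1 ≤ k := by exact_mod_cast hi
      have h3 : bd D ∈ Ne A (μ (i + 1)) 2 (t₁ + (k - i - 1) * ρ) :=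
        rec_Ne_mono (rec_anti hO (by omega)) (by nlinarith) hD2
      have h4 := hO.P_mem i 2 A _ (by omega) (by omega) _ h3
      exact rec_Ne_mono le_rfl (by linarith) h4
    have h5 : bd (rec_W P D i (0 + 1)) - (-1 : ℤ) ^ 0 • (mp (a (i + 0)) (rec_W P D i 0) - rec_W P D i 0) = - P i (bd D) := by
      rw [zero_add, h1, pow_zero, one_smul]
      simp only [rec_W, add_zero]
      abel
    rw [h5]
    exact rec_K_right (neg_mem h2)
  | succ m ih =>
    intro i hi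
    have hW := rec_W_fin hO hD (m + 1) (i + 1) (by omega)
    have h1 : bd (rec_W P D i (m + 1 + 1)) = mp (a i) (rec_W P D (i + 1) (m + 1)) - rec_W P D (i + 1) (m + 1) -
        P i (bd (rec_W P D (i + 1) (m + 1))) :=
      hO.P_bd i (m + 1 + 3) (by omega) (by omega) _ hW
    have h2 := rec_P_K hO (m := m + 3) (by omega) (by omega) (ih (i + 1) (by omega))
    rw [map_sub, map_smul, map_sub, hO.P_comm] at h2
    have h3 : mp (a i) (rec_W P D (i + 1) (m + 1)) - rec_W P D (i + 1) (m + 1) ∈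
        rec_K A a (μ i) (t₁ + (k - i) * ρ) i (i + (m + 1)) (m + 1 + 3) :=
      rec_K_left le_rfl (by omega) (rec_Fi_mono (rec_anti hO (by omega)) hW)
    have e1 : i + 1 + m = i + (m + 1) := by omega
    have e2 : t₁ + ((k : ℝ) - ((i + 1 : ℕ) : ℝ)) * ρ + ρ = t₁ + (k - i) * ρ := by push_cast; ring
    rw [e1, e2] at h2
    have h4 := sub_mem h3 h2
    have h5 : bd (rec_W P D i (m + 1 + 1)) - (-1 : ℤ) ^ (m + 1) • (mp (a (i + (m + 1))) (rec_W P D i (m + 1)) - rec_W P D i (m + 1)) =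
        mp (a i) (rec_W P D (i + 1) (m + 1)) - rec_W P D (i + 1) (m + 1) -
        (P i (bd (rec_W P D (i + 1) (m + 1))) - (-1 : ℤ) ^ m •
          (mp (a (i + (m + 1))) (P i (rec_W P D (i + 1) m)) - P i (rec_W P D (i + 1) m))) := by
      rw [h1, pow_succ, mul_neg_one, neg_smul]
      simp only [rec_W]
      abel
    rw [h5]
    exact h4

end

theorem recur {X : Type} [MetricSpace X] {k p : ℕ} (hk : 1 ≤ k) {ρ L t₀ t₁ : ℝ} (hρ : 0 < ρ) {A : Set X} {a : ℕ → X → X} {n : ℕ}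
    (hn : 0 < n) {μ : ℕ → ℝ} {P : ℕ → Ch X →ₗ[ℤ] Ch X} {R : Ch X →ₗ[ℤ] Ch X} (hO : Opr k ρ L a n μ P R)
    {U U' : ℕ → Ch X →ₗ[ℤ] ZMod p} {V : Ch X →ₗ[ℤ] ℤ} (hU : Fnl k p L t₀ A a n U U' V) (ht : t₁ + (k + 1) * ρ ≤ t₀)
    {D : Ch X} (hD : D ∈ Fi (μ k) 3) (hD2 : bd D ∈ Ne A (μ k) 2 t₁) : U 0 D = 0 := by
  have hL : ∀ i j (z : Ch X), z ∈ Fi (μ i) j → z ∈ Fi L j := fun i j z hz =>
    rec_Fi_mono ((rec_anti hO (Nat.zero_le i)).trans hO.μ_zero) hz
  -- the functionals `U s` on `W 0 s`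
  have hstep : ∀ s, s + 1 ≤ k → U (s + 1) (rec_W P D 0 (s + 1)) = (-1 : ℤ) ^ s • U s (rec_W P D 0 s) := by
    intro s hs
    rw [hU.u1 s (by omega) _ (hL 0 _ _ (rec_W_fin hO hD (s + 1) 0 (by omega)))]
    have h1 := rec_bd hO hD hD2 hρ s 0 (by omega)
    have h2 : U' s (bd (rec_W P D 0 (s + 1)) -
        (-1 : ℤ) ^ s • (mp (a (0 + s)) (rec_W P D 0 s) - rec_W P D 0 s)) = 0 := by
      have h3 : U' s (bd (rec_W P D 0 (s + 1)) -
        (-1 : ℤ) ^ s • (mp (a (0 + s)) (rec_W P D 0 s) - rec_W P D 0 s)) ∈ (⊥ : Submodule ℤ (ZMod p)) := by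
        refine rec_K_map (U' s) ⊥ ?_ ?_ h1
        · intro r x _ hr2 hx
          rw [Submodule.mem_bot, map_sub, hU.u3 s r (by omega) (by omega) x (hL 0 _ _ hx), if_neg (by omega)]
          simp
        · intro x hx
          rw [Submodule.mem_bot]
          refine hU.u4 s (by omega) x (rec_Ne_mono hO.μ_zero ?_ hx)
          push_cast
          nlinarith
      simpa using h3
    rw [map_sub, sub_eq_zero] at h2
    rw [h2, map_smul, map_sub, zero_add,
      hU.u3 s s (by omega) (by omega) _ (hL 0 _ _ (rec_W_fin hO hD s 0 (by omega))), if_pos rfl, add_sub_cancel_left]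
  have hall : ∀ s, s ≤ k → U 0 D = 0 ∨ U s (rec_W P D 0 s) ≠ 0 := by
    intro s
    induction s with
    | zero =>
      intro _
      by_cases h : U 0 D = 0
      · exact Or.inl h
      · exact Or.inr h
    | succ s ih =>
      intro hs
      rcases ih (by omega) with h | h
      · exact Or.inl h
      · right
        rw [hstep s hs]
        rcases neg_one_pow_eq_or ℤ s with h1 | h1
        · rw [h1, one_smul]; exact h
        · rw [h1, neg_smul, one_smul]; exact neg_ne_zero.2 h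
  rcases hall k le_rfl with h | h
  · exact h
  exfalso
  apply h
  obtain ⟨m, rfl⟩ : ∃ m, k = m + 1 := ⟨k - 1, by omega⟩
  -- `V` vanishes on `W 0 k`
  have hW' := rec_W_fin hO hD m 1 (by omega)
  have hW := rec_W_fin hO hD (m + 1) 0 (by omega)
  rw [← hU.v5 _ (hL 0 _ _ hW)]
  have hV : V (rec_W P D 0 (m + 1)) = 0 := by
    -- the orbit sum
    have h1 : ∀ t : ℕ, mp ((a 0)^[t]) (rec_W P D 0 (m + 1)) ∈ Fi L (m + 1 + 3) ∧
        V (mp ((a 0)^[t]) (rec_W P D 0 (m + 1))) = V (rec_W P D 0 (m + 1)) := by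
      intro t
      induction t with
      | zero => rw [Function.iterate_zero, mp_id]; exact ⟨hL 0 _ _ hW, rfl⟩
      | succ t ih =>
        have h2 : mp ((a 0)^[t + 1]) (rec_W P D 0 (m + 1)) = mp (a 0) (mp ((a 0)^[t]) (rec_W P D 0 (m + 1))) := by
          rw [Function.iterate_succ', ← mp_mp]
        rw [h2]
        exact ⟨rec_mp_Fi (hO.a_iso 0) ih.1, by rw [hU.v1 0 (by omega) _ ih.1, ih.2]⟩
    have h3' : V (∑ t ∈ Finset.range n, mp ((a 0)^[t]) (rec_W P D 0 (m + 1))) = n * V (rec_W P D 0 (m + 1)) := by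
      rw [map_sum, Finset.sum_congr rfl (fun t _ => (h1 t).2)]
      simp
    have h3 : V (∑ t ∈ Finset.range n, mp ((a 0)^[t]) (P 0 (rec_W P D 1 m))) = n * V (rec_W P D 0 (m + 1)) := h3'
    have h4 := congrArg V (hO.R_bd (m + 3) (by omega) (by omega) _ hW')
    rw [map_add, map_sub, h3, hU.v4, hU.v3 _ (hO.R_fin (m + 3) (by omega) (by omega) _ hW'), sub_zero] at h4
    -- the boundary of `W 1 k`
    have h5 : bd (rec_W P D 1 m) ∈ rec_K A a (μ 1) (t₁ + (m + 1) * ρ) 1 (m + 1) (m + 2) := by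
      cases m with
      | zero =>
        refine rec_K_right (rec_Ne_mono le_rfl ?_ hD2)
        push_cast
        nlinarith
      | succ m =>
        have h6 := rec_bd hO hD hD2 hρ m 1 (by omega)
        have h7 : rec_K A a (μ 1) (t₁ + (((m + 1 + 1 : ℕ) : ℝ) - ((1 : ℕ) : ℝ)) * ρ) 1 (1 + m) (m + 3) ≤
            rec_K A a (μ 1) (t₁ + (((m + 1 : ℕ) : ℝ) + 1) * ρ) 1 (m + 1 + 1) (m + 1 + 2) := by
          intro z hz
          refine rec_K_map LinearMap.id _ ?_ ?_ hz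
          · intro r x hr1 hr2 hx
            exact rec_K_left hr1 (by omega) hx
          · intro x hx
            refine rec_K_right (rec_Ne_mono le_rfl ?_ hx)
            push_cast
            nlinarith
        have h8 := h7 h6
        have h9 : (-1 : ℤ) ^ m • (mp (a (1 + m)) (rec_W P D 1 m) - rec_W P D 1 m) ∈
            rec_K A a (μ 1) (t₁ + (((m + 1 : ℕ) : ℝ) + 1) * ρ) 1 (m + 1 + 1) (m + 1 + 2) :=
          Submodule.smul_mem _ _ (rec_K_left (by omega) (by omega) (rec_W_fin hO hD m 1 (by omega)))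
        have h10 := add_mem h8 h9
        rwa [sub_add_cancel] at h10
    have h6 : V (R (bd (rec_W P D 1 m))) = 0 := by
      have h7 : (V ∘ₗ R) (bd (rec_W P D 1 m)) ∈ (⊥ : Submodule ℤ ℤ) := by
        refine rec_K_map (V ∘ₗ R) ⊥ ?_ ?_ h5
        · intro r x _ hr2 hx
          rw [Submodule.mem_bot, LinearMap.comp_apply, map_sub, hO.R_comm, map_sub,
            hU.v1 r (by omega) _ (hO.R_fin (m + 2) (by omega) (by omega) x hx), sub_self]
        · intro x hx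
          rw [Submodule.mem_bot, LinearMap.comp_apply]
          refine hU.v2 _ (rec_Ne_mono le_rfl ?_ (hO.R_mem (m + 2) A _ (by omega) (by omega) x hx))
          push_cast at ht
          nlinarith
      simpa using h7
    rw [h6, add_zero] at h4
    have hn' : (n : ℤ) ≠ 0 := by exact_mod_cast hn.ne'
    rcases mul_eq_zero.1 h4.symm with h | h
    · exact absurd h hn'
    · exact h
  rw [hV]
  simp

end AGR
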