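import Pool.Agent.AGR.Theta
import Pool.Agent.AGV.Pth

/-!
# AGR/Wind: a fine cycle in `Q ∪ Q' ∪ C ∪ C'` with winding number 1

PROOF PLAN.  Choose `q ∈ C ∩ Q`, `q' ∈ C ∩ Q'`, `r ∈ C' ∩ Q`, `r' ∈ C' ∩ Q'`.  `exists_chain` (AGV/Pth.lean): `c₁` in `C` with `bd c₁ = [q'] - [q]`, `c₂` in `Q'` with `bd c₂ = [r'] - [q']`, `c₃` in `C'` with `bd c₃ = [r] - [r']`,
`c₄` in `Q` with `bd c₄ = [q] - [r]`, all of mesh `< μ`; `z = c₁ + c₂ + c₃ + c₄`.  Put `e x = arg (Φ (F x) / ψ x) / (2 π)`; on the four sets `‖ψ x‖ = 1`, so `|e x| < 1 / 12` or so.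
For a list `[x, y]` of mesh `< μ ≤ L` with `x, y` in `C`: `th_pair` (`‖Φ (F x)‖ ≥ 1 / 2`, `‖Φ (F x) - Φ (F y)‖ ≤ ‖ψ x - ψ y‖ + 1 / 32 ≤ 1 / 8`; the second coordinates: `hGL`) gives
`pair (th Φ) (om (mp F [x, y])) = arg (Φ (F y) / Φ (F x)) / (2 π) = (u y / 2 + e y) - (u x / 2 + e x)`: both sides agree modulo `1` (`exp (2 π i .)` of both is `(Φ (F y) / Φ (F x)) / |..|`) and both are smaller than `1 / 2`
in absolute value (`|u x - u y| < 1 / 16` by `hu`).  On `C'` the same with `- u / 2`, on `Q`, `Q'` with the constant function.  So by linearity (`lin_eq`)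
`pair (th Φ) (om (mp F c)) = λ (bd c)`, `λ [x] = h x + e x` (`h = u / 2`, `- u / 2`, constant).  The four sums: `(1/2 + e q') - (0 + e q)`, `e r' - e q'`, `(0 + e r) - (- 1/2 + e r')`, `e q - e r`: total `1`.
`om (mp F z)` is linear in `z`.
-/

set_option autoImplicit false

namespace AGR

open AGV

private theorem wind_re {z : ℂ} (h : ‖z - 1‖ < 1) : 0 < z.re := by
  have h1 := Complex.abs_re_le_norm (z - 1)
  rw [Complex.sub_re, Complex.one_re] at h1
  have h2 := abs_lt.1 (lt_of_le_of_lt h1 h)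
  linarith [h2.1]

private theorem wind_arg {z : ℂ} (h : ‖z - 1‖ < 1) : |Complex.arg z / (2 * Real.pi)| < 1 / 4 := by
  have h1 : |Complex.arg z| < Real.pi / 2 := Complex.abs_arg_lt_pi_div_two_iff.2 (Or.inl (wind_re h))
  have hp := Real.pi_pos
  rw [abs_div, abs_of_pos (by positivity : (0 : ℝ) < 2 * Real.pi), div_lt_iff₀ (by positivity)]
  linarith

private theorem wind_unit {z : ℂ} (hz : z ≠ 0) : Complex.exp ((Complex.arg z : ℝ) * Complex.I) = z / (‖z‖ : ℝ) := by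
  have h1 := Complex.norm_mul_exp_arg_mul_I z
  have h2 : ((‖z‖ : ℝ) : ℂ) ≠ 0 := by
    rw [Complex.ofReal_ne_zero]
    exact norm_ne_zero_iff.2 hz
  rw [eq_div_iff h2, mul_comm]
  exact h1

private theorem wind_turn (t : ℝ) : Complex.exp ((2 * Real.pi * t : ℝ) * Complex.I) = 1 → |t| < 1 → t = 0 := by
  intro h h1
  obtain ⟨n, hn⟩ := Complex.exp_eq_one_iff.1 h
  have h2 : ((2 * Real.pi * t : ℝ) : ℂ) * Complex.I = ((n * (2 * Real.pi) : ℝ) : ℂ) * Complex.I := by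
    rw [hn]
    push_cast
    ring
  have h3 := mul_right_cancel₀ Complex.I_ne_zero h2
  have h4 : 2 * Real.pi * t = n * (2 * Real.pi) := by exact_mod_cast h3
  have hp := Real.pi_pos
  have h5 : t = n := by
    have h6 : (2 * Real.pi) * t = (2 * Real.pi) * n := by rw [h4]; ring
    exact mul_left_cancel₀ (by positivity) h6
  rw [h5] at h1 ⊢
  have h7 : |n| < 1 := by exact_mod_cast h1
  rw [Int.abs_lt_one_iff.1 h7]
  simp

private theorem wind_step {A B P R : ℂ} {a b : ℝ} (hP : P = Complex.exp ((2 * Real.pi * a : ℝ) * Complex.I))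
    (hR : R = Complex.exp ((2 * Real.pi * b : ℝ) * Complex.I)) (hA : ‖A - P‖ < 1 / 64) (hB : ‖B - R‖ < 1 / 64)
    (hAB : ‖A - B‖ ≤ 1 / 8) (hab : |a - b| ≤ 1 / 8) :
    Complex.arg (B / A) / (2 * Real.pi) =
      (b + Complex.arg (B / R) / (2 * Real.pi)) - (a + Complex.arg (A / P) / (2 * Real.pi)) := by
  have hPn : ‖P‖ = 1 := by rw [hP]; exact Complex.norm_exp_ofReal_mul_I _
  have hRn : ‖R‖ = 1 := by rw [hR]; exact Complex.norm_exp_ofReal_mul_I _
  have hP0 : P ≠ 0 := by rw [hP]; exact Complex.exp_ne_zero _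
  have hR0 : R ≠ 0 := by rw [hR]; exact Complex.exp_ne_zero _
  have hAn : 1 / 2 < ‖A‖ := by
    have h := norm_sub_norm_le P A
    rw [hPn, norm_sub_rev] at h
    linarith
  have hBn : 1 / 2 < ‖B‖ := by
    have h := norm_sub_norm_le R B
    rw [hRn, norm_sub_rev] at h
    linarith
  have hA0 : A ≠ 0 := by rintro rfl; rw [norm_zero] at hAn; linarith
  have hB0 : B ≠ 0 := by rintro rfl; rw [norm_zero] at hBn; linarith
  have b1 : |Complex.arg (B / A) / (2 * Real.pi)| < 1 / 4 := by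
    apply wind_arg
    have h : B / A - 1 = (B - A) / A := by field_simp
    rw [h, norm_div, div_lt_one (by linarith), norm_sub_rev]
    linarith
  have b2 : |Complex.arg (B / R) / (2 * Real.pi)| < 1 / 4 := by
    apply wind_arg
    have h : B / R - 1 = (B - R) / R := by field_simp
    rw [h, norm_div, hRn, div_one]
    linarith
  have b3 : |Complex.arg (A / P) / (2 * Real.pi)| < 1 / 4 := by
    apply wind_arg
    have h : A / P - 1 = (A - P) / P := by field_simp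
    rw [h, norm_div, hPn, div_one]
    linarith
  have key := wind_turn (Complex.arg (B / A) / (2 * Real.pi) -
      ((b + Complex.arg (B / R) / (2 * Real.pi)) - (a + Complex.arg (A / P) / (2 * Real.pi)))) (by
    have hp : (Real.pi : ℂ) ≠ 0 := by exact_mod_cast Real.pi_ne_zero
    have e1 : ((2 * Real.pi * (Complex.arg (B / A) / (2 * Real.pi) -
        ((b + Complex.arg (B / R) / (2 * Real.pi)) - (a + Complex.arg (A / P) / (2 * Real.pi)))) : ℝ) : ℂ) *
          Complex.I = ((Complex.arg (B / A) : ℝ) * Complex.I + ((2 * Real.pi * a : ℝ) * Complex.I +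
            (Complex.arg (A / P) : ℝ) * Complex.I)) - ((2 * Real.pi * b : ℝ) * Complex.I +
            (Complex.arg (B / R) : ℝ) * Complex.I) := by
      push_cast
      field_simp
      ring
    rw [e1, Complex.exp_sub, Complex.exp_add, Complex.exp_add, Complex.exp_add, ← hP, ← hR,
      wind_unit (div_ne_zero hB0 hA0), wind_unit (div_ne_zero hA0 hP0), wind_unit (div_ne_zero hB0 hR0),
      norm_div, norm_div, norm_div, hPn, hRn, div_one, div_one]
    have nA : ((‖A‖ : ℝ) : ℂ) ≠ 0 := by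
      rw [Complex.ofReal_ne_zero]
      exact norm_ne_zero_iff.2 hA0
    have nB : ((‖B‖ : ℝ) : ℂ) ≠ 0 := by
      rw [Complex.ofReal_ne_zero]
      exact norm_ne_zero_iff.2 hB0
    push_cast
    field_simp) (by
    have h1 := abs_lt.1 b1
    have h2 := abs_lt.1 b2
    have h3 := abs_lt.1 b3
    have h4 := abs_le.1 hab
    rw [abs_lt]
    constructor <;> linarith [h1.1, h1.2, h2.1, h2.2, h3.1, h3.2, h4.1, h4.2])
  linarith

/-- evaluation on the points -/
private noncomputable def wind_lam {X : Type} (f : X → ℝ) : Ch X →ₗ[ℤ] ℝ :=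
  Finsupp.linearCombination ℤ fun l => match l with
    | [x] => f x
    | _ => 0

private theorem wind_lam_single {X : Type} (f : X → ℝ) (x : X) : wind_lam f (Finsupp.single [x] 1) = f x := by
  unfold wind_lam
  rw [Finsupp.linearCombination_single, one_smul]

private theorem wind_bd2 {X : Type} (x y : X) :
    bd (Finsupp.single [x, y] (1 : ℤ)) = Finsupp.single [y] 1 - Finsupp.single [x] 1 := by
  rw [← cone_single, bd_cone, ← cone_single, bd_cone, bd_single, one_smul]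
  have h0 : bdL ([] : List X) = 0 := rfl
  rw [h0, map_zero, sub_zero, cone_single, cone_single]

private theorem wind_arc {X : Type} [MetricSpace X] {M N : ℕ} [NeZero M] (F : X → Vx M N) (Φ : Vx M N → ℂ) {L : ℝ}
    (hGL : ∀ l : List X, Msh L l → GdL (l.map F)) (ψ : X → ℂ) (hψF : ∀ x, ‖Φ (F x) - ψ x‖ < 1 / 64)
    (hψ : ∀ x y, dist x y < L → ‖ψ x - ψ y‖ < 1 / 64) {S : Set X} (hS : IsPreconnected S) (h : X → ℝ)
    (hh : ∀ x ∈ S, ∀ y ∈ S, dist x y < L → |h x - h y| ≤ 1 / 8)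
    (hψS : ∀ x ∈ S, ψ x = Complex.exp ((2 * Real.pi * h x : ℝ) * Complex.I)) {μ : ℝ} (hμ : 0 < μ) (hμL : μ ≤ L)
    {x y : X} (hx : x ∈ S) (hy : y ∈ S) :
    ∃ c ∈ SP (fun l : List X => l.length = 2 ∧ Msh μ l ∧ ∀ p ∈ l, p ∈ S),
      bd c = Finsupp.single [y] 1 - Finsupp.single [x] 1 ∧
      pair (th Φ) (om (mp F c)) = (h y + Complex.arg (Φ (F y) / ψ y) / (2 * Real.pi)) -
        (h x + Complex.arg (Φ (F x) / ψ x) / (2 * Real.pi)) := by
  obtain ⟨c, hc, hbc⟩ := exists_chain hS hμ hx hy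
  refine ⟨c, hc, hbc, ?_⟩
  have key := lin_eq ((pair (th Φ)).comp (om.comp (mp F)))
    ((wind_lam fun x => h x + Complex.arg (Φ (F x) / ψ x) / (2 * Real.pi)).comp bd) (fun l hl => by
      obtain ⟨hlen, hmsh, hin⟩ := hl
      obtain ⟨p, q, rfl⟩ := List.length_eq_two.1 hlen
      have hp : p ∈ S := hin p (by simp)
      have hq : q ∈ S := hin q (by simp)
      have hpq : dist p q < L := lt_of_lt_of_le (hmsh p (by simp) q (by simp)) hμL
      have hg : GdL ([p, q].map F) := hGL [p, q] fun u hu v hv => lt_of_lt_of_le (hmsh u hu v hv) hμL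
      have hAB : ‖Φ (F p) - Φ (F q)‖ ≤ 1 / 8 := by
        have e : Φ (F p) - Φ (F q) = (Φ (F p) - ψ p) + (ψ p - ψ q) - (Φ (F q) - ψ q) := by ring
        rw [e]
        have e1 := norm_sub_le ((Φ (F p) - ψ p) + (ψ p - ψ q)) (Φ (F q) - ψ q)
        have e2 := norm_add_le (Φ (F p) - ψ p) (ψ p - ψ q)
        have e3 := hψF p
        have e4 := hψF q
        have e5 := hψ p q hpq
        linarith
      have hPn : ‖ψ p‖ = 1 := by rw [hψS p hp]; exact Complex.norm_exp_ofReal_mul_I _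
      have hAn : 1 / 2 ≤ ‖Φ (F p)‖ := by
        have e := norm_sub_norm_le (ψ p) (Φ (F p))
        rw [hPn, norm_sub_rev] at e
        have e3 := hψF p
        linarith
      show pair (th Φ) (om (mp F (Finsupp.single [p, q] 1))) =
        wind_lam (fun x => h x + Complex.arg (Φ (F x) / ψ x) / (2 * Real.pi)) (bd (Finsupp.single [p, q] 1))
      rw [wind_bd2, map_sub, wind_lam_single, wind_lam_single, mp_single]
      show pair (th Φ) (om (Finsupp.single [F p, F q] 1)) = _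
      rw [th_pair Φ (F p) (F q) (fun e => hg (F p) (by simp) (F q) (by simp) e) hAn hAB]
      exact wind_step (hψS p hp) (hψS q hq) (hψF p) (hψF q) hAB (hh p hp q hq hpq)) hc
  have key2 : pair (th Φ) (om (mp F c)) =
      wind_lam (fun x => h x + Complex.arg (Φ (F x) / ψ x) / (2 * Real.pi)) (bd c) := key
  rw [key2, hbc, map_sub, wind_lam_single, wind_lam_single]

theorem wind {X : Type} [MetricSpace X] {M N : ℕ} [NeZero M] (F : X → Vx M N) (Φ : Vx M N → ℂ) {L : ℝ}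
    (hGL : ∀ l : List X, Msh L l → GdL (l.map F)) (ψ : X → ℂ) (hψF : ∀ x, ‖Φ (F x) - ψ x‖ < 1 / 64) (u : X → ℝ)
    (hu : ∀ x y, dist x y < L → |u x - u y| < 1 / 64) (hψ : ∀ x y, dist x y < L → ‖ψ x - ψ y‖ < 1 / 64)
    {Q Q' C C' : Set X} (hQ : IsPreconnected Q) (hQ' : IsPreconnected Q') (hC : IsPreconnected C) (hC' : IsPreconnected C')
    (h1 : (C ∩ Q).Nonempty) (h2 : (C ∩ Q').Nonempty) (h3 : (C' ∩ Q).Nonempty) (h4 : (C' ∩ Q').Nonempty)
    (huQ : ∀ x ∈ Q, u x = 0) (huQ' : ∀ x ∈ Q', u x = 1)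
    (hψC : ∀ x ∈ C, ψ x = Complex.exp ((Real.pi * u x : ℝ) * Complex.I))
    (hψC' : ∀ x ∈ C', ψ x = Complex.exp ((-(Real.pi * u x) : ℝ) * Complex.I))
    (hψQ : ∀ x ∈ Q, ψ x = 1) (hψQ' : ∀ x ∈ Q', ψ x = -1) {μ : ℝ} (hμ : 0 < μ) (hμL : μ ≤ L) :
    ∃ z ∈ SP (fun l : List X => l.length = 2 ∧ Msh μ l ∧ ∀ y ∈ l, y ∈ Q ∪ Q' ∪ C ∪ C'), bd z = 0 ∧
      pair (th Φ) (om (mp F z)) = 1 := by
  obtain ⟨q, hqC, hqQ⟩ := h1
  obtain ⟨q', hq'C, hq'Q⟩ := h2
  obtain ⟨r, hrC, hrQ⟩ := h3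
  obtain ⟨r', hr'C, hr'Q⟩ := h4
  obtain ⟨c₁, m1, b1, p1⟩ := wind_arc F Φ hGL ψ hψF hψ hC (fun x => u x / 2) (fun x _ y _ hxy => by
      have e := hu x y hxy
      have e2 : u x / 2 - u y / 2 = (u x - u y) / 2 := by ring
      rw [e2, abs_div, abs_of_pos (by norm_num : (0 : ℝ) < 2)]
      linarith) (fun x hx => by
      rw [hψC x hx]
      congr 3
      ring) hμ hμL hqC hq'C
  obtain ⟨c₂, m2, b2, p2⟩ := wind_arc F Φ hGL ψ hψF hψ hQ' (fun _ => 1 / 2) (fun x _ y _ _ => by norm_num)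
    (fun x hx => by
      rw [hψQ' x hx]
      have e : (2 * Real.pi * (1 / 2) : ℝ) = Real.pi := by ring
      rw [e, Complex.exp_pi_mul_I]) hμ hμL hq'Q hr'Q
  obtain ⟨c₃, m3, b3, p3⟩ := wind_arc F Φ hGL ψ hψF hψ hC' (fun x => -(u x / 2)) (fun x _ y _ hxy => by
      have e := hu x y hxy
      have e2 : -(u x / 2) - -(u y / 2) = -((u x - u y) / 2) := by ring
      rw [e2, abs_neg, abs_div, abs_of_pos (by norm_num : (0 : ℝ) < 2)]
      linarith) (fun x hx => by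
      rw [hψC' x hx]
      congr 3
      ring) hμ hμL hr'C hrC
  obtain ⟨c₄, m4, b4, p4⟩ := wind_arc F Φ hGL ψ hψF hψ hQ (fun _ => 0) (fun x _ y _ _ => by norm_num)
    (fun x hx => by
      rw [hψQ x hx]
      simp) hμ hμL hrQ hqQ
  refine ⟨c₁ + c₂ + c₃ + c₄, ?_, ?_, ?_⟩
  · refine Submodule.add_mem _ (Submodule.add_mem _ (Submodule.add_mem _ ?_ ?_) ?_) ?_
    · exact SP_mono (fun l hl => ⟨hl.1, hl.2.1, fun y hy => Or.inl (Or.inr (hl.2.2 y hy))⟩) m1
    · exact SP_mono (fun l hl => ⟨hl.1, hl.2.1, fun y hy => Or.inl (Or.inl (Or.inr (hl.2.2 y hy)))⟩) m2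
    · exact SP_mono (fun l hl => ⟨hl.1, hl.2.1, fun y hy => Or.inr (hl.2.2 y hy)⟩) m3
    · exact SP_mono (fun l hl => ⟨hl.1, hl.2.1, fun y hy => Or.inl (Or.inl (Or.inl (hl.2.2 y hy)))⟩) m4
  · rw [map_add, map_add, map_add, b1, b2, b3, b4]
    abel
  · have e : pair (th Φ) (om (mp F (c₁ + c₂ + c₃ + c₄))) = pair (th Φ) (om (mp F c₁)) + pair (th Φ) (om (mp F c₂)) +
        pair (th Φ) (om (mp F c₃)) + pair (th Φ) (om (mp F c₄)) := by
      rw [map_add (mp F), map_add (mp F), map_add (mp F), map_add om, map_add om, map_add om, map_add (pair (th Φ)),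
        map_add (pair (th Φ)), map_add (pair (th Φ))]
    rw [e, p1, p2, p3, p4, huQ q hqQ, huQ' q' hq'Q, huQ r hrQ, huQ' r' hr'Q]
    ring

end AGR
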