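import Pool.Agent.AGR.Ops
import Pool.Agent.AGR.Wind
import Pool.Agent.AGR.Fun
import Pool.Agent.AGR.Rec
import Pool.Agent.AGR.CovF
import Pool.Agent.AGR.Grp

/-!
# AGR/Hst: there is no annulus

PROOF PLAN.  Given `Q, Q', C, C'`; `A = Q ∪ Q' ∪ C ∪ C'`.  `Y` is normal: `u₀ : Y → [0, 1]` continuous, `0` on `f '' Q`, `1` on `f '' Q'`, and `s₀ : Y → [-1, 1]` continuous, `1` on `f '' C`, `-1` on `f '' C'` (`exists_continuous_zero_one_of_isClosed`; the images are compact, so closed;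
`s₀ = 1 - 2 *` the function for `f '' C`, `f '' C'`).  `φ y = cos (π u₀ y) + i s₀ y sin (π u₀ y)`.
`e₀ > 0` with `dist x y < e₀ → ‖φ (f x) - φ (f y)‖ < 1 / 512 ∧ |u₀ (f x) - u₀ (f y)| < 1 / 64` (uniform continuity).  `ρ = e₀ / (2 (k + 3))`, `t₁ = ρ`, `t₀ = t₁ + (k + 1) ρ < e₀`.
`ops k hv hρ`: `δ`.  `grp p k hk ι₀ hc hi` for `ε = min δ e₀`: `ι, K, χ, g`.  `covF` with `κ = 1 / 64`, `d = k + 2`: `M, N, F, π, Φ, lab, L₀`; `L = min L₀ e₀`.  `ops` for `L`: `κ'`; the last part of `grp` for `ε' = κ'`: `n`.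
Let `Γ = Multiplicative (Fin k → ℤ_[p])` act on `X` by `γ • x = ι γ • x` (`MulAction.compHom X ι`, as a local instance; `CommGroup Γ`); free: `ι γ • f x = f x`, so `ι γ = 1`, `γ = 1`.  `ops` gives `μ, P, R` with `Opr`, `a r x = ι (g r) • x`.
`funs` with `π r := π (g r)` (`(a 0)^[n] x = ι ((g 0) ^ n) • x`, so `F ((a 0)^[n] x) = π ((g 0) ^ n) (F x) = F x`); `hnear`: for `y ∈ l` there is `x ∈ A` with `dist y x < t₀ < e₀`, `‖φ (f x)‖ = 1` (the four cases), so `‖Φ (F y)‖ ≥ 1 - 1/512 - 1/64 ≥ 1 / 2`; mutual distances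
`≤ 2 / 64 + 1 / 512 ≤ 1 / 8`.
`VC X 2` for `η = μ k`: `μv`; `wind` with `ψ = φ ∘ f`, `u = u₀ ∘ f` and the mesh `min μv (min (μ k) L)`: `z`; `z = bd D`, `D ∈ Fi (μ k) 3`; `bd D = z ∈ Ne A (μ k) 2 t₁` (points of `A`, `dist x x = 0 < ρ`).
`recur`: `U 0 D = 0`, i.e. `(pair (w0 Φ) (om (mp F D)) : ZMod p) = 0`; `w0_pair`, `bd_mp`, `wind`: this integer is `1`.  `(1 : ZMod p) ≠ 0`.
-/

set_option autoImplicit false

namespace AGR

open AGV

private theorem hst_Msh_mono {X : Type} [PseudoMetricSpace X] {μ μ' : ℝ} (h : μ ≤ μ') {l : List X}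
    (hl : Msh μ l) : Msh μ' l :=
  fun x hx y hy => lt_of_lt_of_le (hl x hx y hy) h

private theorem hst_phi {X Y : Type} [TopologicalSpace X] [CompactSpace X] [TopologicalSpace Y] [CompactSpace Y]
    [T2Space Y] {f : X → Y} (hf : Continuous f) {Q Q' C C' : Set X} (hQ : IsClosed Q) (hQ' : IsClosed Q')
    (hC : IsClosed C) (hC' : IsClosed C') (h1 : Disjoint (f '' Q) (f '' Q')) (h2 : Disjoint (f '' C) (f '' C')) :
    ∃ (φ : Y → ℂ) (u : Y → ℝ), Continuous φ ∧ Continuous u ∧ (∀ x ∈ Q, u (f x) = 0) ∧ (∀ x ∈ Q', u (f x) = 1) ∧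
      (∀ x ∈ C, φ (f x) = Complex.exp ((Real.pi * u (f x) : ℝ) * Complex.I)) ∧
      (∀ x ∈ C', φ (f x) = Complex.exp ((-(Real.pi * u (f x)) : ℝ) * Complex.I)) ∧
      (∀ x ∈ Q, φ (f x) = 1) ∧ (∀ x ∈ Q', φ (f x) = -1) := by
  have cl : ∀ S : Set X, IsClosed S → IsClosed (f '' S) := fun S hS =>
    (hS.isCompact.image hf).isClosed
  obtain ⟨u, hu0, hu1, -⟩ := exists_continuous_zero_one_of_isClosed (cl Q hQ) (cl Q' hQ') h1
  obtain ⟨s, hs0, hs1, -⟩ := exists_continuous_zero_one_of_isClosed (cl C hC) (cl C' hC') h2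
  have hQu : ∀ x ∈ Q, u (f x) = 0 := fun x hx => hu0 (Set.mem_image_of_mem f hx)
  have hQ'u : ∀ x ∈ Q', u (f x) = 1 := fun x hx => hu1 (Set.mem_image_of_mem f hx)
  have hCs : ∀ x ∈ C, s (f x) = 0 := fun x hx => hs0 (Set.mem_image_of_mem f hx)
  have hC's : ∀ x ∈ C', s (f x) = 1 := fun x hx => hs1 (Set.mem_image_of_mem f hx)
  refine ⟨fun y => ((Real.cos (Real.pi * u y) : ℝ) : ℂ) +
      ((1 - 2 * s y : ℝ) : ℂ) * ((Real.sin (Real.pi * u y) : ℝ) : ℂ) * Complex.I, fun y => u y, ?_, u.continuous,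
      hQu, hQ'u, ?_, ?_, ?_, ?_⟩
  · fun_prop
  · intro x hx
    show ((Real.cos (Real.pi * u (f x)) : ℝ) : ℂ) +
      ((1 - 2 * s (f x) : ℝ) : ℂ) * ((Real.sin (Real.pi * u (f x)) : ℝ) : ℂ) * Complex.I = _
    rw [hCs x hx, Complex.exp_mul_I, ← Complex.ofReal_cos, ← Complex.ofReal_sin]
    norm_num
  · intro x hx
    show ((Real.cos (Real.pi * u (f x)) : ℝ) : ℂ) +
      ((1 - 2 * s (f x) : ℝ) : ℂ) * ((Real.sin (Real.pi * u (f x)) : ℝ) : ℂ) * Complex.I = _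
    rw [hC's x hx, Complex.exp_mul_I, ← Complex.ofReal_cos, ← Complex.ofReal_sin, Real.cos_neg, Real.sin_neg]
    push_cast
    ring
  · intro x hx
    show ((Real.cos (Real.pi * u (f x)) : ℝ) : ℂ) +
      ((1 - 2 * s (f x) : ℝ) : ℂ) * ((Real.sin (Real.pi * u (f x)) : ℝ) : ℂ) * Complex.I = _
    rw [hQu x hx, mul_zero, Real.cos_zero, Real.sin_zero]
    simp
  · intro x hx
    show ((Real.cos (Real.pi * u (f x)) : ℝ) : ℂ) +
      ((1 - 2 * s (f x) : ℝ) : ℂ) * ((Real.sin (Real.pi * u (f x)) : ℝ) : ℂ) * Complex.I = _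
    rw [hQ'u x hx, mul_one, Real.cos_pi, Real.sin_pi]
    simp

theorem no_ann {p : ℕ} [Fact p.Prime] {k : ℕ} (hk : 1 ≤ k) {G X Y : Type} [Group G] [TopologicalSpace G] [IsTopologicalGroup G]
    [CompactSpace G] [TotallyDisconnectedSpace G] [MetricSpace X] [CompactSpace X] [Nonempty X]
    [TopologicalSpace Y] [CompactSpace Y] [T2Space Y] [MulAction G X] [ContinuousSMul G X] [MulAction G Y] [ContinuousSMul G Y]
    (hiso : ∀ (g : G) (x y : X), dist (g • x) (g • y) = dist x y) (hVC : VC X 2)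
    (hv : ∀ j, 1 ≤ j → j ≤ k + 3 → VLC X j)
    (ι₀ : Multiplicative (Fin k → ℤ_[p]) →* G) (hc : Continuous ι₀) (hi : Function.Injective ι₀)
    (hfree : ∀ (g : G) (y : Y), g • y = y → g = 1)
    (hd : CovDimLE (MulAction.orbitRel.Quotient G Y) (k + 2)) {f : X → Y} (hf : Continuous f)
    (hfe : ∀ (g : G) (x : X), f (g • x) = g • f x) : NoAnn f := by
  intro Q Q' C C' hQ hQ' hC hC' hQp hQp' hCp hCp' n1 n2 n3 n4 hd1 hd2
  obtain ⟨φ, u, hφ, hu, huQ, huQ', hφC, hφC', hφQ, hφQ'⟩ := hst_phi hf hQ hQ' hC hC' hd1 hd2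
  -- the points of `A` have norm one
  have hA1 : ∀ x ∈ Q ∪ Q' ∪ C ∪ C', ‖φ (f x)‖ = 1 := by
    rintro x (((hx | hx) | hx) | hx)
    · rw [hφQ x hx, norm_one]
    · rw [hφQ' x hx, norm_neg, norm_one]
    · rw [hφC x hx, Complex.norm_exp_ofReal_mul_I]
    · rw [hφC' x hx, Complex.norm_exp_ofReal_mul_I]
  -- uniform continuity
  have hφf : UniformContinuous (fun x => φ (f x)) :=
    CompactSpace.uniformContinuous_of_continuous (hφ.comp hf)
  have huf : UniformContinuous (fun x => u (f x)) :=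
    CompactSpace.uniformContinuous_of_continuous (hu.comp hf)
  obtain ⟨e1, he1, he1'⟩ := Metric.uniformContinuous_iff.1 hφf (1 / 512) (by norm_num)
  obtain ⟨e2, he2, he2'⟩ := Metric.uniformContinuous_iff.1 huf (1 / 64) (by norm_num)
  obtain ⟨e₀, he₀⟩ : ∃ e₀ : ℝ, e₀ = min e1 e2 := ⟨_, rfl⟩
  have he₀p : 0 < e₀ := by rw [he₀]; exact lt_min he1 he2
  have hφe : ∀ x y : X, dist x y < e₀ → ‖φ (f x) - φ (f y)‖ < 1 / 512 := by
    intro x y hxy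
    have h := he1' (lt_of_lt_of_le hxy (by rw [he₀]; exact min_le_left _ _))
    rwa [dist_eq_norm] at h
  have hue : ∀ x y : X, dist x y < e₀ → |u (f x) - u (f y)| < 1 / 64 := by
    intro x y hxy
    have h := he2' (lt_of_lt_of_le hxy (by rw [he₀]; exact min_le_right _ _))
    rwa [Real.dist_eq] at h
  -- the constants
  obtain ⟨ρ, hρe⟩ : ∃ ρ : ℝ, ρ = e₀ / (2 * (k + 3)) := ⟨_, rfl⟩
  have hk3 : (0 : ℝ) < 2 * (k + 3) := by positivity
  have hρ : 0 < ρ := by rw [hρe]; positivity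
  have hρ2 : ρ * (2 * (k + 3)) = e₀ := by rw [hρe]; field_simp
  obtain ⟨t₀, ht₀⟩ : ∃ t₀ : ℝ, t₀ = ρ + (k + 1) * ρ := ⟨_, rfl⟩
  have ht₀e : t₀ < e₀ := by
    rw [ht₀, ← hρ2]
    have hkk : (0 : ℝ) ≤ k := Nat.cast_nonneg k
    nlinarith
  obtain ⟨δ, hδ, hops⟩ := ops (X := X) k hv hρ
  obtain ⟨ι, K, χ, g, hιi, hιd, hKn, hKo, hKd, hχ, hχK, hχg, hlast⟩ :=
    grp (X := X) p k hk ι₀ hc hi (lt_min hδ he₀p)
  have hK2 : ∀ h ∈ K, ∀ x : X, ‖φ (f (h • x)) - φ (f x)‖ < (1 / 64 : ℝ) / 8 := by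
    intro h hh x
    refine lt_of_lt_of_le (hφe _ _ (lt_of_lt_of_le (hKd h hh x) (min_le_right _ _))) (by norm_num)
  have hΓ2 : ∀ (γ : Multiplicative (Fin k → ℤ_[p])) (x : X), ‖φ (f (ι γ • x)) - φ (f x)‖ < (1 / 64 : ℝ) / 8 := by
    intro γ x
    refine lt_of_lt_of_le (hφe _ _ (lt_of_lt_of_le (hιd γ x) (min_le_right _ _))) (by norm_num)
  obtain ⟨M, N, hM, F, π, Φ, lab, L₀, hL₀, hOK, hπ2, hFπ, hπK, hΦ0, hΦπ, hΦφ, hlab⟩ :=
    covF hiso hfree hf hfe hd K hKn hKo φ hφ (by norm_num : (0 : ℝ) < 1 / 64) hK2 ι hΓ2 χ hχ hχK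
  haveI := hM
  obtain ⟨L, hLe⟩ : ∃ L : ℝ, L = min L₀ e₀ := ⟨_, rfl⟩
  have hL : 0 < L := by rw [hLe]; exact lt_min hL₀ he₀p
  have hLL₀ : L ≤ L₀ := by rw [hLe]; exact min_le_left _ _
  have hLe₀ : L ≤ e₀ := by rw [hLe]; exact min_le_right _ _
  obtain ⟨κ, hκ, hops2⟩ := hops L hL
  obtain ⟨n, hn, hnd, hnK⟩ := hlast κ hκ
  -- the action of `Γ`
  letI act : MulAction (Multiplicative (Fin k → ℤ_[p])) X := MulAction.compHom X ι
  have hact : ∀ (γ : Multiplicative (Fin k → ℤ_[p])) (x : X), γ • x = ι γ • x := fun _ _ => rfl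
  have hfr : ∀ (γ : Multiplicative (Fin k → ℤ_[p])) (x : X), γ • x = x → γ = 1 := by
    intro γ x h
    rw [hact] at h
    have h1 : ι γ • f x = f x := by rw [← hfe, h]
    have h2 := hfree _ _ h1
    exact hιi (by rw [h2, map_one])
  obtain ⟨μ, P, R, hO⟩ := hops2 (Multiplicative (Fin k → ℤ_[p])) (fun γ x y => hiso (ι γ) x y) hfr
    (fun γ x => lt_of_lt_of_le (hιd γ x) (min_le_left _ _)) g n hnd
  have hO' : Opr k ρ L (fun r x => ι (g r) • x) n μ P R := hO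
  have hit : ∀ (m : ℕ) (x : X), (fun y : X => ι (g 0) • y)^[m] x = ι ((g 0) ^ m) • x := by
    intro m
    induction m with
    | zero => intro x; rw [Function.iterate_zero, id, pow_zero, map_one, one_smul]
    | succ m ih =>
      intro x
      rw [Function.iterate_succ_apply, ih, ← mul_smul, ← map_mul, ← pow_succ]
  have hμL : ∀ r, μ r ≤ L := by
    intro r
    induction r with
    | zero => exact hO.μ_zero
    | succ r ih => exact (hO.μ_anti r).trans ih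
  -- the functionals
  have hnear : ∀ l : List X, Msh L l → Cl (Q ∪ Q' ∪ C ∪ C') t₀ l → Sml Φ (l.map F).toFinset := by
    intro l hl hcl
    constructor
    · intro v hv'
      rw [List.mem_toFinset, List.mem_map] at hv'
      obtain ⟨y, hy, rfl⟩ := hv'
      obtain ⟨x, hx, hyx⟩ := hcl y hy
      have h1 := hφe y x (hyx.trans ht₀e)
      have h2 := hΦφ y
      have h3 := hA1 x hx
      have h4 : ‖φ (f x)‖ ≤ ‖Φ (F y)‖ + ‖Φ (F y) - φ (f y)‖ + ‖φ (f y) - φ (f x)‖ := by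
        have h5 : φ (f x) = Φ (F y) - (Φ (F y) - φ (f y)) - (φ (f y) - φ (f x)) := by ring
        calc ‖φ (f x)‖ = ‖Φ (F y) - (Φ (F y) - φ (f y)) - (φ (f y) - φ (f x))‖ := by rw [← h5]
          _ ≤ ‖Φ (F y) - (Φ (F y) - φ (f y))‖ + ‖φ (f y) - φ (f x)‖ := norm_sub_le _ _
          _ ≤ _ := by
            have := norm_sub_le (Φ (F y)) (Φ (F y) - φ (f y))
            linarith
      rw [h3] at h4
      linarith
    · intro v hv' w hw'
      rw [List.mem_toFinset, List.mem_map] at hv' hw'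
      obtain ⟨y, hy, rfl⟩ := hv'
      obtain ⟨y', hy', rfl⟩ := hw'
      have h1 := hφe y y' (lt_of_lt_of_le (hl y hy y' hy') hLe₀)
      have h2 := hΦφ y
      have h3 := hΦφ y'
      have h5 : Φ (F y) - Φ (F y') = (Φ (F y) - φ (f y)) + (φ (f y) - φ (f y')) - (Φ (F y') - φ (f y')) := by ring
      calc ‖Φ (F y) - Φ (F y')‖
          = ‖(Φ (F y) - φ (f y)) + (φ (f y) - φ (f y')) - (Φ (F y') - φ (f y'))‖ := by rw [← h5]
        _ ≤ ‖(Φ (F y) - φ (f y)) + (φ (f y) - φ (f y'))‖ + ‖Φ (F y') - φ (f y')‖ := norm_sub_le _ _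
        _ ≤ ‖Φ (F y) - φ (f y)‖ + ‖φ (f y) - φ (f y')‖ + ‖Φ (F y') - φ (f y')‖ := by
            have := norm_add_le (Φ (F y) - φ (f y)) (φ (f y) - φ (f y'))
            linarith
        _ ≤ 1 / 8 := by linarith
  obtain ⟨U, U', V, hU, hU0⟩ := funs (k := k) (p := p) (L := L) (t₀ := t₀) (A := Q ∪ Q' ∪ C ∪ C')
    (fun r x => ι (g r) • x) n F (fun l hl => hOK l (hst_Msh_mono hLL₀ hl)) (fun r => π (g r))
    (fun r v => hπ2 (g r) v) (fun r x => hFπ (g r) x)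
    (fun x => by rw [hit n x, hFπ, hπK _ hnK]) Φ hΦ0 (fun r v => hΦπ (g r) v) lab
    (fun s r hs hr v => by rw [hlab, hχg s r hs hr]) hnear
  -- the cycle
  obtain ⟨μv, hμv, hVC2⟩ := hVC (μ k) (hO.μ_pos k)
  have hGL : ∀ l : List X, Msh L l → GdL (l.map F) := fun l hl => (hOK l (hst_Msh_mono hLL₀ hl)).1
  obtain ⟨z, hz, hbz, hpz⟩ := wind F Φ hGL (fun x => φ (f x)) hΦφ (fun x => u (f x))
    (fun x y h => hue x y (lt_of_lt_of_le h hLe₀))
    (fun x y h => (hφe x y (lt_of_lt_of_le h hLe₀)).trans (by norm_num))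
    hQp hQp' hCp hCp' n1 n2 n3 n4 huQ huQ' hφC hφC' hφQ hφQ'
    (lt_min hμv (lt_min (hO.μ_pos k) hL)) ((min_le_right _ _).trans (min_le_right _ _))
  obtain ⟨D, hD, hbD⟩ := hVC2 z (SP_mono (fun l hl => ⟨hl.1, hst_Msh_mono (min_le_left _ _) hl.2.1⟩) hz) hbz
  have hD2 : bd D ∈ Ne (Q ∪ Q' ∪ C ∪ C') (μ k) 2 ρ := by
    rw [hbD]
    refine SP_mono (fun l hl => ⟨hl.1, hst_Msh_mono ((min_le_right _ _).trans (min_le_left _ _)) hl.2.1, ?_⟩) hz
    intro y hy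
    exact ⟨y, hl.2.2 y hy, by rw [dist_self]; exact hρ⟩
  have h0 : U 0 D = 0 := recur hk hρ hn hO' hU (t₁ := ρ) (le_of_eq ht₀.symm) hD hD2
  have hG : mp F D ∈ SP (GdL (M := M) (N := N)) :=
    mp_mem F (fun l hl => hGL l (hst_Msh_mono (hμL k) hl.2)) hD
  have h1 := w0_pair Φ hΦ0 hG
  rw [bd_mp, hbD, hpz] at h1
  have h2 : pair (w0 Φ) (om (mp F D)) = 1 := by exact_mod_cast h1
  rw [hU0, h2, Int.cast_one] at h0
  exact one_ne_zero h0

end AGR
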