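import Pool.Agent.AGR.DefsD

/-!
# AGR/RecS: the recursion

PROOF PLAN.  `mp f` maps `FiD dq L j` to `Fi L j` and `NeD dq A L j t` to `Ne (f '' A) L j t` (`mp_mem`, `hf`), `mp f (mp (a r) z) = mp (b r) (mp f z)` and `mp f (pr id ((a 0)^[N]) z) = pr id ((b 0)^[N]) (mp f z)` (`mp_mp`, `mp_pr`, `pr_mp`; `f ∘ (a 0)^[t] = (b 0)^[t] ∘ f`).
`InN dq A μ 2 t₁ ≤ InD dq μ 2`.  Write `V z` etc. for the functional applied to `mp f z`.
(1) For `s < k`: `U (s+1) (P (range (s+1)) D) = (-1) ^ s * U s (P (range s) D)`: `u1`, `bd_mp`, `P_bd` for `S = range (s+1)`, `j = 3`; `U' s` of `P S (bd D)` is `0` (`P_mem`, `u4`, `2 + (s + 1) = s + 3`, `t₁ + ρ ≤ t₀`); `U' s (mp (a r) y - y) = if r = s then U s y else 0` (`u3`) for `y = P (S.erase r) D` (`3 + s` points); `S.erase s = range s`,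
`sn (range (s+1)) s = (-1) ^ s`.  So by induction `U k (P (range k) D) = ± U 0 D` (`P ∅ D = D`), i.e. `U 0 D = 0` as soon as `U k (P (range k) D) = 0`.
(2) `V (P (range k) D) = 0` in `ℤ`: `S = (range k).erase 0`, `insert 0 S = range k`, `S.card = k - 1`; apply `V ∘ mp f` to `R_bd` for `j = 3`: `V (bd (R S D)) = 0` (`v3`, `3 + (k - 1) + 2 = k + 4`), `V (mp ((b 0)^[t]) y) = V y` for `y = mp f (P (range k) D) ∈ Fi L (k + 3)` (`v1`, induction on `t`; `Fi L j` is invariant
under `mp (b 0)` by `hb`), the prism term vanishes by `v4`, `V (mp (a r) y - y) = 0` for `y = R (S.erase r) D` (`3 + (k - 2) + 2 = k + 3` points if `r ∈ S`; `v1`), `V (R S (bd D)) = 0` (`R_mem`, `v2`, `2 + (k - 1) + 2 = k + 3`).  So `N * V (P (range k) D) = 0`, `0 < N`.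
(3) `v5`: `U k (P (range k) D) = 0`.
-/

set_option autoImplicit false

namespace AGR

open AGV

private theorem recs_mp_Fi {X Y : Type} [MetricSpace Y] {dq : ℕ → X → X → ℝ} {f : X → Y}
    (hf : ∀ q x y, dist (f x) (f y) ≤ dq q x y) {L : ℝ} {j : ℕ} {z : Ch X} (hz : z ∈ FiD dq L j) : mp f z ∈ Fi L j := by
  refine mp_mem f (fun l hl => ⟨by rw [List.length_map]; exact hl.1, ?_⟩) hz
  intro x hx y hy
  obtain ⟨x', hx', rfl⟩ := List.mem_map.1 hx
  obtain ⟨y', hy', rfl⟩ := List.mem_map.1 hy
  exact (hf j x' y').trans_lt (hl.2 x' hx' y' hy')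

private theorem recs_mp_Ne {X Y : Type} [MetricSpace Y] {dq : ℕ → X → X → ℝ} {f : X → Y}
    (hf : ∀ q x y, dist (f x) (f y) ≤ dq q x y) {A : Set X} {L t t' : ℝ} (ht : t ≤ t') {j : ℕ} {z : Ch X}
    (hz : z ∈ NeD dq A L j t) : mp f z ∈ Ne (f '' A) L j t' := by
  refine mp_mem f (fun l hl => ⟨by rw [List.length_map]; exact hl.1, ?_, ?_⟩) hz
  · intro x hx y hy
    obtain ⟨x', hx', rfl⟩ := List.mem_map.1 hx
    obtain ⟨y', hy', rfl⟩ := List.mem_map.1 hy
    exact (hf j x' y').trans_lt (hl.2.1 x' hx' y' hy')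
  · intro y hy
    obtain ⟨y', hy', rfl⟩ := List.mem_map.1 hy
    obtain ⟨x, hx, hxy⟩ := hl.2.2 y' hy'
    exact ⟨f x, Set.mem_image_of_mem f hx, ((hf j y' x).trans_lt hxy).trans_le ht⟩

private theorem recs_mp_iso {Y : Type} [MetricSpace Y] {g : Y → Y} (hg : ∀ x y, dist (g x) (g y) = dist x y) {L : ℝ} {j : ℕ}
    {z : Ch Y} (hz : z ∈ Fi L j) : mp g z ∈ Fi L j := by
  refine mp_mem g (fun l hl => ⟨by rw [List.length_map]; exact hl.1, ?_⟩) hz
  intro x hx y hy
  obtain ⟨x', hx', rfl⟩ := List.mem_map.1 hx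
  obtain ⟨y', hy', rfl⟩ := List.mem_map.1 hy
  rw [hg]
  exact hl.2 x' hx' y' hy'

private theorem recs_mp_comm {X Y : Type} {f : X → Y} {g : X → X} {h : Y → Y} (hfg : ∀ x, f (g x) = h (f x)) (z : Ch X) :
    mp f (mp g z) = mp h (mp f z) := by
  rw [mp_mp, mp_mp]
  congr 1
  congr 1
  funext x
  exact hfg x

private theorem recs_pr_comm {X Y : Type} {f : X → Y} {g : X → X} {h : Y → Y} (hfg : ∀ x, f (g x) = h (f x)) (z : Ch X) :
    mp f (pr id g z) = pr id h (mp f z) := by
  rw [mp_pr, pr_mp]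
  congr 1
  congr 1
  funext x
  exact hfg x

private theorem recs_iter {X Y : Type} {f : X → Y} {g : X → X} {h : Y → Y} (hfg : ∀ x, f (g x) = h (f x)) (t : ℕ) :
    ∀ x, f (g^[t] x) = h^[t] (f x) := by
  have h1 : Function.Semiconj f g h := hfg
  exact fun x => (h1.iterate_right t) x

private theorem recs_InN {X : Type} {dq : ℕ → X → X → ℝ} {A : Set X} {μ t : ℝ} {j : ℕ} {z : Ch X} (hz : z ∈ InN dq A μ j t) :
    z ∈ InD dq μ j :=
  SP_mono (fun _ hl => ⟨hl.1, hl.2.1⟩) hz

private theorem recs_Fi_cast {Y : Type} [MetricSpace Y] {L : ℝ} {j j' : ℕ} (h : j = j') {z : Ch Y} (hz : z ∈ Fi L j) :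
    z ∈ Fi L j' := by
  rw [← h]
  exact hz

private theorem recs_Ne_cast {Y : Type} [MetricSpace Y] {A : Set Y} {L t : ℝ} {j j' : ℕ} (h : j = j') {z : Ch Y}
    (hz : z ∈ Ne A L j t) : z ∈ Ne A L j' t := by
  rw [← h]
  exact hz

private theorem recs_sn (s : ℕ) : sn (Finset.range (s + 1)) s = (-1) ^ s := by
  unfold sn
  have h1 : (Finset.range (s + 1)).filter (· < s) = Finset.range s := by
    ext x
    simp only [Finset.mem_filter, Finset.mem_range]
    omega
  rw [h1, Finset.card_range]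

private theorem recs_erase (s : ℕ) : (Finset.range (s + 1)).erase s = Finset.range s := by
  ext x
  simp only [Finset.mem_erase, Finset.mem_range]
  omega

theorem recS {X Y : Type} [MetricSpace Y] {dq : ℕ → X → X → ℝ} {f : X → Y} (hf : ∀ q x y, dist (f x) (f y) ≤ dq q x y)
    {k p : ℕ} (hk : 1 ≤ k) {ρ L μ t₀ t₁ : ℝ} {a : ℕ → X → X} {b : ℕ → Y → Y} (hfa : ∀ r x, f (a r x) = b r (f x))
    (hb : ∀ r x y, dist (b r x) (b r y) = dist x y) {A : Set X} {N : ℕ} (hN : 0 < N) {P R : Finset ℕ → Ch X →ₗ[ℤ] Ch X}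
    (hO : Sy dq k ρ L μ a N P R) {U U' : ℕ → Ch Y →ₗ[ℤ] ZMod p} {V : Ch Y →ₗ[ℤ] ℤ} (hU : Fnl k p L t₀ (f '' A) b N U U' V)
    (ht : t₁ + ρ ≤ t₀) {D : Ch X} (hD : D ∈ InD dq μ 3) (hD2 : bd D ∈ InN dq A μ 2 t₁) : U 0 (mp f D) = 0 := by
  -- the functionals on the chains of order `s`
  have hPf : ∀ S ⊆ Finset.range k, mp f (P S D) ∈ Fi L (3 + S.card) := fun S hS =>
    recs_mp_Fi hf (hO.P_fin S hS 3 (by omega) (by omega) D hD)
  have hstep : ∀ s, s + 1 ≤ k → U (s + 1) (mp f (P (Finset.range (s + 1)) D)) =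
      (-1 : ℤ) ^ s • U s (mp f (P (Finset.range s) D)) := by
    intro s hs
    have hS : Finset.range (s + 1) ⊆ Finset.range k := Finset.range_subset_range.2 hs
    have h0 := hPf _ hS
    rw [Finset.card_range] at h0
    rw [hU.u1 s (by omega) _ (recs_Fi_cast (by omega) h0), bd_mp, hO.P_bd _ hS 3 (by omega) (by omega) D hD, map_add,
      map_add, map_smul, map_smul, map_sum, map_sum]
    have h1 : U' s (mp f (P (Finset.range (s + 1)) (bd D))) = 0 := by
      refine hU.u4 s (by omega) _ (recs_Ne_cast ?_ (recs_mp_Ne hf ht (hO.P_mem _ hS 2 A t₁ (by omega) (by omega) _ hD2)))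
      rw [Finset.card_range]
      omega
    rw [h1, smul_zero, add_zero]
    have h2 : ∀ r ∈ Finset.range (s + 1), U' s (mp f (sn (Finset.range (s + 1)) r •
        (mp (a r) (P ((Finset.range (s + 1)).erase r) D) - P ((Finset.range (s + 1)).erase r) D))) =
        sn (Finset.range (s + 1)) r • (if r = s then U s (mp f (P ((Finset.range (s + 1)).erase r) D)) else 0) := by
      intro r hr
      have hr' := Finset.mem_range.1 hr
      have hE : (Finset.range (s + 1)).erase r ⊆ Finset.range k := (Finset.erase_subset _ _).trans hS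
      have hc : 3 + ((Finset.range (s + 1)).erase r).card = s + 3 := by
        rw [Finset.card_erase_of_mem hr, Finset.card_range]
        omega
      rw [map_smul, map_smul, map_sub, map_sub, recs_mp_comm (hfa r),
        hU.u3 s r (by omega) (by omega) _ (recs_Fi_cast hc (hPf _ hE)), add_sub_cancel_left]
    rw [Finset.sum_congr rfl h2, Finset.sum_eq_single s]
    · rw [if_pos rfl, recs_sn, recs_erase]
    · intro r _ hrs
      rw [if_neg hrs, smul_zero]
    · intro h
      exact absurd (Finset.mem_range.2 (Nat.lt_succ_self s)) h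
  have hall : ∀ s, s ≤ k → U 0 (mp f D) = 0 ∨ U s (mp f (P (Finset.range s) D)) ≠ 0 := by
    intro s
    induction s with
    | zero =>
      intro _
      by_cases h : U 0 (mp f D) = 0
      · exact Or.inl h
      · right
        rw [Finset.range_zero, hO.P_empty]
        exact h
    | succ s ih =>
      intro hs
      rcases ih (by omega) with h | h
      · exact Or.inl h
      · right
        rw [hstep s hs]
        rcases neg_one_pow_eq_or ℤ s with h1 | h1
        · rw [h1, one_smul]; exact h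
        · rw [h1, neg_smul, one_smul]; exact neg_ne_zero.2 h
  rcases hall k le_rfl with h | h
  · exact h
  exfalso
  apply h
  have hW := hPf _ (Finset.Subset.refl (Finset.range k))
  rw [Finset.card_range] at hW
  have hW' : mp f (P (Finset.range k) D) ∈ Fi L (k + 3) := recs_Fi_cast (by omega) hW
  rw [← hU.v5 _ hW']
  have hV : V (mp f (P (Finset.range k) D)) = 0 := by
    -- the orbit sum
    have h1 : ∀ t : ℕ, mp ((b 0)^[t]) (mp f (P (Finset.range k) D)) ∈ Fi L (k + 3) ∧
        V (mp ((b 0)^[t]) (mp f (P (Finset.range k) D))) = V (mp f (P (Finset.range k) D)) := by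
      intro t
      induction t with
      | zero => rw [Function.iterate_zero, mp_id]; exact ⟨hW', rfl⟩
      | succ t ih =>
        have h2 : mp ((b 0)^[t + 1]) (mp f (P (Finset.range k) D)) =
            mp (b 0) (mp ((b 0)^[t]) (mp f (P (Finset.range k) D))) := by
          rw [Function.iterate_succ', ← mp_mp]
        rw [h2]
        exact ⟨recs_mp_iso (hb 0) ih.1, by rw [hU.v1 0 (by omega) _ ih.1, ih.2]⟩
    have h0k : 0 ∈ Finset.range k := Finset.mem_range.2 (by omega)
    have hS : (Finset.range k).erase 0 ⊆ Finset.range k := Finset.erase_subset _ _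
    have h0S : 0 ∉ (Finset.range k).erase 0 := Finset.notMem_erase _ _
    have hins : insert 0 ((Finset.range k).erase 0) = Finset.range k := Finset.insert_erase h0k
    have hcard : ((Finset.range k).erase 0).card = k - 1 := by
      rw [Finset.card_erase_of_mem h0k, Finset.card_range]
    have h3 := hO.R_bd _ hS h0S 3 (by omega) (by omega) D hD
    rw [hins] at h3
    have h4 := congrArg (fun z => V (mp f z)) h3
    have hL1 : V (mp f (bd (R ((Finset.range k).erase 0) D))) = 0 := by
      rw [← bd_mp]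
      refine hU.v3 _ (recs_Fi_cast ?_ (recs_mp_Fi hf (hO.R_fin _ hS h0S 3 (by omega) (by omega) D hD)))
      rw [hcard]
      omega
    have hT1 : V (mp f (∑ t ∈ Finset.range N, mp ((a 0)^[t]) (P (Finset.range k) D))) =
        N * V (mp f (P (Finset.range k) D)) := by
      rw [map_sum, map_sum]
      have h5 : ∀ t ∈ Finset.range N, V (mp f (mp ((a 0)^[t]) (P (Finset.range k) D))) =
          V (mp f (P (Finset.range k) D)) := by
        intro t _
        rw [recs_mp_comm (recs_iter (hfa 0) t)]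
        exact (h1 t).2
      rw [Finset.sum_congr rfl h5]
      simp
    have hT2 : V (mp f (pr id ((a 0)^[N]) (P ((Finset.range k).erase 0) D))) = 0 := by
      rw [recs_pr_comm (recs_iter (hfa 0) N)]
      exact hU.v4 _
    have hT3 : V (mp f (∑ r ∈ (Finset.range k).erase 0, sn ((Finset.range k).erase 0) r •
        (mp (a r) (R (((Finset.range k).erase 0).erase r) D) - R (((Finset.range k).erase 0).erase r) D))) = 0 := by
      rw [map_sum, map_sum]
      refine Finset.sum_eq_zero fun r hr => ?_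
      have hrk := Finset.mem_range.1 (hS hr)
      have hE : ((Finset.range k).erase 0).erase r ⊆ Finset.range k := (Finset.erase_subset _ _).trans hS
      have hE0 : 0 ∉ ((Finset.range k).erase 0).erase r := fun h6 => h0S (Finset.mem_of_mem_erase h6)
      have hr0 : r ≠ 0 := Finset.ne_of_mem_erase hr
      have hc : 3 + (((Finset.range k).erase 0).erase r).card + 2 = k + 3 := by
        rw [Finset.card_erase_of_mem hr, hcard]
        omega
      rw [map_smul, map_smul, map_sub, map_sub, recs_mp_comm (hfa r), hU.v1 r hrk _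
        (recs_Fi_cast hc (recs_mp_Fi hf (hO.R_fin _ hE hE0 3 (by omega) (by omega) D hD))), sub_self, smul_zero]
    have hT4 : V (mp f ((-1 : ℤ) ^ ((Finset.range k).erase 0).card • R ((Finset.range k).erase 0) (bd D))) = 0 := by
      rw [map_smul, map_smul]
      have h6 : V (mp f (R ((Finset.range k).erase 0) (bd D))) = 0 := by
        refine hU.v2 _ (recs_Ne_cast ?_ (recs_mp_Ne hf ht (hO.R_mem _ hS h0S 2 A t₁ (by omega) (by omega) _ hD2)))
        rw [hcard]
        omega
      rw [h6, smul_zero]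
    rw [hL1, map_add, map_add, hT4, map_add, map_add, hT3, map_sub, map_sub, hT1, hT2, sub_zero, add_zero, add_zero] at h4
    have hn' : (N : ℤ) ≠ 0 := by exact_mod_cast hN.ne'
    rcases mul_eq_zero.1 h4.symm with h | h
    · exact absurd h hn'
    · exact h
  rw [hV]
  simp

end AGR
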