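import Pool.Agent.AGR.OrdL

/-!
# AGR/VHigh: `VLD (dqf f n) q` for all `q`

PROOF PLAN.  `dqf_DQ`: cases (`q + 1 ≤ n + 2`, `q ≤ n + 2`; `dist ≤ max`).  `dqf_le`: `dist (f x) (f y) ≤ dqf f n q x y`.
`vld_low` (`q ≤ n + 1`, so both `dq q` and `dq (q + 1)` are the maximum metric): given `ε` take `ε₁ ≤ ε` with `dist x y < ε₁ → dist (f x) (f y) < ε`, `δ` from `VLC X q` for `ε₁`; given `η` take `η₁ ≤ η` with `dist x y < η₁ → dist (f x) (f y) < η`,
`μ` from VLC for `η₁` (`SP_mono`).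
`vld_high` (`q ≥ n + 2`): `dq (q + 1) x y = dist (f x) (f y)`, `dist (f x) (f y) ≤ dq q x y`.  Given `ε`: `δ = ε / 2`.  Given `η`: `r = min (η / 3) (ε / 2)` (positive).  Finite open cover of `Y` by balls of radius `r / 2` (compactness), `CovDimLE Y n` gives a finite refinement `W : J → Set Y`,
`J ≃ Fin N`, at most `n + 1` of them contain a point (`Set.ncard`), all distances in `W j` are `< r`.  Lebesgue number `L₀` of `W` (`lebesgue_number_lemma_of_metric`): for `x : X` choose `F x : Fin N` with `ball (f x) L₀ ⊆ W (F x)`.  `μ = min L₀ (η / 3)`.  Choose `s : Fin N → X` with `f (s j) ∈ W j` whenever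
there is a point `x` with `f x ∈ W j` (if `X` is empty there is nothing to do).  So `dist (f (s j)) (f y) < r` whenever `f y ∈ W j`.
Given `x` and the cycle `z`: `𝒦 = {S | S = ∅ ∨ ∃ y, dist (f y) (f x) < δ ∧ ∀ j ∈ S, f y ∈ W j}` (subsets; `card ≤ n + 1` as `S ⊆ {j | f y ∈ W j}`).  For a list `l` of `z` (`q ≥ 1` points; `y` its head) `(l.map F).toFinset ∈ 𝒦` since `dist (f y) (f u) < μ ≤ L₀` for `u ∈ l`.  `mp F z` is a cycle (`bd_mp`); `ordL`: `mp F z = bd w'`.
`w = mp s w' - pr id (s ∘ F) z`: `bd w = mp s (mp F z) - (mp (s ∘ F) z - mp id z - pr (bd z)) = z` (`bd_pr`, `mp_mp`, `mp_id`).  Members: for `S ∈ 𝒦` with `y` as above and `i, j ∈ S`: `dist (f (s i)) (f (s j)) < 2 r ≤ η`, `dist (f (s i)) (f x) < r + δ ≤ ε`; the lists of the prism of `l` have the points `u` and `s (F u)`, `u ∈ l`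
(`pr_mem`, `prL_mem`), `dist (f (s (F u))) (f u) < r`, so their distances are `< μ + 2 r ≤ η` and they are within `r + δ ≤ ε` of `x`.
-/

set_option autoImplicit false

namespace AGR

open AGV

theorem dqf_le {X Y : Type} [PseudoMetricSpace X] [PseudoMetricSpace Y] (f : X → Y) (n q : ℕ) (x y : X) :
    dist (f x) (f y) ≤ dqf f n q x y := by
  unfold dqf
  split_ifs
  · exact le_max_right _ _
  · exact le_rfl

theorem dqf_DQ {X Y : Type} [PseudoMetricSpace X] [PseudoMetricSpace Y] (f : X → Y) (n : ℕ) : DQ (dqf f n) := by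
  refine ⟨fun q x => ?_, fun q x y => ?_, fun q x y z => ?_, fun q x y => ?_⟩
  · unfold dqf
    split_ifs
    · rw [dist_self, dist_self, max_self]
    · exact dist_self _
  · unfold dqf
    rw [dist_comm x y, dist_comm (f x) (f y)]
  · unfold dqf
    split_ifs
    · refine max_le ?_ ?_
      · exact (dist_triangle x y z).trans (add_le_add (le_max_left _ _) (le_max_left _ _))
      · exact (dist_triangle (f x) (f y) (f z)).trans (add_le_add (le_max_right _ _) (le_max_right _ _))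
    · exact dist_triangle _ _ _
  · by_cases h : q + 1 ≤ n + 2
    · have h' : q ≤ n + 2 := by omega
      unfold dqf
      rw [if_pos h, if_pos h']
    · have e : dqf f n (q + 1) x y = dist (f x) (f y) := by
        unfold dqf
        rw [if_neg h]
      rw [e]
      exact dqf_le f n q x y

theorem vld_low {X Y : Type} [PseudoMetricSpace X] [PseudoMetricSpace Y] {f : X → Y} (hf : UniformContinuous f) {n q : ℕ}
    (hq : q ≤ n + 1) (h : VLC X q) : VLD (dqf f n) q := by
  have e1 : ∀ x y, dqf f n q x y = max (dist x y) (dist (f x) (f y)) := by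
    intro x y
    unfold dqf
    rw [if_pos (by omega)]
  have e2 : ∀ x y, dqf f n (q + 1) x y = max (dist x y) (dist (f x) (f y)) := by
    intro x y
    unfold dqf
    rw [if_pos (by omega)]
  rw [Metric.uniformContinuous_iff] at hf
  intro ε hε
  obtain ⟨ε₁, hε₁, hfε⟩ := hf ε hε
  obtain ⟨δ, hδ, hV⟩ := h (min ε₁ ε) (lt_min hε₁ hε)
  refine ⟨δ, hδ, fun η hη => ?_⟩
  obtain ⟨η₁, hη₁, hfη⟩ := hf η hη
  obtain ⟨μ, hμ, hW⟩ := hV (min η₁ η) (lt_min hη₁ hη)
  refine ⟨μ, hμ, fun x z hz hb => ?_⟩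
  have hz' : z ∈ SP (fun l : List X => l.length = q ∧ Msh μ l ∧ ∀ y ∈ l, dist y x < δ) := by
    refine SP_mono (fun l hl => ⟨hl.1, fun a ha b hb => ?_, fun y hy => ?_⟩) hz
    · have h1 := hl.2.1 a ha b hb
      rw [e1] at h1
      exact lt_of_le_of_lt (le_max_left _ _) h1
    · have h1 := hl.2.2 y hy
      rw [e1] at h1
      exact lt_of_le_of_lt (le_max_left _ _) h1
  obtain ⟨w, hw, hwz⟩ := hW x z hz' hb
  refine ⟨w, SP_mono (fun l hl => ⟨hl.1, fun a ha b hb => ?_, fun y hy => ?_⟩) hw, hwz⟩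
  · rw [e2]
    have h1 := hl.2.1 a ha b hb
    exact max_lt (lt_of_lt_of_le h1 (min_le_right _ _)) (hfη (lt_of_lt_of_le h1 (min_le_left _ _)))
  · rw [e2]
    have h1 := hl.2.2 y hy
    exact max_lt (lt_of_lt_of_le h1 (min_le_right _ _)) (hfε (lt_of_lt_of_le h1 (min_le_left _ _)))

/-- a finite cover by small sets, at most `n + 1` of them contain a point, with a Lebesgue number -/
private theorem vhigh_cover {Y : Type} [MetricSpace Y] [CompactSpace Y] {n : ℕ} (h : CovDimLE Y n) {r : ℝ} (hr : 0 < r) :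
    ∃ (N : ℕ) (W : Fin N → Set Y) (L₀ : ℝ), 0 < L₀ ∧ (∀ y, ∃ j, Metric.ball y L₀ ⊆ W j) ∧
      (∀ j, ∀ a ∈ W j, ∀ b ∈ W j, dist a b < r) ∧ ∀ b, {j | b ∈ W j}.ncard ≤ n + 1 := by
  obtain ⟨t, -, ht, hcov⟩ := (isCompact_univ (X := Y)).finite_cover_balls (half_pos hr)
  have hfin : Finite t := ht
  obtain ⟨J, hJ, W, hWo, hWc, hWr, hWn⟩ := h t hfin (fun y => Metric.ball (y : Y) (r / 2))
    (fun y => Metric.isOpen_ball) (by
      rw [Set.eq_univ_iff_forall]
      intro y
      have h1 := hcov (Set.mem_univ y)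
      rw [Set.mem_iUnion₂] at h1
      obtain ⟨c, hc, hy⟩ := h1
      exact Set.mem_iUnion.2 ⟨⟨c, hc⟩, hy⟩)
  obtain ⟨N, ⟨e⟩⟩ := Finite.exists_equiv_fin J
  obtain ⟨L₀, hL₀, hL⟩ := lebesgue_number_lemma_of_metric (isCompact_univ (X := Y))
    (c := fun j => W (e.symm j)) (fun j => hWo _) (by
      intro y _
      have h1 : y ∈ ⋃ j, W j := by
        rw [hWc]
        exact Set.mem_univ y
      obtain ⟨j, hj⟩ := Set.mem_iUnion.1 h1
      refine Set.mem_iUnion.2 ⟨e j, ?_⟩
      show y ∈ W (e.symm (e j))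
      rw [Equiv.symm_apply_apply]
      exact hj)
  refine ⟨N, fun j => W (e.symm j), L₀, hL₀, fun y => hL y (Set.mem_univ y), fun j a ha b hb => ?_, fun b => ?_⟩
  · obtain ⟨i, hi⟩ := hWr (e.symm j)
    have h1 := hi ha
    have h2 := hi hb
    rw [Metric.mem_ball] at h1 h2
    have h3 := dist_triangle_right a b (i : Y)
    linarith
  · have h1 : {j : Fin N | b ∈ W (e.symm j)} = e '' {j | b ∈ W j} := by
      ext j
      constructor
      · intro hj
        exact ⟨e.symm j, hj, Equiv.apply_symm_apply e j⟩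
      · rintro ⟨i, hi, rfl⟩
        show b ∈ W (e.symm (e i))
        rw [Equiv.symm_apply_apply]
        exact hi
    rw [h1, Set.ncard_image_of_injective _ e.injective]
    exact hWn b

theorem vld_high {X Y : Type} [PseudoMetricSpace X] [MetricSpace Y] [CompactSpace Y] (f : X → Y) {n q : ℕ}
    (hq : n + 2 ≤ q) (h : CovDimLE Y n) : VLD (dqf f n) q := by
  classical
  have e2 : ∀ x y, dqf f n (q + 1) x y = dist (f x) (f y) := by
    intro x y
    unfold dqf
    rw [if_neg (by omega)]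
  intro ε hε
  refine ⟨ε / 2, by linarith, fun η hη => ?_⟩
  have hr : 0 < min (η / 3) (ε / 2) := lt_min (by linarith) (by linarith)
  have hr1 : min (η / 3) (ε / 2) ≤ η / 3 := min_le_left _ _
  have hr2 : min (η / 3) (ε / 2) ≤ ε / 2 := min_le_right _ _
  obtain ⟨N, W, L₀, hL₀, hL, hWr, hWn⟩ := vhigh_cover h hr
  generalize min (η / 3) (ε / 2) = r at hr hr1 hr2 hWr
  choose F' hF' using hL
  obtain ⟨F, hF⟩ : ∃ F : X → Fin N, ∀ x, Metric.ball (f x) L₀ ⊆ W (F x) := ⟨fun x => F' (f x), fun x => hF' (f x)⟩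
  refine ⟨min L₀ (η / 3), lt_min hL₀ (by linarith), fun x z hz hb => ?_⟩
  have hμ1 : min L₀ (η / 3) ≤ L₀ := min_le_left _ _
  have hμ2 : min L₀ (η / 3) ≤ η / 3 := min_le_right _ _
  obtain ⟨s, hs⟩ : ∃ s : Fin N → X, ∀ j y, f y ∈ W j → dist (f (s j)) (f y) < r := by
    refine ⟨fun j => if h : ∃ x', f x' ∈ W j then h.choose else x, fun j y hy => ?_⟩
    have h1 : ∃ x', f x' ∈ W j := ⟨y, hy⟩
    show dist (f (if h : ∃ x', f x' ∈ W j then h.choose else x)) (f y) < r
    rw [dif_pos h1]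
    exact hWr j _ h1.choose_spec _ hy
  have hFW : ∀ u y, dist (f y) (f u) < L₀ → f y ∈ W (F u) := fun u y hd => hF u (Metric.mem_ball.2 hd)
  have hsF : ∀ u, dist (f (s (F u))) (f u) < r := fun u => hs _ _ (hFW u u (by rw [dist_self]; exact hL₀))
  set 𝒦 : Set (Finset (Fin N)) := {S | S = ∅ ∨ ∃ y : X, dist (f y) (f x) < ε / 2 ∧ ∀ j ∈ S, f y ∈ W j} with h𝒦
  have hdown : ∀ S ∈ 𝒦, ∀ T, T ⊆ S → T ∈ 𝒦 := by
    intro S hS T hT
    rcases hS with hS | ⟨y, hy, hyS⟩
    · left
      rw [hS] at hT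
      exact Finset.subset_empty.1 hT
    · exact Or.inr ⟨y, hy, fun j hj => hyS j (hT hj)⟩
  have hcard : ∀ S ∈ 𝒦, S.card ≤ n + 1 := by
    intro S hS
    rcases hS with hS | ⟨y, hy, hyS⟩
    · rw [hS, Finset.card_empty]
      omega
    · rw [← Set.ncard_coe_finset S]
      exact (Set.ncard_le_ncard (fun j hj => hyS j hj) (Set.toFinite _)).trans (hWn (f y))
  have hz1 : mp F z ∈ SP (fun l : List (Fin N) => l.length = q ∧ l.toFinset ∈ 𝒦) := by
    refine mp_mem F (fun l hl => ⟨by rw [List.length_map]; exact hl.1, ?_⟩) hz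
    have hpos : 0 < l.length := by rw [hl.1]; omega
    obtain ⟨y, hy⟩ := List.exists_mem_of_length_pos hpos
    refine Or.inr ⟨y, lt_of_le_of_lt (dqf_le f n q y x) (hl.2.2 y hy), fun j hj => ?_⟩
    rw [List.mem_toFinset] at hj
    obtain ⟨u, hu, rfl⟩ := List.mem_map.1 hj
    exact hFW u y (lt_of_lt_of_le (lt_of_le_of_lt (dqf_le f n q y u) (hl.2.1 y hy u hu)) hμ1)
  have hb1 : bd (mp F z) = 0 := by rw [bd_mp, hb, map_zero]
  obtain ⟨w', hw', hwb⟩ := ordL hq 𝒦 hdown hcard hz1 hb1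
  refine ⟨mp s w' - pr id (s ∘ F) z, Submodule.sub_mem _ ?_ ?_, ?_⟩
  · refine mp_mem s (fun l hl => ?_) hw'
    have hne : l ≠ [] := by
      intro h0
      have h1 := hl.1
      rw [h0, List.length_nil] at h1
      omega
    have hSne : l.toFinset ≠ ∅ := by
      intro h0
      exact hne ((List.toFinset_eq_empty_iff l).1 h0)
    obtain ⟨y, hy, hyS⟩ := hl.2.resolve_left hSne
    have hsy : ∀ j ∈ l, dist (f (s j)) (f y) < r := fun j hj => hs j y (hyS j (List.mem_toFinset.2 hj))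
    refine ⟨by rw [List.length_map]; exact hl.1, fun a ha b hb => ?_, fun a ha => ?_⟩
    · obtain ⟨i, hi, rfl⟩ := List.mem_map.1 ha
      obtain ⟨j, hj, rfl⟩ := List.mem_map.1 hb
      rw [e2]
      have h1 := hsy i hi
      have h2 := hsy j hj
      have h3 := dist_triangle_right (f (s i)) (f (s j)) (f y)
      linarith
    · obtain ⟨i, hi, rfl⟩ := List.mem_map.1 ha
      rw [e2]
      have h1 := hsy i hi
      have h3 := dist_triangle (f (s i)) (f y) (f x)
      linarith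
  · refine pr_mem id (s ∘ F) (fun l hl l' hl' hall => ?_) hz
    have hnear : ∀ y ∈ l', ∃ u ∈ l, dist (f y) (f u) < r := by
      intro y hy
      obtain ⟨u, hu, h1 | h1⟩ := hall y hy
      · refine ⟨u, hu, ?_⟩
        rw [h1, id, dist_self]
        exact hr
      · refine ⟨u, hu, ?_⟩
        rw [h1]
        exact hsF u
    refine ⟨by rw [hl', hl.1], fun a ha b hb => ?_, fun a ha => ?_⟩
    · obtain ⟨u, hu, h1⟩ := hnear a ha
      obtain ⟨v, hv, h2⟩ := hnear b hb
      rw [e2]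
      have h3 := lt_of_le_of_lt (dqf_le f n q u v) (hl.2.1 u hu v hv)
      have h4 := dist_triangle (f a) (f u) (f b)
      have h5 := dist_triangle (f u) (f v) (f b)
      rw [dist_comm (f v) (f b)] at h5
      linarith
    · obtain ⟨u, hu, h1⟩ := hnear a ha
      rw [e2]
      have h3 := lt_of_le_of_lt (dqf_le f n q u x) (hl.2.2 u hu)
      have h4 := dist_triangle (f a) (f u) (f x)
      linarith
  · have h1 := bd_pr (id : X → X) (s ∘ F) z
    rw [hb, map_zero, add_zero, mp_id] at h1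
    rw [map_sub, bd_mp, hwb, mp_mp, h1]
    abel

theorem vld_all {X Y : Type} [PseudoMetricSpace X] [MetricSpace Y] [CompactSpace Y] {f : X → Y} (hf : UniformContinuous f)
    {n : ℕ} (hv : ∀ j, 1 ≤ j → j ≤ n + 1 → VLC X j) (h : CovDimLE Y n) (q : ℕ) (hq : 1 ≤ q) : VLD (dqf f n) q := by
  rcases Nat.lt_or_ge q (n + 2) with h1 | h1
  · exact vld_low hf (by omega) (hv q hq (by omega))
  · exact vld_high f h1 h

end AGR
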