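import Pool.Agent.AGR.OpsS
import Pool.Agent.AGR.RecS
import Pool.Agent.AGR.VHigh
import Pool.Agent.AGR.Wind
import Pool.Agent.AGR.Fun
import Pool.Agent.AGR.CovF
import Pool.Agent.AGR.Grp

/-!
# AGR/HstS: there is no annulus (second version)

PROOF PLAN.  Adapt the proof of `no_ann` in AGR/Hst.lean (landed; copy its private lemmas).  Changes: the cover, the vertex map and the functionals live on `Y`.
`φ, u : Y → …` as there (`hst_phi`).  `e₀ > 0` with `dist y y' < e₀ → ‖φ y - φ y'‖ < 1 / 512 ∧ |u y - u y'| < 1 / 64` for `y, y' : Y` (uniform continuity on `Y`).  `ρ = e₀ / 4`, `t₁ = ρ`, `t₀ = 2 ρ`.  `dq = dqf f n`: `dqf_DQ`, `dqf_le`, `vld_all` (`f` is uniformly continuous, `X` compact).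
`opsS (dqf_DQ f n) hk (fun q h _ => vld_all … q h) hρ`: `δ`.  `grp` for the space `X × Y` (compact metric, `ContinuousSMul G (X × Y)`, `dist (x, y) (x', y') = max …`), `ε = min δ e₀`: `ι, K, χ, g`: displacements of `ι γ`, `K` are `< ε` on `X` and on `Y` (if `X`, `Y` are nonempty: `f x` gives a point of `Y`; use the pair with a fixed point of the other space).
`dqf f n 0 (γ • x) x = max (dist (γ • x) x) (dist (γ • f x) (f x)) < δ`.  `covF` for `X := Y`, `f := id` (`hiso := hisoY`, `hfe` trivial), `κ = 1 / 64`, `d = k + 2`: `M, N, F, π, Φ, lab, L₀`, `F : Y → Vx M N`.  `L = min L₀ e₀`.  `opsS` for `L`: `κ'`; last part of `grp` for `ε' = κ'`: `n'`.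
`Γ` acts on `X` by `MulAction.compHom X ι`; invariance of `dqf f n q` (`hiso`, `hisoY`, `hfe`); free (`f`).  `opsS` gives `μ, P, R`, `Sy`.
`funs` for `X := Y`, `a := fun r y => ι (g r) • y`, `A := f '' (Q ∪ Q' ∪ C ∪ C')`, `n := n'`: `U, U', V`, `Fnl`, `hnear` as there (points of `A` have `‖φ‖ = 1`).
The cycle: `L₁ > 0` with `dist x x' < L₁ → dist (f x) (f x') < min L μ` and `L₁ ≤ μ` (uniform continuity of `f`), so lists of mesh `< L₁` in `X` satisfy `MshQ (dqf f n 0) μ` and their images have mesh `< L`.  `VC X 2` for `η = L₁`: `μv`; `wind` with `F ∘ f : X → Vx M N`, `ψ = φ ∘ f`, `u ∘ f`, `L := L₁` and mesh `min μv L₁`: `z`; `z = bd D`,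
`D ∈ SP (3 points, Msh L₁)`, so `D ∈ InD (dqf f n) μ 3`, `bd D = z ∈ InN … (Q ∪ Q' ∪ C ∪ C') μ 2 ρ` (the points are in the set, `dq 0 x x = 0`).  `recS`: `U 0 (mp f D) = 0`; `U 0 (mp f D) = pair (w0 Φ) (om (mp F (mp f D)))`, `mp_mp`, `w0_pair`, `bd_mp`, `wind`: this integer is `1`; `(1 : ZMod p) ≠ 0`.
-/

set_option autoImplicit false

namespace AGR

open AGV

private theorem hsts_Msh_mono {X : Type} [PseudoMetricSpace X] {μ μ' : ℝ} (h : μ ≤ μ') {l : List X}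
    (hl : Msh μ l) : Msh μ' l :=
  fun x hx y hy => lt_of_lt_of_le (hl x hx y hy) h

private theorem hsts_phi {X Y : Type} [TopologicalSpace X] [CompactSpace X] [TopologicalSpace Y] [CompactSpace Y]
    [T2Space Y] {f : X → Y} (hf : Continuous f) {Q Q' C C' : Set X} (hQ : IsClosed Q) (hQ' : IsClosed Q')
    (hC : IsClosed C) (hC' : IsClosed C') (h1 : Disjoint (f '' Q) (f '' Q')) (h2 : Disjoint (f '' C) (f '' C')) :
    ∃ (φ : Y → ℂ) (u : Y → ℝ), Continuous φ ∧ Continuous u ∧ (∀ x ∈ Q, u (f x) = 0) ∧ (∀ x ∈ Q', u (f x) = 1) ∧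
      (∀ x ∈ C, φ (f x) = Complex.exp ((Real.pi * u (f x) : ℝ) * Complex.I)) ∧
      (∀ x ∈ C', φ (f x) = Complex.exp ((-(Real.pi * u (f x)) : ℝ) * Complex.I)) ∧
      (∀ x ∈ Q, φ (f x) = 1) ∧ (∀ x ∈ Q', φ (f x) = -1) := by
  have cl : ∀ S : Set X, IsClosed S → IsClosed (f '' S) := fun S hS =>
    (hS.isCompact.image hf).isClosed
  obtain ⟨u, hu0, hu1, -⟩ := exists_continuous_zero_one_of_isClosed (cl Q hQ) (cl Q' hQ') h1
  obtain ⟨s, hs0, hs1, -⟩ := exists_continuous_zero_one_of_isClosed (cl C hC) (cl C' hC') h2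
  have hQu : ∀ x ∈ Q, u (f x) = 0 := fun x hx => hu0 (Set.mem_image_of_mem f hx)
  have hQ'u : ∀ x ∈ Q', u (f x) = 1 := fun x hx => hu1 (Set.mem_image_of_mem f hx)
  have hCs : ∀ x ∈ C, s (f x) = 0 := fun x hx => hs0 (Set.mem_image_of_mem f hx)
  have hC's : ∀ x ∈ C', s (f x) = 1 := fun x hx => hs1 (Set.mem_image_of_mem f hx)
  refine ⟨fun y => ((Real.cos (Real.pi * u y) : ℝ) : ℂ) +
      ((1 - 2 * s y : ℝ) : ℂ) * ((Real.sin (Real.pi * u y) : ℝ) : ℂ) * Complex.I, fun y => u y, ?_, u.continuous,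
      hQu, hQ'u, ?_, ?_, ?_, ?_⟩
  · fun_prop
  · intro x hx
    show ((Real.cos (Real.pi * u (f x)) : ℝ) : ℂ) +
      ((1 - 2 * s (f x) : ℝ) : ℂ) * ((Real.sin (Real.pi * u (f x)) : ℝ) : ℂ) * Complex.I = _
    rw [hCs x hx, Complex.exp_mul_I, ← Complex.ofReal_cos, ← Complex.ofReal_sin]
    norm_num
  · intro x hx
    show ((Real.cos (Real.pi * u (f x)) : ℝ) : ℂ) +
      ((1 - 2 * s (f x) : ℝ) : ℂ) * ((Real.sin (Real.pi * u (f x)) : ℝ) : ℂ) * Complex.I = _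
    rw [hC's x hx, Complex.exp_mul_I, ← Complex.ofReal_cos, ← Complex.ofReal_sin, Real.cos_neg, Real.sin_neg]
    push_cast
    ring
  · intro x hx
    show ((Real.cos (Real.pi * u (f x)) : ℝ) : ℂ) +
      ((1 - 2 * s (f x) : ℝ) : ℂ) * ((Real.sin (Real.pi * u (f x)) : ℝ) : ℂ) * Complex.I = _
    rw [hQu x hx, mul_zero, Real.cos_zero, Real.sin_zero]
    simp
  · intro x hx
    show ((Real.cos (Real.pi * u (f x)) : ℝ) : ℂ) +
      ((1 - 2 * s (f x) : ℝ) : ℂ) * ((Real.sin (Real.pi * u (f x)) : ℝ) : ℂ) * Complex.I = _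
    rw [hQ'u x hx, mul_one, Real.cos_pi, Real.sin_pi]
    simp

theorem no_annS {p : ℕ} [Fact p.Prime] {k n : ℕ} (hk : 1 ≤ k) {G X Y : Type} [Group G] [TopologicalSpace G] [IsTopologicalGroup G]
    [CompactSpace G] [TotallyDisconnectedSpace G] [MetricSpace X] [CompactSpace X] [Nonempty X]
    [MetricSpace Y] [CompactSpace Y] [MulAction G X] [ContinuousSMul G X] [MulAction G Y] [ContinuousSMul G Y]
    (hiso : ∀ (g : G) (x y : X), dist (g • x) (g • y) = dist x y)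
    (hisoY : ∀ (g : G) (x y : Y), dist (g • x) (g • y) = dist x y) (hVC : VC X 2)
    (hv : ∀ j, 1 ≤ j → j ≤ n + 1 → VLC X j) (hY : CovDimLE Y n)
    (ι₀ : Multiplicative (Fin k → ℤ_[p]) →* G) (hc : Continuous ι₀) (hi : Function.Injective ι₀)
    (hfree : ∀ (g : G) (y : Y), g • y = y → g = 1)
    (hd : CovDimLE (MulAction.orbitRel.Quotient G Y) (k + 2)) {f : X → Y} (hf : Continuous f)
    (hfe : ∀ (g : G) (x : X), f (g • x) = g • f x) : NoAnn f := by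
  intro Q Q' C C' hQ hQ' hC hC' hQp hQp' hCp hCp' n1 n2 n3 n4 hd1 hd2
  obtain ⟨φ, u, hφ, hu, huQ, huQ', hφC, hφC', hφQ, hφQ'⟩ := hsts_phi hf hQ hQ' hC hC' hd1 hd2
  haveI hYne : Nonempty Y := ⟨f (Classical.arbitrary X)⟩
  -- the points of `A` have norm one
  have hA1 : ∀ x ∈ Q ∪ Q' ∪ C ∪ C', ‖φ (f x)‖ = 1 := by
    rintro x (((hx | hx) | hx) | hx)
    · rw [hφQ x hx, norm_one]
    · rw [hφQ' x hx, norm_neg, norm_one]
    · rw [hφC x hx, Complex.norm_exp_ofReal_mul_I]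
    · rw [hφC' x hx, Complex.norm_exp_ofReal_mul_I]
  -- uniform continuity
  have hφu : UniformContinuous φ := CompactSpace.uniformContinuous_of_continuous hφ
  have huu : UniformContinuous u := CompactSpace.uniformContinuous_of_continuous hu
  have hfu : UniformContinuous f := CompactSpace.uniformContinuous_of_continuous hf
  obtain ⟨e1, he1, he1'⟩ := Metric.uniformContinuous_iff.1 hφu (1 / 512) (by norm_num)
  obtain ⟨e2, he2, he2'⟩ := Metric.uniformContinuous_iff.1 huu (1 / 64) (by norm_num)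
  obtain ⟨e₀, he₀⟩ : ∃ e₀ : ℝ, e₀ = min e1 e2 := ⟨_, rfl⟩
  have he₀p : 0 < e₀ := by rw [he₀]; exact lt_min he1 he2
  have hφe : ∀ x y : Y, dist x y < e₀ → ‖φ x - φ y‖ < 1 / 512 := by
    intro x y hxy
    have h := he1' (lt_of_lt_of_le hxy (by rw [he₀]; exact min_le_left _ _))
    rwa [dist_eq_norm] at h
  have hue : ∀ x y : Y, dist x y < e₀ → |u x - u y| < 1 / 64 := by
    intro x y hxy
    have h := he2' (lt_of_lt_of_le hxy (by rw [he₀]; exact min_le_right _ _))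
    rwa [Real.dist_eq] at h
  -- the constants
  obtain ⟨ρ, hρe⟩ : ∃ ρ : ℝ, ρ = e₀ / 4 := ⟨_, rfl⟩
  have hρ : 0 < ρ := by rw [hρe]; positivity
  obtain ⟨t₀, ht₀⟩ : ∃ t₀ : ℝ, t₀ = ρ + ρ := ⟨_, rfl⟩
  have ht₀e : t₀ < e₀ := by
    rw [ht₀, hρe]
    linarith
  have hdq : DQ (dqf f n) := dqf_DQ f n
  have hdq0 : ∀ x y : X, dqf f n 0 x y = max (dist x y) (dist (f x) (f y)) := by
    intro x y
    unfold dqf
    rw [if_pos (by omega)]
  obtain ⟨δ, hδ, hops⟩ := opsS hdq hk (fun q h _ => vld_all hfu hv hY q h) hρ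
  obtain ⟨ι, K, χ, g, hιi, hιd, hKn, hKo, hKd, hχ, hχK, hχg, hlast⟩ :=
    grp (X := X × Y) p k hk ι₀ hc hi (lt_min hδ he₀p)
  have hpair : ∀ (h : G) (ε : ℝ), (∀ z : X × Y, dist (h • z) z < ε) →
      (∀ x : X, dqf f n 0 (h • x) x < ε) ∧ ∀ y : Y, dist (h • y) y < ε := by
    intro h ε hz
    constructor
    · intro x
      have h1 := hz (x, f x)
      rw [Prod.dist_eq] at h1
      rw [hdq0, hfe]
      exact h1
    · intro y
      have h1 := hz (Classical.arbitrary X, y)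
      rw [Prod.dist_eq] at h1
      exact lt_of_le_of_lt (le_max_right _ _) h1
  have hK2 : ∀ h ∈ K, ∀ y : Y, ‖φ (id (h • y)) - φ (id y)‖ < (1 / 64 : ℝ) / 8 := by
    intro h hh y
    exact lt_of_lt_of_le (hφe _ _ (lt_of_lt_of_le ((hpair h _ (hKd h hh)).2 y) (min_le_right _ _)))
      (by norm_num)
  have hΓ2 : ∀ (γ : Multiplicative (Fin k → ℤ_[p])) (y : Y),
      ‖φ (id (ι γ • y)) - φ (id y)‖ < (1 / 64 : ℝ) / 8 := by
    intro γ y
    exact lt_of_lt_of_le (hφe _ _ (lt_of_lt_of_le ((hpair (ι γ) _ (hιd γ)).2 y) (min_le_right _ _)))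
      (by norm_num)
  obtain ⟨M, N, hM, F, π, Φ, lab, L₀, hL₀, hOK, hπ2, hFπ, hπK, hΦ0, hΦπ, hΦφ', hlab⟩ :=
    covF (X := Y) (Y := Y) (f := id) hisoY hfree continuous_id (fun _ _ => rfl) hd K hKn hKo φ hφ
      (by norm_num : (0 : ℝ) < 1 / 64) hK2 ι hΓ2 χ hχ hχK
  haveI := hM
  have hΦφ : ∀ y : Y, ‖Φ (F y) - φ y‖ < 1 / 64 := hΦφ'
  obtain ⟨L, hLe⟩ : ∃ L : ℝ, L = min L₀ e₀ := ⟨_, rfl⟩
  have hL : 0 < L := by rw [hLe]; exact lt_min hL₀ he₀p
  have hLL₀ : L ≤ L₀ := by rw [hLe]; exact min_le_left _ _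
  have hLe₀ : L ≤ e₀ := by rw [hLe]; exact min_le_right _ _
  obtain ⟨κ, hκ, hops2⟩ := hops L hL
  obtain ⟨n', hn, hnd, hnK⟩ := hlast κ hκ
  -- the action of `Γ`
  have hinv : ∀ (h : G) (q : ℕ) (x y : X), dqf f n q (h • x) (h • y) = dqf f n q x y := by
    intro h q x y
    unfold dqf
    rw [hfe, hfe, hiso, hisoY]
  letI act : MulAction (Multiplicative (Fin k → ℤ_[p])) X := MulAction.compHom X ι
  have hact : ∀ (γ : Multiplicative (Fin k → ℤ_[p])) (x : X), γ • x = ι γ • x := fun _ _ => rfl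
  have hfr : ∀ (γ : Multiplicative (Fin k → ℤ_[p])) (x : X), γ • x = x → γ = 1 := by
    intro γ x h
    rw [hact] at h
    have h1 : ι γ • f x = f x := by rw [← hfe, h]
    have h2 := hfree _ _ h1
    exact hιi (by rw [h2, map_one])
  obtain ⟨μ, P, R, hO⟩ := hops2 (Multiplicative (Fin k → ℤ_[p])) (fun γ q x y => hinv (ι γ) q x y) hfr
    (fun γ x => lt_of_lt_of_le ((hpair (ι γ) _ (hιd γ)).1 x) (min_le_left _ _)) g n'
    (fun x => (hpair (ι ((g 0) ^ n')) _ hnd).1 x)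
  have hO' : Sy (dqf f n) k ρ L μ (fun r x => ι (g r) • x) n' P R := hO
  have hit : ∀ (m : ℕ) (y : Y), (fun y : Y => ι (g 0) • y)^[m] y = ι ((g 0) ^ m) • y := by
    intro m
    induction m with
    | zero => intro y; rw [Function.iterate_zero, id, pow_zero, map_one, one_smul]
    | succ m ih =>
      intro y
      rw [Function.iterate_succ_apply, ih, ← mul_smul, ← map_mul, ← pow_succ]
  -- the functionals
  have hnear : ∀ l : List Y, Msh L l → Cl (f '' (Q ∪ Q' ∪ C ∪ C')) t₀ l → Sml Φ (l.map F).toFinset := by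
    intro l hl hcl
    constructor
    · intro v hv'
      rw [List.mem_toFinset, List.mem_map] at hv'
      obtain ⟨y, hy, rfl⟩ := hv'
      obtain ⟨y0, ⟨x, hx, rfl⟩, hyx⟩ := hcl y hy
      have h1 := hφe y (f x) (hyx.trans ht₀e)
      have h2 := hΦφ y
      have h3 := hA1 x hx
      have h4 : ‖φ (f x)‖ ≤ ‖Φ (F y)‖ + ‖Φ (F y) - φ y‖ + ‖φ y - φ (f x)‖ := by
        have h5 : φ (f x) = Φ (F y) - (Φ (F y) - φ y) - (φ y - φ (f x)) := by ring
        calc ‖φ (f x)‖ = ‖Φ (F y) - (Φ (F y) - φ y) - (φ y - φ (f x))‖ := by rw [← h5]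
          _ ≤ ‖Φ (F y) - (Φ (F y) - φ y)‖ + ‖φ y - φ (f x)‖ := norm_sub_le _ _
          _ ≤ _ := by
            have := norm_sub_le (Φ (F y)) (Φ (F y) - φ y)
            linarith
      rw [h3] at h4
      linarith
    · intro v hv' w hw'
      rw [List.mem_toFinset, List.mem_map] at hv' hw'
      obtain ⟨y, hy, rfl⟩ := hv'
      obtain ⟨y', hy', rfl⟩ := hw'
      have h1 := hφe y y' (lt_of_lt_of_le (hl y hy y' hy') hLe₀)
      have h2 := hΦφ y
      have h3 := hΦφ y'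
      have h5 : Φ (F y) - Φ (F y') = (Φ (F y) - φ y) + (φ y - φ y') - (Φ (F y') - φ y') := by ring
      calc ‖Φ (F y) - Φ (F y')‖
          = ‖(Φ (F y) - φ y) + (φ y - φ y') - (Φ (F y') - φ y')‖ := by rw [← h5]
        _ ≤ ‖(Φ (F y) - φ y) + (φ y - φ y')‖ + ‖Φ (F y') - φ y'‖ := norm_sub_le _ _
        _ ≤ ‖Φ (F y) - φ y‖ + ‖φ y - φ y'‖ + ‖Φ (F y') - φ y'‖ := by
            have := norm_add_le (Φ (F y) - φ y) (φ y - φ y')
            linarith
        _ ≤ 1 / 8 := by linarith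
  obtain ⟨U, U', V, hU, hU0⟩ := funs (k := k) (p := p) (L := L) (t₀ := t₀) (A := f '' (Q ∪ Q' ∪ C ∪ C'))
    (fun r (y : Y) => ι (g r) • y) n' F (fun l hl => hOK l (hsts_Msh_mono hLL₀ hl)) (fun r => π (g r))
    (fun r v => hπ2 (g r) v) (fun r x => hFπ (g r) x)
    (fun x => by rw [hit n' x, hFπ, hπK _ hnK]) Φ hΦ0 (fun r v => hΦπ (g r) v) lab
    (fun s r hs hr v => by rw [hlab, hχg s r hs hr]) hnear
  -- the cycle
  obtain ⟨e3, he3, he3'⟩ := Metric.uniformContinuous_iff.1 hfu (min L μ) (lt_min hL hO.μ_pos)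
  obtain ⟨L₁, hL₁e⟩ : ∃ L₁ : ℝ, L₁ = min e3 μ := ⟨_, rfl⟩
  have hL₁ : 0 < L₁ := by rw [hL₁e]; exact lt_min he3 hO.μ_pos
  have hL₁μ : L₁ ≤ μ := by rw [hL₁e]; exact min_le_right _ _
  have hL₁f : ∀ x y : X, dist x y < L₁ → dist (f x) (f y) < min L μ := by
    intro x y hxy
    exact he3' (lt_of_lt_of_le hxy (by rw [hL₁e]; exact min_le_left _ _))
  have hL₁L : ∀ x y : X, dist x y < L₁ → dist (f x) (f y) < L :=
    fun x y hxy => lt_of_lt_of_le (hL₁f x y hxy) (min_le_left _ _)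
  have hL₁q : ∀ x y : X, dist x y < L₁ → dqf f n 0 x y < μ := by
    intro x y hxy
    rw [hdq0]
    exact max_lt (lt_of_lt_of_le hxy hL₁μ) (lt_of_lt_of_le (hL₁f x y hxy) (min_le_right _ _))
  obtain ⟨μv, hμv, hVC2⟩ := hVC L₁ hL₁
  have hGL : ∀ l : List X, Msh L₁ l → GdL (l.map (F ∘ f)) := by
    intro l hl
    rw [← List.map_map]
    refine (hOK (l.map f) (hsts_Msh_mono hLL₀ ?_)).1
    intro x hx y hy
    rw [List.mem_map] at hx hy
    obtain ⟨x', hx', rfl⟩ := hx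
    obtain ⟨y', hy', rfl⟩ := hy
    exact hL₁L x' y' (hl x' hx' y' hy')
  obtain ⟨z, hz, hbz, hpz⟩ := wind (F ∘ f) Φ hGL (fun x => φ (f x)) (fun x => hΦφ (f x)) (fun x => u (f x))
    (fun x y h => hue _ _ (lt_of_lt_of_le (hL₁L x y h) hLe₀))
    (fun x y h => (hφe _ _ (lt_of_lt_of_le (hL₁L x y h) hLe₀)).trans (by norm_num))
    hQp hQp' hCp hCp' n1 n2 n3 n4 huQ huQ' hφC hφC' hφQ hφQ'
    (lt_min hμv hL₁) (min_le_right _ _)
  obtain ⟨D, hD, hbD⟩ := hVC2 z (SP_mono (fun l hl => ⟨hl.1, hsts_Msh_mono (min_le_left _ _) hl.2.1⟩) hz) hbz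
  have hD1 : D ∈ InD (dqf f n) μ 3 :=
    SP_mono (fun l hl => ⟨hl.1, fun x hx y hy => hL₁q x y (hl.2 x hx y hy)⟩) hD
  have hD2 : bd D ∈ InN (dqf f n) (Q ∪ Q' ∪ C ∪ C') μ 2 ρ := by
    rw [hbD]
    refine SP_mono (fun l hl => ⟨hl.1, fun x hx y hy =>
      hL₁q x y (lt_of_lt_of_le (hl.2.1 x hx y hy) (min_le_right _ _)), ?_⟩) hz
    intro y hy
    exact ⟨y, hl.2.2 y hy, by rw [hdq.self]; exact hρ⟩
  have h0 : U 0 (mp f D) = 0 :=
    recS (fun q x y => dqf_le f n q x y) hk (fun r x => hfe (ι (g r)) x)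
      (fun r x y => hisoY (ι (g r)) x y) hn hO' hU (t₁ := ρ) (le_of_eq ht₀.symm) hD1 hD2
  have hG : mp (F ∘ f) D ∈ SP (GdL (M := M) (N := N)) :=
    mp_mem (F ∘ f) (fun l hl => hGL l hl.2) hD
  have h1 := w0_pair Φ hΦ0 hG
  rw [bd_mp, hbD, hpz] at h1
  have h2 : pair (w0 Φ) (om (mp (F ∘ f) D)) = 1 := by exact_mod_cast h1
  rw [hU0, mp_mp, h2, Int.cast_one] at h0
  exact one_ne_zero h0

end AGR
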