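import Pool.Agent.AGR.DefsD
import Pool.Agent.AGR.EqC

/-!
# AGR/LFillD: local equivariant filling for a family of pseudometrics

The proof of AGR/LFill (one metric) with the input lists measured by `dq 0` and output lists of `q` points by `dq q`.
-/

set_option autoImplicit false

namespace AGR

open AGV

theorem DQ.le_zero {X : Type} {dq : ℕ → X → X → ℝ} (hdq : DQ dq) (q : ℕ) (x y : X) : dq q x y ≤ dq 0 x y := by
  induction q with
  | zero => exact le_rfl
  | succ q ih => exact (hdq.anti q x y).trans ih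

private theorem lfilld_ext {X W : Type} [AddCommGroup W] (f g : Ch X →ₗ[ℤ] W)
    (h : ∀ l, f (Finsupp.single l 1) = g (Finsupp.single l 1)) (z : Ch X) : f z = g z := by
  have : f = g := Finsupp.lhom_ext' fun l => LinearMap.ext_ring (h l)
  rw [this]

private theorem lfilld_bd_mem {X : Type} (l : List X) :
    bd (Finsupp.single l 1) ∈ SP (fun l' : List X => l'.Sublist l ∧ l'.length + 1 = l.length) := by
  rw [bd_single, one_smul]
  exact bdL_mem l

private theorem lfilld_sub {X : Type} {D : X → X → ℝ} {μ : ℝ} {l l' : List X} (h : l'.Sublist l)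
    (hm : MshQ D μ l) : MshQ D μ l' :=
  fun x hx y hy => hm x (h.subset hx) y (h.subset hy)

private theorem lfilld_mono {X : Type} {D : X → X → ℝ} {μ ν : ℝ} (h : μ ≤ ν) {l : List X}
    (hm : MshQ D μ l) : MshQ D ν l :=
  fun x hx y hy => lt_of_lt_of_le (hm x hx y hy) h

private theorem lfilld_map {X : Type} {D : X → X → ℝ} {μ : ℝ} {f : X → X}
    (hf : ∀ x y, D (f x) (f y) = D x y) {l : List X} (hm : MshQ D μ l) : MshQ D μ (l.map f) := by
  intro u hu v hv
  obtain ⟨u', hu', rfl⟩ := List.mem_map.1 hu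
  obtain ⟨v', hv', rfl⟩ := List.mem_map.1 hv
  rw [hf]
  exact hm u' hu' v' hv'

private theorem lfilld_map' {X : Type} {D : X → X → ℝ} {μ : ℝ} {f : X → X}
    (hf : ∀ x y, D (f x) (f y) = D x y) {l : List X} (hm : MshQ D μ (l.map f)) : MshQ D μ l := by
  intro u hu v hv
  rw [← hf]
  exact hm _ (List.mem_map_of_mem hu) _ (List.mem_map_of_mem hv)

private theorem lfilld_ou_map {X : Type} {dq : ℕ → X → X → ℝ} {f : X → X}
    (hf : ∀ q x y, dq q (f x) (f y) = dq q x y) {q : ℕ} {μ δ : ℝ} {l : List X} {z : Ch X}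
    (h : z ∈ Ou dq q μ δ l) : mp f z ∈ Ou dq q μ δ (l.map f) := by
  refine mp_mem f (fun l' hl' => ⟨?_, lfilld_map (hf q) hl'.2.1, ?_⟩) h
  · rw [List.length_map]
    exact hl'.1
  · intro y hy x hx
    obtain ⟨y', hy', rfl⟩ := List.mem_map.1 hy
    obtain ⟨x', hx', rfl⟩ := List.mem_map.1 hx
    rw [hf]
    exact hl'.2.2 y' hy' x' hx'

/-- the equivariant extension of a function on lists -/
private theorem lfilld_step {X : Type} {dq : ℕ → X → X → ℝ} (hdq : DQ dq) (n e : ℕ) {δ₁ ε ε' η η' μ' μ₁ δ μ : ℝ}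
    (hε1 : ε' ≤ δ₁ / 2) (hε2 : ε' ≤ ε / 2) (hη1 : η' ≤ η) (hη2 : η' ≤ μ₁) (hμη : μ ≤ η')
    (hμδ : μ ≤ δ) (hδε : δ ≤ ε') (hμ' : 0 < μ') (hμμ : μ' ≤ μ)
    (hfl : ∀ x : X, ∀ z ∈ SP (fun l : List X => l.length = n + 1 + e ∧ MshQ (dq (n + 1 + e)) μ₁ l ∧
        ∀ y ∈ l, dq (n + 1 + e) y x < δ₁),
      bd z = 0 → ∃ w ∈ SP (fun l : List X => l.length = n + 1 + e + 1 ∧ MshQ (dq (n + 1 + e + 1)) η l ∧
        ∀ y ∈ l, dq (n + 1 + e + 1) y x < ε / 2), bd w = z)
    (Γ : Type) [Group Γ] [MulAction Γ X] (hiso : ∀ (γ : Γ) (q : ℕ) (x y : X), dq q (γ • x) (γ • y) = dq q x y)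
    (hfree : ∀ (γ : Γ) (x : X), γ • x = x → γ = 1)
    (s : ℤ) (u : Ch X →ₗ[ℤ] Ch X) (hu : ∀ (γ : Γ) (z : Ch X), u (mp (γ • ·) z) = mp (γ • ·) (u z))
    (hu0 : u (Finsupp.single [] 1) = 0)
    (hum : ∀ l : List X, 1 ≤ l.length → l.length ≤ n + 1 → MshQ (dq 0) μ' l →
      u (Finsupp.single l 1) ∈ Ou dq (l.length + e) μ δ l)
    (huc : ∀ l : List X, 1 ≤ l.length → l.length ≤ n + 1 → MshQ (dq 0) μ' l →
      bd (u (Finsupp.single l 1)) + s • u (bd (Finsupp.single l 1)) = 0)
    (D' : Ch X →ₗ[ℤ] Ch X) (hD1 : ∀ (γ : Γ) (z : Ch X), D' (mp (γ • ·) z) = mp (γ • ·) (D' z))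
    (hD0 : D' (Finsupp.single [] 1) = 0)
    (hDm : ∀ l : List X, 1 ≤ l.length → l.length ≤ n → MshQ (dq 0) μ' l →
      D' (Finsupp.single l 1) ∈ Ou dq (l.length + e + 1) η' ε' l)
    (hDb : ∀ l : List X, 1 ≤ l.length → l.length ≤ n → MshQ (dq 0) μ' l →
      bd (D' (Finsupp.single l 1)) = u (Finsupp.single l 1) + s • D' (bd (Finsupp.single l 1))) :
    ∃ D : Ch X →ₗ[ℤ] Ch X, (∀ (γ : Γ) (z : Ch X), D (mp (γ • ·) z) = mp (γ • ·) (D z)) ∧
      D (Finsupp.single [] 1) = 0 ∧
      (∀ l : List X, 1 ≤ l.length → l.length ≤ n + 1 → MshQ (dq 0) μ' l →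
        D (Finsupp.single l 1) ∈ Ou dq (l.length + e + 1) η ε l) ∧
      (∀ l : List X, 1 ≤ l.length → l.length ≤ n + 1 → MshQ (dq 0) μ' l →
        bd (D (Finsupp.single l 1)) = u (Finsupp.single l 1) + s • D (bd (Finsupp.single l 1))) := by
  classical
  -- the relation for all lists with at most `n` points
  have hDb' : ∀ l : List X, l.length ≤ n → MshQ (dq 0) μ' l →
      bd (D' (Finsupp.single l 1)) = u (Finsupp.single l 1) + s • D' (bd (Finsupp.single l 1)) := by
    intro l hl hm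
    rcases Nat.eq_zero_or_pos l.length with h0 | h0
    · rw [List.length_eq_zero_iff] at h0
      subst h0
      have h1 : bd (Finsupp.single ([] : List X) (1 : ℤ)) = 0 := by
        rw [bd_single, one_smul]
        rfl
      rw [hD0, hu0, h1, map_zero, map_zero, smul_zero, add_zero]
    · exact hDb l h0 hl hm
  have hmps : ∀ (γ : Γ) (l : List X), mp (γ • ·) (Finsupp.single l (1 : ℤ)) =
      Finsupp.single (l.map (γ • ·)) 1 := fun γ l => mp_single _ l 1
  obtain ⟨g, hg, hga⟩ := eqc (Γ := Γ) (T := List X) (B := Ch X) (fun γ l => l.map (γ • ·))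
    (fun l => by
      show l.map (fun x => (1 : Γ) • x) = l
      simp only [one_smul]
      exact List.map_id' l)
    (fun γ γ' l => by
      show l.map (fun x => (γ * γ') • x) = (l.map (γ' • ·)).map (γ • ·)
      rw [List.map_map]
      refine List.map_congr_left fun x _ => ?_
      exact mul_smul γ γ' x)
    (fun γ z => mp (γ • ·) z)
    (fun z => by
      have h1 : (fun x : X => (1 : Γ) • x) = id := by
        funext x
        exact one_smul Γ x
      show mp (fun x : X => (1 : Γ) • x) z = z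
      rw [h1, mp_id])
    (fun γ γ' z => by
      show mp (fun x : X => (γ * γ') • x) z = mp (γ • ·) (mp (γ' • ·) z)
      rw [mp_mp]
      congr 1
      congr 1
      funext x
      exact mul_smul γ γ' x)
    (fun l w => (l.length = n + 1 → MshQ (dq 0) μ' l →
        w ∈ Ou dq (l.length + e + 1) η ε l ∧
        bd w = u (Finsupp.single l 1) + s • D' (bd (Finsupp.single l 1))) ∧
      (l.length ≠ n + 1 → w = D' (Finsupp.single l 1)))
    (fun γ l w h => by
      refine ⟨fun hl hm => ?_, fun hl => ?_⟩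
      · have hl' : l.length = n + 1 := by rw [← hl]; exact (List.length_map _).symm
        obtain ⟨h1, h2⟩ := h.1 hl' (lfilld_map' (hiso γ 0) hm)
        refine ⟨?_, ?_⟩
        · show mp (γ • ·) w ∈ Ou dq ((l.map (γ • ·)).length + e + 1) η ε (l.map (γ • ·))
          rw [List.length_map]
          exact lfilld_ou_map (hiso γ) h1
        · show bd (mp (γ • ·) w) = _
          rw [bd_mp, h2, map_add, map_smul, ← hu, ← hD1, ← bd_mp, hmps]
      · have hl' : l.length ≠ n + 1 := by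
          rw [← List.length_map (f := (γ • ·)) (as := l)]
          exact hl
        show mp (γ • ·) w = _
        rw [h.2 hl', ← hD1, hmps])
    (fun l => by
      by_cases hl : l.length = n + 1
      · have hne : l ≠ [] := by
          intro h0
          rw [h0] at hl
          exact absurd hl (by simp)
        obtain ⟨x, t, rfl⟩ := List.exists_cons_of_ne_nil hne
        have hst : ∀ γ : Γ, (x :: t).map (γ • ·) = x :: t → ∀ y : Ch X, mp (γ • ·) y = y := by
          intro γ hγ y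
          rw [List.map_cons] at hγ
          have h1 := hfree γ x (List.cons.inj hγ).1
          subst h1
          have h2 : (fun x : X => (1 : Γ) • x) = id := by
            funext x
            exact one_smul Γ x
          rw [h2, mp_id]
        by_cases hm : MshQ (dq 0) μ' (x :: t)
        · have hxl : x ∈ x :: t := List.mem_cons_self
          have hl1 : 1 ≤ (x :: t).length := by omega
          have hY : u (Finsupp.single (x :: t) 1) + s • D' (bd (Finsupp.single (x :: t) 1)) ∈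
              SP (fun l : List X => l.length = n + 1 + e ∧ MshQ (dq (n + 1 + e)) μ₁ l ∧
                ∀ y ∈ l, dq (n + 1 + e) y x < δ₁) := by
            refine Submodule.add_mem _ ?_ (Submodule.smul_mem _ _ ?_)
            · have hum' := hum (x :: t) hl1 (by omega) hm
              rw [hl] at hum'
              refine SP_mono (fun l' h => ⟨h.1, ?_, fun y hy => ?_⟩) hum'
              · exact lfilld_mono (hμη.trans hη2) h.2.1
              · have h1 := h.2.2 y hy x hxl
                linarith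
            · refine lin_mem D' _ (fun l' h => ?_) (lfilld_bd_mem (x :: t))
              have hm' : MshQ (dq 0) μ' l' := lfilld_sub h.1 hm
              rcases Nat.eq_zero_or_pos l'.length with h0 | h0
              · rw [List.length_eq_zero_iff] at h0
                subst h0
                rw [hD0]
                exact Submodule.zero_mem _
              · obtain ⟨x', hx'⟩ := List.exists_mem_of_length_pos h0
                have hDm' := hDm l' h0 (by have := h.2; omega) hm'
                have hle : l'.length + e + 1 = n + 1 + e := by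
                  have h1 := h.2
                  omega
                rw [hle] at hDm'
                refine SP_mono (fun l'' h' => ⟨h'.1, ?_, fun y hy => ?_⟩) hDm'
                · exact lfilld_mono hη2 h'.2.1
                · have h1 := h'.2.2 y hy x' hx'
                  have h2 := hm x' (h.1.subset hx') x hxl
                  have h3 := hdq.tri (n + 1 + e) y x' x
                  have h4 := hdq.le_zero (n + 1 + e) x' x
                  linarith
          have hB : bd (u (Finsupp.single (x :: t) 1) + s • D' (bd (Finsupp.single (x :: t) 1))) = 0 := by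
            have h3 := lin_eq (bd ∘ₗ D') (u + s • (D' ∘ₗ bd)) (fun l' hl' => by
              rw [LinearMap.comp_apply, LinearMap.add_apply, LinearMap.smul_apply,
                LinearMap.comp_apply]
              exact hDb' l' (by have := hl'.2; omega) (lfilld_sub hl'.1 hm)) (lfilld_bd_mem (x :: t))
            rw [LinearMap.comp_apply, LinearMap.add_apply, LinearMap.smul_apply,
              LinearMap.comp_apply, bd_bd, map_zero, smul_zero, add_zero] at h3
            rw [map_add, map_smul, h3]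
            exact huc (x :: t) hl1 (by omega) hm
          obtain ⟨w, hw1, hw2⟩ := hfl x _ hY hB
          refine ⟨w, ⟨fun _ _ => ⟨?_, hw2⟩, fun h => absurd hl h⟩, fun γ hγ => hst γ hγ w⟩
          rw [hl]
          refine SP_mono (fun l' h => ⟨h.1, h.2.1, fun y hy x' hx' => ?_⟩) hw1
          have h1 := h.2.2 y hy
          have h2 := hm x hxl x' hx'
          have h3 := hdq.tri (n + 1 + e + 1) y x x'
          have h4 := hdq.le_zero (n + 1 + e + 1) x x'
          linarith
        · exact ⟨0, ⟨fun _ h => absurd h hm, fun h => absurd hl h⟩, fun γ hγ => hst γ hγ 0⟩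
      · refine ⟨D' (Finsupp.single l 1), ⟨fun h => absurd h hl, fun _ => rfl⟩, fun γ hγ => ?_⟩
        show mp (γ • ·) (D' (Finsupp.single l 1)) = _
        rw [← hD1, hmps]
        exact congrArg (fun l => D' (Finsupp.single l 1)) hγ)
  have hs : ∀ l : List X, Finsupp.linearCombination ℤ g (Finsupp.single l (1 : ℤ)) = g l := by
    intro l
    rw [Finsupp.linearCombination_single, one_smul]
  have hne : ∀ l : List X, l.length ≠ n + 1 →
      Finsupp.linearCombination ℤ g (Finsupp.single l (1 : ℤ)) = D' (Finsupp.single l 1) :=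
    fun l hl => (hs l).trans ((hg l).2 hl)
  have hbd : ∀ l : List X, l.length ≤ n + 1 →
      Finsupp.linearCombination ℤ g (bd (Finsupp.single l (1 : ℤ))) = D' (bd (Finsupp.single l 1)) :=
    fun l hl => lin_eq (Finsupp.linearCombination ℤ g) D'
      (fun l' hl' => hne l' (by have := hl'.2; omega)) (lfilld_bd_mem l)
  refine ⟨Finsupp.linearCombination ℤ g, fun γ z => ?_, ?_, fun l h1 h2 hm => ?_, fun l h1 h2 hm => ?_⟩
  · refine lfilld_ext (Finsupp.linearCombination ℤ g ∘ₗ mp (γ • ·))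
      (mp (γ • ·) ∘ₗ Finsupp.linearCombination ℤ g) (fun l => ?_) z
    rw [LinearMap.comp_apply, LinearMap.comp_apply, hmps, hs, hs]
    exact hga γ l
  · rw [hne [] (by simp), hD0]
  · by_cases hl : l.length = n + 1
    · rw [hs]
      exact ((hg l).1 hl hm).1
    · rw [hne l hl]
      refine SP_mono (fun l' h => ⟨h.1, lfilld_mono hη1 h.2.1, fun y hy x hx => ?_⟩)
        (hDm l h1 (by omega) hm)
      have h3 := h.2.2 y hy x hx
      have h4 : 0 < ε' := lt_of_lt_of_le hμ' (hμμ.trans (hμδ.trans hδε))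
      linarith
  · rw [hbd l h2]
    by_cases hl : l.length = n + 1
    · rw [hs]
      exact ((hg l).1 hl hm).2
    · rw [hne l hl]
      exact hDb l h1 (by omega) hm

private theorem lfilld_gen {X : Type} {dq : ℕ → X → X → ℝ} (hdq : DQ dq) (n e : ℕ)
    (hv : ∀ j, 1 ≤ j → j ≤ n → VLD dq (j + e)) {ε : ℝ} (hε : 0 < ε) :
    ∃ δ : ℝ, 0 < δ ∧ δ ≤ ε ∧ ∀ η : ℝ, 0 < η → ∃ μ : ℝ, 0 < μ ∧ μ ≤ η ∧ μ ≤ δ ∧ ∀ μ' : ℝ, 0 < μ' → μ' ≤ μ →
      ∀ (Γ : Type) [Group Γ] [MulAction Γ X], (∀ (γ : Γ) (q : ℕ) (x y : X), dq q (γ • x) (γ • y) = dq q x y) →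
        (∀ (γ : Γ) (x : X), γ • x = x → γ = 1) →
      ∀ (s : ℤ) (u : Ch X →ₗ[ℤ] Ch X), (∀ (γ : Γ) (z : Ch X), u (mp (γ • ·) z) = mp (γ • ·) (u z)) →
        u (Finsupp.single [] 1) = 0 →
        (∀ l : List X, 1 ≤ l.length → l.length ≤ n → MshQ (dq 0) μ' l →
          u (Finsupp.single l 1) ∈ Ou dq (l.length + e) μ δ l) →
        (∀ l : List X, 1 ≤ l.length → l.length ≤ n → MshQ (dq 0) μ' l →
          bd (u (Finsupp.single l 1)) + s • u (bd (Finsupp.single l 1)) = 0) →
        ∃ D : Ch X →ₗ[ℤ] Ch X, (∀ (γ : Γ) (z : Ch X), D (mp (γ • ·) z) = mp (γ • ·) (D z)) ∧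
          D (Finsupp.single [] 1) = 0 ∧
          (∀ l : List X, 1 ≤ l.length → l.length ≤ n → MshQ (dq 0) μ' l →
            D (Finsupp.single l 1) ∈ Ou dq (l.length + e + 1) η ε l) ∧
          (∀ l : List X, 1 ≤ l.length → l.length ≤ n → MshQ (dq 0) μ' l →
            bd (D (Finsupp.single l 1)) = u (Finsupp.single l 1) + s • D (bd (Finsupp.single l 1))) := by
  induction n generalizing ε with
  | zero =>
    refine ⟨ε, hε, le_rfl, fun η hη => ⟨min η ε, lt_min hη hε, min_le_left _ _, min_le_right _ _,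
      fun μ' _ _ Γ _ _ _ _ s u _ _ _ _ => ⟨0, fun γ z => ?_, rfl, fun l h1 h2 _ => ?_, fun l h1 h2 _ => ?_⟩⟩⟩
    · rw [LinearMap.zero_apply, LinearMap.zero_apply, map_zero]
    · exact absurd (h1.trans h2) (by omega)
    · exact absurd (h1.trans h2) (by omega)
  | succ n ih =>
    obtain ⟨δ₁, hδ₁, hV⟩ := hv (n + 1) (by omega) le_rfl (ε / 2) (by linarith)
    obtain ⟨δ, hδ, hδε, hI⟩ := ih (fun j h1 h2 => hv j h1 (by omega)) (ε := min (δ₁ / 2) (ε / 2))
      (lt_min (by linarith) (by linarith))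
    refine ⟨δ, hδ, hδε.trans ((min_le_right _ _).trans (by linarith)), fun η hη => ?_⟩
    obtain ⟨μ₁, hμ₁, hW⟩ := hV η hη
    obtain ⟨μ, hμ, hμη, hμδ, hJ⟩ := hI (min η μ₁) (lt_min hη hμ₁)
    refine ⟨μ, hμ, hμη.trans (min_le_left _ _), hμδ, fun μ' hμ' hμμ Γ _ _ hiso hfree s u hu hu0 hum huc => ?_⟩
    obtain ⟨D', hD1, hD0, hDm, hDb⟩ := hJ μ' hμ' hμμ Γ hiso hfree s u hu hu0
      (fun l h1 h2 hm => hum l h1 (by omega) hm) (fun l h1 h2 hm => huc l h1 (by omega) hm)
    exact lfilld_step hdq n e (min_le_left _ _) (min_le_right _ _) (min_le_left _ _) (min_le_right _ _) hμη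
      hμδ hδε hμ' hμμ hW Γ hiso hfree s u hu hu0 hum huc D' hD1 hD0 hDm hDb

theorem lfillD {X : Type} {dq : ℕ → X → X → ℝ} (hdq : DQ dq) (e : ℕ) (hv : ∀ j, 1 ≤ j → j ≤ 3 → VLD dq (j + e)) {ε : ℝ}
    (hε : 0 < ε) :
    ∃ δ : ℝ, 0 < δ ∧ δ ≤ ε ∧ ∀ η : ℝ, 0 < η → ∃ μ : ℝ, 0 < μ ∧ μ ≤ η ∧ μ ≤ δ ∧ ∀ μ' : ℝ, 0 < μ' → μ' ≤ μ →
      ∀ (Γ : Type) [Group Γ] [MulAction Γ X], (∀ (γ : Γ) (q : ℕ) (x y : X), dq q (γ • x) (γ • y) = dq q x y) →
        (∀ (γ : Γ) (x : X), γ • x = x → γ = 1) →
      ∀ (s : ℤ) (u : Ch X →ₗ[ℤ] Ch X), (∀ (γ : Γ) (z : Ch X), u (mp (γ • ·) z) = mp (γ • ·) (u z)) →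
        u (Finsupp.single [] 1) = 0 →
        (∀ l : List X, LOK dq μ' l → u (Finsupp.single l 1) ∈ Ou dq (l.length + e) μ δ l) →
        (∀ l : List X, LOK dq μ' l → bd (u (Finsupp.single l 1)) + s • u (bd (Finsupp.single l 1)) = 0) →
        ∃ D : Ch X →ₗ[ℤ] Ch X, (∀ (γ : Γ) (z : Ch X), D (mp (γ • ·) z) = mp (γ • ·) (D z)) ∧
          D (Finsupp.single [] 1) = 0 ∧
          (∀ l : List X, LOK dq μ' l → D (Finsupp.single l 1) ∈ Ou dq (l.length + e + 1) η ε l) ∧
          (∀ l : List X, LOK dq μ' l →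
            bd (D (Finsupp.single l 1)) = u (Finsupp.single l 1) + s • D (bd (Finsupp.single l 1))) := by
  obtain ⟨δ, hδ, hδε, h1⟩ := lfilld_gen hdq 3 e hv hε
  refine ⟨δ, hδ, hδε, fun η hη => ?_⟩
  obtain ⟨μ, hμ, hμη, hμδ, h2⟩ := h1 η hη
  refine ⟨μ, hμ, hμη, hμδ, fun μ' hμ' hμμ Γ _ _ hiso hfree s u hu hu0 hum huc => ?_⟩
  obtain ⟨D, hD1, hD0, hDm, hDb⟩ := h2 μ' hμ' hμμ Γ hiso hfree s u hu hu0
    (fun l h3 h4 hm => hum l ⟨h3, h4, hm⟩) (fun l h3 h4 hm => huc l ⟨h3, h4, hm⟩)
  exact ⟨D, hD1, hD0, fun l hl => hDm l hl.1 hl.2.1 hl.2.2, fun l hl => hDb l hl.1 hl.2.1 hl.2.2⟩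

end AGR
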