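import Pool.Agent.AGR.Fin
import Pool.Agent.AGV.FinT3

/-!
# AGR/Last: all cases together
-/

set_option autoImplicit false

namespace AGR

open AGV Pool.Agent.Helper87.AG

theorem covDimLE_mono {B : Type} [TopologicalSpace B] {d d' : ℕ} (h : d ≤ d') (hB : CovDimLE B d) : CovDimLE B d' := by
  intro I hI U hU hUc
  obtain ⟨J, hJ, W, h1, h2, h3, h4⟩ := hB I hI U hU hUc
  exact ⟨J, hJ, W, h1, h2, h3, fun b => (h4 b).trans (by omega)⟩

/-- the inclusion of the first `k'` coordinates -/
private noncomputable def last_inc (p : ℕ) [Fact p.Prime] (k' k : ℕ) : (Fin k' → ℤ_[p]) →+ (Fin k → ℤ_[p]) where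
  toFun v := fun i => if h : i.val < k' then v ⟨i.val, h⟩ else 0
  map_zero' := by
    funext i
    simp
  map_add' v w := by
    funext i
    by_cases h : i.val < k'
    · simp [h]
    · simp [h]

private theorem last_rank {p : ℕ} [Fact p.Prime] {k' k : ℕ} (hk : k' ≤ k) {G : Type} [Group G] [TopologicalSpace G]
    (h : ∃ ι : Multiplicative (Fin k → ℤ_[p]) →* G, Continuous ι ∧ Function.Injective ι) :
    ∃ ι : Multiplicative (Fin k' → ℤ_[p]) →* G, Continuous ι ∧ Function.Injective ι := by
  obtain ⟨ι, hc, hi⟩ := h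
  refine ⟨ι.comp (AddMonoidHom.toMultiplicative (last_inc p k' k)), ?_, ?_⟩
  · have h1 : Continuous (last_inc p k' k) := by
      refine continuous_pi fun i => ?_
      show Continuous (fun v : Fin k' → ℤ_[p] => if h : i.val < k' then v ⟨i.val, h⟩ else 0)
      by_cases h : i.val < k'
      · simp only [h, dif_pos]
        exact continuous_apply _
      · simp only [h, dif_neg, not_false_eq_true]
        exact continuous_const
    exact hc.comp h1
  · intro v w hvw
    have h1 : AddMonoidHom.toMultiplicative (last_inc p k' k) v = AddMonoidHom.toMultiplicative (last_inc p k' k) w :=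
      hi hvw
    have h2 : last_inc p k' k v.toAdd = last_inc p k' k w.toAdd := h1
    have h3 : v.toAdd = w.toAdd := by
      funext i
      have h4 := congrFun h2 ⟨i.val, by omega⟩
      have e : ∀ u : Fin k' → ℤ_[p], last_inc p k' k u ⟨i.val, by omega⟩ = u i := by
        intro u
        show (if h : i.val < k' then u ⟨i.val, h⟩ else 0) = u i
        rw [dif_pos i.isLt]
      rw [e, e] at h4
      exact h4
    exact h3

/-- All orbit dimensions `d` with `d ≤ k + 2` and `d < m + n`. -/
theorem large_rank {p : ℕ} [Fact p.Prime] {k m n d : ℕ} (hk : 1 ≤ k) (hm : 0 < m) (hn : 0 < n) (hdk : d ≤ k + 2)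
    (hdm : d < m + n) {G : Type} [Group G] [TopologicalSpace G] [IsTopologicalGroup G] [CompactSpace G]
    [TotallyDisconnectedSpace G]
    [MulAction G (Menger (Fin (2 * (m + n) + 1)) (m + n))] [MulAction G (Menger (Fin (2 * n + 1)) n)]
    [ContinuousSMul G (Menger (Fin (2 * (m + n) + 1)) (m + n))] [ContinuousSMul G (Menger (Fin (2 * n + 1)) n)]
    (hG : ∃ ι : Multiplicative (Fin k → ℤ_[p]) →* G, Continuous ι ∧ Function.Injective ι)
    (hfree : ∀ (g : G) (y : Menger (Fin (2 * n + 1)) n), g • y = y → g = 1)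
    (hd : CovDimLE (MulAction.orbitRel.Quotient G (Menger (Fin (2 * n + 1)) n)) d) :
    ¬ ∃ f : Menger (Fin (2 * (m + n) + 1)) (m + n) → Menger (Fin (2 * n + 1)) n,
      Continuous f ∧ ∀ (g : G) (x : Menger (Fin (2 * (m + n) + 1)) (m + n)), f (g • x) = g • f x := by
  have hnt : Nontrivial G := by
    obtain ⟨ι, -, hi⟩ := hG
    have : Nontrivial (Multiplicative (Fin k → ℤ_[p])) := by
      have : Nonempty (Fin k) := ⟨⟨0, hk⟩⟩
      have : Nontrivial (Fin k → ℤ_[p]) := Function.nontrivial
      exact inferInstance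
    exact hi.nontrivial
  by_cases hn1 : n = 1
  · subst hn1
    rintro ⟨f, hf, hfe⟩
    have : CompactSpace (Menger (Fin (2 * (m + 1) + 1)) (m + 1)) := isCompact_iff_compactSpace.mp (menger_isCompact _)
    have : CompactSpace (Menger (Fin (2 * 1 + 1)) 1) := isCompact_iff_compactSpace.mp (menger_isCompact _)
    have : ConnectedSpace (Menger (Fin (2 * (m + 1) + 1)) (m + 1)) := menger_connected (by omega)
    have : LocallyConnectedSpace (Menger (Fin (2 * (m + 1) + 1)) (m + 1)) := menger_locallyConnected (by omega)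
    exact no_equivariant_map (G := G) (X := Menger (Fin (2 * (m + 1) + 1)) (m + 1))
      (Y := Menger (Fin (2 * 1 + 1)) 1) (f := f) (fun φ => menger_lift (by omega) φ)
      (fun y U hU hy => menger_one_boundary y U hU hy) hf hfe hfree
  · by_cases hd3 : d ≤ 3
    · exact menger_three hm (by omega) hfree (covDimLE_mono hd3 hd)
    · obtain ⟨k', hk'⟩ : ∃ k', d = k' + 2 := ⟨d - 2, by omega⟩
      obtain ⟨ι, hc, hi⟩ := last_rank (k' := k') (by omega) hG
      exact menger_rank (k := k') (by omega) (by omega) ι hc hi hfree (covDimLE_mono (by omega) hd)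

end AGR
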