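import Pool.Agent.AGR.FinS

/-!
# AGR/LastS: the final form
-/

set_option autoImplicit false

namespace AGR

open AGV Pool.Agent.Helper87.AG

theorem covDimLE_monoS {B : Type} [TopologicalSpace B] {d d' : ℕ} (h : d ≤ d') (hB : CovDimLE B d) : CovDimLE B d' := by
  intro I hI U hU hUc
  obtain ⟨J, hJ, W, h1, h2, h3, h4⟩ := hB I hI U hU hUc
  exact ⟨J, hJ, W, h1, h2, h3, fun b => (h4 b).trans (by omega)⟩

end AGR
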