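import Pool.Agent.AGR.LFill
import Pool.Agent.AGV.Lst

/-!
# AGR/Ops: the operators `P r` and `R`

`lfill` twice: for `R` with `n = k + 2`, `e = 1`, for `P` with `n = k + 2`, `e = 0`.
-/

set_option autoImplicit false

namespace AGR

open AGV

private theorem ops_nil {X : Type} (f : X → X) : mp f (Finsupp.single [] 1) = Finsupp.single [] 1 := by
  rw [mp_single, List.map_nil]

/-- the operator `P` for one isometry -/
private theorem ops_P {X : Type} [MetricSpace X] (k : ℕ) {ρ' δP η μη μ' : ℝ}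
    (hμ' : 0 < μ') (hμη : μ' ≤ μη) (hμδ : μ' ≤ δP / 2)
    (hD : ∀ (Γ : Type) [Group Γ] [MulAction Γ X], (∀ (γ : Γ) (x y : X), dist (γ • x) (γ • y) = dist x y) →
        (∀ (γ : Γ) (x : X), γ • x = x → γ = 1) →
      ∀ (s : ℤ) (u : Ch X →ₗ[ℤ] Ch X), (∀ (γ : Γ) (z : Ch X), u (mp (γ • ·) z) = mp (γ • ·) (u z)) →
        u (Finsupp.single [] 1) = 0 →
        (∀ l : List X, 1 ≤ l.length → l.length ≤ k + 2 → Msh μ' l → u (Finsupp.single l 1) ∈
          SP (fun l' : List X => l'.length = l.length + 0 ∧ Msh μη l' ∧ ∀ y ∈ l', ∀ x ∈ l, dist y x < δP)) →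
        (∀ l : List X, 1 ≤ l.length → l.length ≤ k + 2 → Msh μ' l →
          bd (u (Finsupp.single l 1)) + s • u (bd (Finsupp.single l 1)) = 0) →
        ∃ D : Ch X →ₗ[ℤ] Ch X, (∀ (γ : Γ) (z : Ch X), D (mp (γ • ·) z) = mp (γ • ·) (D z)) ∧
          D (Finsupp.single [] 1) = 0 ∧
          (∀ l : List X, 1 ≤ l.length → l.length ≤ k + 2 → Msh μ' l → D (Finsupp.single l 1) ∈
            SP (fun l' : List X => l'.length = l.length + 0 + 1 ∧ Msh η l' ∧ ∀ y ∈ l', ∀ x ∈ l, dist y x < ρ')) ∧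
          (∀ l : List X, 1 ≤ l.length → l.length ≤ k + 2 → Msh μ' l →
            bd (D (Finsupp.single l 1)) = u (Finsupp.single l 1) + s • D (bd (Finsupp.single l 1))))
    (Γ : Type) [CommGroup Γ] [MulAction Γ X] (hiso : ∀ (γ : Γ) (x y : X), dist (γ • x) (γ • y) = dist x y)
    (hfree : ∀ (γ : Γ) (x : X), γ • x = x → γ = 1) (hsm : ∀ (γ : Γ) (x : X), dist (γ • x) x < δP / 2) (g : Γ) :
    ∃ D : Ch X →ₗ[ℤ] Ch X, (∀ (γ : Γ) (z : Ch X), D (mp (γ • ·) z) = mp (γ • ·) (D z)) ∧
      D (Finsupp.single [] 1) = 0 ∧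
      (∀ l : List X, 1 ≤ l.length → l.length ≤ k + 2 → Msh μ' l → D (Finsupp.single l 1) ∈
        SP (fun l' : List X => l'.length = l.length + 1 ∧ Msh η l' ∧ ∀ y ∈ l', ∀ x ∈ l, dist y x < ρ')) ∧
      (∀ l : List X, 1 ≤ l.length → l.length ≤ k + 2 → Msh μ' l →
        bd (D (Finsupp.single l 1)) = mp (g • ·) (Finsupp.single l 1) - Finsupp.single l 1 -
          D (bd (Finsupp.single l 1))) := by
  have hcomm : ∀ (γ : Γ) (z : Ch X), mp (g • ·) (mp (γ • ·) z) = mp (γ • ·) (mp (g • ·) z) := by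
    intro γ z
    rw [mp_mp, mp_mp]
    congr 2
    funext x
    exact smul_comm g γ x
  obtain ⟨D, hD1, hD2, hD3, hD4⟩ := hD Γ hiso hfree (-1) (mp (fun x : X => g • x) - LinearMap.id)
    (by
      intro γ z
      rw [LinearMap.sub_apply, LinearMap.sub_apply, LinearMap.id_apply, LinearMap.id_apply, map_sub, hcomm])
    (by rw [LinearMap.sub_apply, LinearMap.id_apply, ops_nil, sub_self])
    (by
      intro l h1 h2 hm
      rw [LinearMap.sub_apply, LinearMap.id_apply, mp_single]
      refine Submodule.sub_mem _ (single_mem ⟨?_, ?_, ?_⟩ 1) (single_mem ⟨rfl, ?_, ?_⟩ 1)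
      · rw [List.length_map, Nat.add_zero]
      · intro x hx y hy
        rw [List.mem_map] at hx hy
        obtain ⟨x, hx, rfl⟩ := hx
        obtain ⟨y, hy, rfl⟩ := hy
        rw [hiso]
        exact (hm x hx y hy).trans_le hμη
      · intro y hy x hx
        rw [List.mem_map] at hy
        obtain ⟨y, hy, rfl⟩ := hy
        have h3 := dist_triangle (g • y) y x
        have h4 := hsm g y
        have h5 := hm y hy x hx
        linarith
      · intro x hx y hy
        exact (hm x hx y hy).trans_le hμη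
      · intro y hy x hx
        have h5 := hm y hy x hx
        linarith)
    (by
      intro l h1 h2 hm
      rw [LinearMap.sub_apply, LinearMap.sub_apply, LinearMap.id_apply, LinearMap.id_apply, map_sub, bd_mp,
        neg_smul, one_smul]
      abel)
  refine ⟨D, hD1, hD2, fun l h1 h2 hm => hD3 l h1 h2 hm, fun l h1 h2 hm => ?_⟩
  rw [hD4 l h1 h2 hm, LinearMap.sub_apply, LinearMap.id_apply, neg_smul, one_smul, sub_eq_add_neg _ (D _)]

/-- chains from lists: fine chains -/
private theorem ops_fin {X : Type} [MetricSpace X] {k j m : ℕ} {μ' η ε : ℝ} (D : Ch X →ₗ[ℤ] Ch X)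
    (hD : ∀ l : List X, 1 ≤ l.length → l.length ≤ k + 2 → Msh μ' l → D (Finsupp.single l 1) ∈
        SP (fun l' : List X => l'.length = l.length + m ∧ Msh η l' ∧ ∀ y ∈ l', ∀ x ∈ l, dist y x < ε))
    (h1 : 1 ≤ j) (h2 : j ≤ k + 2) : ∀ z ∈ Fi (X := X) μ' j, D z ∈ Fi (X := X) η (j + m) := by
  intro z hz
  refine lin_mem (P := fun l : List X => l.length = j ∧ Msh μ' l) D (Fi η (j + m)) (fun l hl => ?_) hz
  have h3 := hD l (by rw [hl.1]; exact h1) (by rw [hl.1]; exact h2) hl.2
  refine SP_mono (fun l' hl' => ?_) h3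
  exact ⟨by rw [hl'.1, hl.1], hl'.2.1⟩

/-- chains from lists: chains near `A` -/
private theorem ops_near {X : Type} [MetricSpace X] {k j m : ℕ} {μ' η ε ρ t : ℝ} (A : Set X) (hρ : ε ≤ ρ)
    (D : Ch X →ₗ[ℤ] Ch X)
    (hD : ∀ l : List X, 1 ≤ l.length → l.length ≤ k + 2 → Msh μ' l → D (Finsupp.single l 1) ∈
        SP (fun l' : List X => l'.length = l.length + m ∧ Msh η l' ∧ ∀ y ∈ l', ∀ x ∈ l, dist y x < ε))
    (h1 : 1 ≤ j) (h2 : j ≤ k + 2) :
    ∀ z ∈ Ne A μ' j t, D z ∈ Ne A η (j + m) (t + ρ) := by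
  intro z hz
  refine lin_mem (P := fun l : List X => l.length = j ∧ Msh μ' l ∧ Cl A t l) D (Ne A η (j + m) (t + ρ))
    (fun l hl => ?_) hz
  have h3 := hD l (by rw [hl.1]; exact h1) (by rw [hl.1]; exact h2) hl.2.1
  refine SP_mono (fun l' hl' => ?_) h3
  refine ⟨by rw [hl'.1, hl.1], hl'.2.1, fun y hy => ?_⟩
  have h4 : 0 < l.length := by rw [hl.1]; exact h1
  obtain ⟨x, hx⟩ := List.exists_mem_of_length_pos h4
  obtain ⟨a, ha, hxa⟩ := hl.2.2 x hx
  refine ⟨a, ha, ?_⟩
  have h5 := hl'.2.2 y hy x hx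
  have h6 := dist_triangle y x a
  linarith

theorem ops {X : Type} [MetricSpace X] (k : ℕ) (hv : ∀ j, 1 ≤ j → j ≤ k + 3 → VLC X j) {ρ : ℝ} (hρ : 0 < ρ) :
    ∃ δ : ℝ, 0 < δ ∧ ∀ L : ℝ, 0 < L → ∃ κ : ℝ, 0 < κ ∧
      ∀ (Γ : Type) [CommGroup Γ] [MulAction Γ X], (∀ (γ : Γ) (x y : X), dist (γ • x) (γ • y) = dist x y) →
        (∀ (γ : Γ) (x : X), γ • x = x → γ = 1) → (∀ (γ : Γ) (x : X), dist (γ • x) x < δ) →
      ∀ (g : ℕ → Γ) (n : ℕ), (∀ x : X, dist ((g 0) ^ n • x) x < κ) →
        ∃ (μ : ℕ → ℝ) (P : ℕ → Ch X →ₗ[ℤ] Ch X) (R : Ch X →ₗ[ℤ] Ch X), Opr k ρ L (fun r x => g r • x) n μ P R := by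
  obtain ⟨δR, hδR, hδRρ, hR⟩ := lfill (X := X) (k + 2) 1 (fun j h1 h2 => hv (j + 1) (by omega) (by omega)) hρ
  have hρ' : 0 < min ρ (δR / 3) := lt_min hρ (by linarith)
  obtain ⟨δP, hδP, hδPρ, hP⟩ := lfill (X := X) (k + 2) 0 (fun j h1 h2 => hv (j + 0) (by omega) (by omega)) hρ'
  choose! mP hmP using hP
  refine ⟨min (δP / 2) (δR / 3), lt_min (by linarith) (by linarith), fun L hL => ?_⟩
  obtain ⟨μR, hμR, hμRL, hμRδ, hRD⟩ := hR L hL
  -- the sequence of meshes
  let μ : ℕ → ℝ := fun r => Nat.rec μR (fun _ m => min (mP m) (min (μR / 2) (min (δP / 2) (δR / 3)))) r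
  have hμ0 : μ 0 = μR := rfl
  have hμs : ∀ r, μ (r + 1) = min (mP (μ r)) (min (μR / 2) (min (δP / 2) (δR / 3))) := fun r => rfl
  have hμpos : ∀ r, 0 < μ r := by
    intro r
    induction r with
    | zero => rw [hμ0]; exact hμR
    | succ r ih =>
      rw [hμs]
      exact lt_min (hmP _ ih).1 (lt_min (by linarith) (lt_min (by linarith) (by linarith)))
  have hμ1 : ∀ r, μ (r + 1) ≤ mP (μ r) := fun r => by rw [hμs]; exact min_le_left _ _
  have hμ2 : ∀ r, μ (r + 1) ≤ μR / 2 := fun r => by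
    rw [hμs]; exact (min_le_right _ _).trans (min_le_left _ _)
  have hμ3 : ∀ r, μ (r + 1) ≤ δP / 2 := fun r => by
    rw [hμs]; exact (min_le_right _ _).trans ((min_le_right _ _).trans (min_le_left _ _))
  have hμ4 : ∀ r, μ (r + 1) ≤ δR / 3 := fun r => by
    rw [hμs]; exact (min_le_right _ _).trans ((min_le_right _ _).trans (min_le_right _ _))
  refine ⟨min (μR / 2) (δR / 3), lt_min (by linarith) (by linarith), ?_⟩
  intro Γ _ _ hiso hfree hsm g n hgn
  have hsmP : ∀ (γ : Γ) (x : X), dist (γ • x) x < δP / 2 := fun γ x => (hsm γ x).trans_le (min_le_left _ _)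
  have hsmR : ∀ (γ : Γ) (x : X), dist (γ • x) x < δR / 3 := fun γ x => (hsm γ x).trans_le (min_le_right _ _)
  have hPex := fun r => ops_P (X := X) k (hμpos (r + 1)) (hμ1 r) (hμ3 r)
    ((hmP (μ r) (hμpos r)).2.2.2 (μ (r + 1)) (hμpos (r + 1)) (hμ1 r)) Γ hiso hfree hsmP (g r)
  choose P hP1 hP2 hP3 hP4 using hPex
  -- the chain map for `R`
  let u : Ch X →ₗ[ℤ] Ch X :=
    (∑ t ∈ Finset.range n, mp (fun x : X => (g 0) ^ t • x) ∘ₗ P 0) - pr id (fun x : X => (g 0) ^ n • x)
  have hu : ∀ z, u z = (∑ t ∈ Finset.range n, mp (fun x : X => (g 0) ^ t • x) (P 0 z)) -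
      pr id (fun x : X => (g 0) ^ n • x) z := by
    intro z
    simp only [u, LinearMap.sub_apply, LinearMap.sum_apply, LinearMap.comp_apply]
  have hPbd : ∀ r z (j : ℕ), 1 ≤ j → j ≤ k + 2 → z ∈ Fi (X := X) (μ (r + 1)) j →
      bd (P r z) = mp (fun x : X => g r • x) z - z - P r (bd z) := by
    intro r z j h1 h2 hz
    refine lin_eq (P := fun l : List X => l.length = j ∧ Msh (μ (r + 1)) l) (bd ∘ₗ P r)
      (mp (fun x : X => g r • x) - LinearMap.id - P r ∘ₗ bd) (fun l hl => ?_) hz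
    rw [LinearMap.comp_apply, LinearMap.sub_apply, LinearMap.sub_apply, LinearMap.comp_apply, LinearMap.id_apply]
    exact hP4 r l (by rw [hl.1]; exact h1) (by rw [hl.1]; exact h2) hl.2
  obtain ⟨R, hR1, hR2, hR3, hR4⟩ := hRD (μ 1) (hμpos 1) ((hμ2 0).trans (by linarith)) Γ hiso hfree 1 u
    (by
      intro γ z
      rw [hu, hu, map_sub, map_sum]
      congr 1
      · refine Finset.sum_congr rfl fun t _ => ?_
        rw [hP1, mp_mp, mp_mp]
        congr 2
        funext x
        exact smul_comm _ γ x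
      · rw [pr_mp, mp_pr]
        congr 2
        funext x
        exact smul_comm _ γ x)
    (by
      rw [hu, hP2, pr_single]
      simp [prL])
    (by
      intro l h1 h2 hm
      rw [hu]
      refine Submodule.sub_mem _ (Submodule.sum_mem _ fun t _ => ?_) ?_
      · refine mp_mem _ ?_ (hP3 0 l h1 h2 hm)
        rintro l' ⟨h3, h4, h5⟩
        refine ⟨by rw [List.length_map, h3], ?_, ?_⟩
        · intro x hx y hy
          rw [List.mem_map] at hx hy
          obtain ⟨x, hx, rfl⟩ := hx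
          obtain ⟨y, hy, rfl⟩ := hy
          rw [hiso]
          exact h4 x hx y hy
        · intro y hy x hx
          rw [List.mem_map] at hy
          obtain ⟨y, hy, rfl⟩ := hy
          have h6 := h5 y hy x hx
          have h7 := hsmR ((g 0) ^ t) y
          have h8 := dist_triangle ((g 0) ^ t • y) y x
          have h9 := min_le_right ρ (δR / 3)
          linarith
      · rw [pr_single, one_smul]
        refine SP_mono ?_ (prL_mem _ _ l)
        rintro l' ⟨h3, h4⟩
        have hk1 : ∀ x, dist ((g 0) ^ n • x) x < μR / 2 := fun x => (hgn x).trans_le (min_le_left _ _)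
        have hk2 : ∀ x, dist ((g 0) ^ n • x) x < δR / 3 := fun x => (hgn x).trans_le (min_le_right _ _)
        have hm2 := hμ2 0
        have hm4 := hμ4 0
        refine ⟨h3, ?_, ?_⟩
        · intro y hy y' hy'
          obtain ⟨x, hx, h5⟩ := h4 y hy
          obtain ⟨x', hx', h5'⟩ := h4 y' hy'
          have h6 := hm x hx x' hx'
          have h7 := hk1 x
          have h7' := hk1 x'
          rcases h5 with h5 | h5 <;> rcases h5' with h5' | h5' <;> rw [h5, h5']
          · rw [id, id]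
            linarith
          · have h8 := dist_triangle x x' ((g 0) ^ n • x')
            rw [dist_comm x' ((g 0) ^ n • x')] at h8
            rw [id]
            linarith
          · have h8 := dist_triangle ((g 0) ^ n • x) x x'
            rw [id]
            linarith
          · rw [hiso]
            linarith
        · intro y hy x hx
          obtain ⟨x', hx', h5⟩ := h4 y hy
          have h6 := hm x' hx' x hx
          have h7 := hk2 x'
          rcases h5 with h5 | h5 <;> rw [h5]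
          · rw [id]
            linarith
          · have h8 := dist_triangle ((g 0) ^ n • x') x' x
            linarith)
    (by
      intro l h1 h2 hm
      rw [one_smul]
      have hz : Finsupp.single l (1 : ℤ) ∈ Fi (X := X) (μ 1) l.length := single_mem ⟨rfl, hm⟩ 1
      generalize Finsupp.single l (1 : ℤ) = z at hz
      rw [hu, hu, map_sub, map_sum]
      have h3 : ∀ t ∈ Finset.range n, bd (mp (fun x : X => (g 0) ^ t • x) (P 0 z)) =
          (mp (fun x : X => (g 0) ^ (t + 1) • x) z - mp (fun x : X => (g 0) ^ t • x) z) -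
            mp (fun x : X => (g 0) ^ t • x) (P 0 (bd z)) := by
        intro t _
        have h7 : (fun x : X => (g 0) ^ t • x) ∘ (fun x : X => g 0 • x) = fun x : X => (g 0) ^ (t + 1) • x := by
          funext x
          simp only [Function.comp]
          rw [pow_succ, mul_smul]
        rw [bd_mp, hPbd 0 z l.length h1 h2 hz, map_sub, map_sub, mp_mp, h7]
      rw [Finset.sum_congr rfl h3, Finset.sum_sub_distrib,
        Finset.sum_range_sub (fun t => mp (fun x : X => (g 0) ^ t • x) z) n]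
      have h4 := bd_pr (id : X → X) (fun x : X => (g 0) ^ n • x) z
      have h5 : mp (fun x : X => (g 0) ^ 0 • x) z = z := by
        have : (fun x : X => (g 0) ^ 0 • x) = id := by
          funext x
          rw [pow_zero, one_smul]
          rfl
        rw [this, mp_id]
      rw [mp_id] at h4
      have h6 : bd (pr id (fun x : X => (g 0) ^ n • x) z) =
          mp (fun x : X => (g 0) ^ n • x) z - z - pr id (fun x : X => (g 0) ^ n • x) (bd z) := by
        rw [← h4]
        abel
      rw [h5, h6]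
      abel)
  have hit : ∀ t : ℕ, (fun x : X => g 0 • x)^[t] = fun x : X => (g 0) ^ t • x := by
    intro t
    exact smul_iterate (g 0) t
  refine ⟨μ, P, R, ?_⟩
  refine
    { μ_pos := hμpos
      μ_anti := fun r => (hμ1 r).trans (hmP _ (hμpos r)).2.1
      μ_zero := hμRL
      a_iso := fun r x y => hiso (g r) x y
      a_comm := fun r s x => smul_comm (g r) (g s) x
      P_fin := fun r j h1 h2 => ops_fin (P r) (hP3 r) h1 h2
      P_mem := fun r j A t h1 h2 => ops_near A (min_le_left ρ (δR / 3)) (P r) (hP3 r) h1 h2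
      P_bd := fun r j h1 h2 z hz => hPbd r z j h1 h2 hz
      P_comm := fun r s z => hP1 r (g s) z
      R_fin := fun j h1 h2 => ops_fin R hR3 h1 h2
      R_mem := fun j A t h1 h2 => ops_near A le_rfl R hR3 h1 h2
      R_bd := ?_
      R_comm := fun s z => hR1 (g s) z }
  intro j h1 h2 z hz
  rw [hit n, Finset.sum_congr rfl (fun t _ => by rw [hit t]), ← hu]
  refine lin_eq (P := fun l : List X => l.length = j ∧ Msh (μ 1) l) (bd ∘ₗ R) (u + R ∘ₗ bd) (fun l hl => ?_) hz
  rw [LinearMap.comp_apply, LinearMap.add_apply, LinearMap.comp_apply,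
    hR4 l (by rw [hl.1]; exact h1) (by rw [hl.1]; exact h2) hl.2, one_smul]

end AGR
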