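import Pool.Agent.AGR.LFillD

/-!
# AGR/TQ: the right-hand sides for the operators `R S`

PROOF PLAN.  `tt_comm`: `mp_mp`, `mp_pr`, `pr_mp` and commutativity of `Γ` (`smul_smul`, `mul_comm`).  `tt_nil`: `P (insert 0 S) [] = 0` (`insert 0 S` is nonempty), `pr _ _ (P S []) = 0` (`P S [] = 0`, or `= [] ` and `prL _ _ [] = 0`).
`tt_mem`: the lists of `mp (g 0 ^ t • ·) (P (insert 0 S) l)` are `l'.map (g 0 ^ t • ·)`, `l'` in `P (insert 0 S) l`: same mesh (isometry), `dq q (γ • y) x ≤ dq q (γ • y) y + dq q y x < δ + δ₁` (`hdq.tri`, `hdq.le_zero`).  The lists of the prism (`pr_mem`, `prL_mem`) of a list `l'` of `P S l` (`q` points) have `q + 1` points `y` or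
`g 0 ^ N • y` with `y ∈ l'`: mutual distances in `dq (q + 1) ≤ dq q` (`hdq.anti`) `< μ₁ + κ` (or `< μ₁`), within `κ + δ₁` resp. `δ₁` of `x`, where `κ ≤ δ`.
`tt_bd`: write `g r` for `mp (g r • ·)`.  With the relation for `P (insert 0 S) z`, `0 ∉ S`: `sn (insert 0 S) 0 = 1`, `(insert 0 S).erase 0 = S`, for `r ∈ S`: `sn (insert 0 S) r = - sn S r`, `(insert 0 S).erase r = insert 0 (S.erase r)`, card `= S.card + 1`:
`bd (P (insert 0 S) z) = (g 0 - 1) P S z - ∑ r ∈ S, sn S r • (g r - 1) P (insert 0 (S.erase r)) z - (-1) ^ S.card • P (insert 0 S) (bd z)`.  Apply `∑ t < N, g 0 ^ t` (commutes with `bd`: `bd_mp`, and with `g r`); `∑ t < N, g 0 ^ t (g 0 - 1) = g 0 ^ N - 1` (`Finset.sum_range_sub`; `mp_mp`).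
`bd (pr id (g 0 ^ N) (P S z)) = g 0 ^ N P S z - P S z - pr (bd (P S z))` (`bd_pr`, `mp_id`), `pr (bd (P S z)) = ∑ r ∈ S, sn S r • (g r - 1) pr (P (S.erase r) z) + (-1) ^ S.card • pr (P S (bd z))` (`mp_pr`, `pr_mp`: `pr id h (mp g z) = mp g (pr id h z)` if `g ∘ h = h ∘ g`).
-/

set_option autoImplicit false

namespace AGR

open AGV

/-- `∑ t < N, (g 0) ^ t P (insert 0 S) - E (P S)`, where `E` is the prism from the identity to `(g 0) ^ N` -/
noncomputable def TT {X Γ : Type} [CommGroup Γ] [MulAction Γ X] (g : ℕ → Γ) (N : ℕ) (P : Finset ℕ → Ch X →ₗ[ℤ] Ch X)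
    (S : Finset ℕ) : Ch X →ₗ[ℤ] Ch X :=
  (∑ t ∈ Finset.range N, mp (fun x : X => (g 0) ^ t • x) ∘ₗ P (insert 0 S)) - pr id (fun x : X => (g 0) ^ N • x) ∘ₗ P S

variable {X Γ : Type} [CommGroup Γ] [MulAction Γ X]

private theorem tq_app (g : ℕ → Γ) (N : ℕ) (P : Finset ℕ → Ch X →ₗ[ℤ] Ch X) (S : Finset ℕ) (z : Ch X) :
    TT g N P S z = (∑ t ∈ Finset.range N, mp (fun x : X => (g 0) ^ t • x) (P (insert 0 S) z)) -
      pr id (fun x : X => (g 0) ^ N • x) (P S z) := by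
  unfold TT
  rw [LinearMap.sub_apply, LinearMap.sum_apply, LinearMap.comp_apply]
  rfl

private theorem tq_mpc (γ δ : Γ) (z : Ch X) :
    mp (fun x : X => γ • x) (mp (fun x : X => δ • x) z) = mp (fun x : X => δ • x) (mp (fun x : X => γ • x) z) := by
  rw [mp_mp, mp_mp]
  congr 2
  funext x
  show γ • δ • x = δ • γ • x
  rw [smul_smul, smul_smul, mul_comm]

private theorem tq_prc (γ h : Γ) (z : Ch X) :
    pr id (fun x : X => h • x) (mp (fun x : X => γ • x) z) = mp (fun x : X => γ • x) (pr id (fun x : X => h • x) z) := by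
  rw [pr_mp, mp_pr]
  congr 2
  funext x
  show h • γ • x = γ • h • x
  rw [smul_smul, smul_smul, mul_comm]

theorem tt_comm (g : ℕ → Γ) (N : ℕ) (P : Finset ℕ → Ch X →ₗ[ℤ] Ch X)
    (hP : ∀ S (γ : Γ) (z : Ch X), P S (mp (γ • ·) z) = mp (γ • ·) (P S z)) (S : Finset ℕ) (γ : Γ) (z : Ch X) :
    TT g N P S (mp (γ • ·) z) = mp (γ • ·) (TT g N P S z) := by
  rw [tq_app, tq_app, map_sub, map_sum, hP, hP, tq_prc]
  congr 1
  exact Finset.sum_congr rfl fun t _ => tq_mpc _ _ _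

theorem tt_nil (g : ℕ → Γ) (N : ℕ) (P : Finset ℕ → Ch X →ₗ[ℤ] Ch X) (hP : ∀ S, S.Nonempty → P S (Finsupp.single [] 1) = 0)
    (hP0 : ∀ z, P ∅ z = z) (S : Finset ℕ) : TT g N P S (Finsupp.single [] 1) = 0 := by
  rw [tq_app, hP (insert 0 S) (Finset.insert_nonempty 0 S)]
  simp only [map_zero, Finset.sum_const_zero, zero_sub, neg_eq_zero]
  rcases S.eq_empty_or_nonempty with h | h
  · rw [h, hP0, pr_single]
    show (1 : ℤ) • (0 : Ch X) = 0
    rw [smul_zero]
  · rw [hP S h, map_zero]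

theorem tt_mem {dq : ℕ → X → X → ℝ} (hdq : DQ dq) (hiso : ∀ (γ : Γ) (q : ℕ) (x y : X), dq q (γ • x) (γ • y) = dq q x y)
    (g : ℕ → Γ) (N : ℕ) (P : Finset ℕ → Ch X →ₗ[ℤ] Ch X) (S : Finset ℕ) {l : List X} {q : ℕ} {μ₁ κ μ δ₁ δ δ₂ : ℝ}
    (h1 : P (insert 0 S) (Finsupp.single l 1) ∈ Ou dq (q + 1) μ₁ δ₁ l) (h2 : P S (Finsupp.single l 1) ∈ Ou dq q μ₁ δ₁ l)
    (hδ : ∀ (γ : Γ) (x : X), dq 0 (γ • x) x < δ) (hκ : ∀ x : X, dq 0 ((g 0) ^ N • x) x < κ) (hκ0 : 0 < κ) (hδ0 : 0 < δ)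
    (hμ : μ₁ + κ ≤ μ) (hδ2 : δ₁ + δ ≤ δ₂) : TT g N P S (Finsupp.single l 1) ∈ Ou dq (q + 1) μ δ₂ l := by
  have hsm : ∀ (q' : ℕ) (γ : Γ) (x : X), dq q' (γ • x) x < δ := fun q' γ x =>
    (hdq.le_zero q' _ _).trans_lt (hδ γ x)
  have hsk : ∀ (q' : ℕ) (x : X), dq q' ((g 0) ^ N • x) x < κ := fun q' x =>
    (hdq.le_zero q' _ _).trans_lt (hκ x)
  rw [tq_app]
  refine Submodule.sub_mem _ (Submodule.sum_mem _ fun t _ => ?_) ?_
  · refine mp_mem _ (fun l' hl' => ?_) h1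
    obtain ⟨ha, hb, hc⟩ := hl'
    refine ⟨?_, ?_, ?_⟩
    · rw [List.length_map, ha]
    · intro x hx y hy
      obtain ⟨x', hx', rfl⟩ := List.mem_map.1 hx
      obtain ⟨y', hy', rfl⟩ := List.mem_map.1 hy
      rw [hiso]
      have := hb x' hx' y' hy'
      linarith
    · intro y hy x hx
      obtain ⟨y', hy', rfl⟩ := List.mem_map.1 hy
      have e1 := hdq.tri (q + 1) ((g 0) ^ t • y') y' x
      have e2 := hsm (q + 1) ((g 0) ^ t) y'
      have e3 := hc y' hy' x hx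
      linarith
  · refine pr_mem _ _ (fun l₁ hl₁ l' hlen hl' => ?_) h2
    obtain ⟨ha, hb, hc⟩ := hl₁
    refine ⟨?_, ?_, ?_⟩
    · rw [hlen, ha]
    · intro x hx y hy
      refine (hdq.anti q x y).trans_lt ?_
      obtain ⟨x', hx', hx2⟩ := hl' x hx
      obtain ⟨y', hy', hy2⟩ := hl' y hy
      have e0 := hb x' hx' y' hy'
      have e1 := hsk q x'
      have e2 := hsk q y'
      rcases hx2 with hx2 | hx2
      · rcases hy2 with hy2 | hy2
        · rw [hx2, hy2]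
          show dq q x' y' < μ
          linarith
        · rw [hx2, hy2]
          show dq q x' ((g 0) ^ N • y') < μ
          have e3 := hdq.tri q x' y' ((g 0) ^ N • y')
          have e4 := hdq.symm q y' ((g 0) ^ N • y')
          linarith
      · rcases hy2 with hy2 | hy2
        · rw [hx2, hy2]
          show dq q ((g 0) ^ N • x') y' < μ
          have e3 := hdq.tri q ((g 0) ^ N • x') x' y'
          linarith
        · rw [hx2, hy2]
          show dq q ((g 0) ^ N • x') ((g 0) ^ N • y') < μ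
          rw [hiso]
          linarith
    · intro y hy x hx
      refine (hdq.anti q y x).trans_lt ?_
      obtain ⟨y', hy', hy2⟩ := hl' y hy
      have e0 := hc y' hy' x hx
      rcases hy2 with hy2 | hy2
      · rw [hy2]
        show dq q y' x < δ₂
        linarith
      · rw [hy2]
        show dq q ((g 0) ^ N • y') x < δ₂
        have e3 := hdq.tri q ((g 0) ^ N • y') y' x
        have e4 := hsm q ((g 0) ^ N) y'
        linarith

private theorem tq_sn0 (S : Finset ℕ) : sn (insert 0 S) 0 = 1 := by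
  unfold sn
  have : (insert 0 S).filter (· < 0) = ∅ := Finset.filter_eq_empty_iff.2 fun x _ => Nat.not_lt_zero x
  rw [this]
  rfl

private theorem tq_snr (S : Finset ℕ) (h0 : 0 ∉ S) {r : ℕ} (hr : r ∈ S) : sn (insert 0 S) r = - sn S r := by
  unfold sn
  have hr0 : 0 < r := Nat.pos_of_ne_zero fun h => h0 (h ▸ hr)
  rw [Finset.filter_insert, if_pos hr0, Finset.card_insert_of_notMem, pow_succ]
  · ring
  · intro h
    exact h0 (Finset.mem_filter.1 h).1

theorem tt_bd (g : ℕ → Γ) (N : ℕ) (P : Finset ℕ → Ch X →ₗ[ℤ] Ch X) (S : Finset ℕ) (h0 : 0 ∉ S) (z : Ch X)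
    (hP : ∀ S', S' = S ∨ S' = insert 0 S → bd (P S' z) =
      (∑ r ∈ S', sn S' r • (mp (g r • ·) (P (S'.erase r) z) - P (S'.erase r) z)) + (-1) ^ S'.card • P S' (bd z)) :
    bd (TT g N P S z) + (∑ r ∈ S, sn S r • (mp (g r • ·) (TT g N P (S.erase r) z) - TT g N P (S.erase r) z)) +
      (-1) ^ S.card • TT g N P S (bd z) = 0 := by
  obtain ⟨T, hT⟩ : ∃ T : Ch X →ₗ[ℤ] Ch X, T = ∑ t ∈ Finset.range N, mp (fun x : X => (g 0) ^ t • x) := ⟨_, rfl⟩
  obtain ⟨E, hE⟩ : ∃ E : Ch X →ₗ[ℤ] Ch X, E = pr id (fun x : X => (g 0) ^ N • x) := ⟨_, rfl⟩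
  have hTa : ∀ w, T w = ∑ t ∈ Finset.range N, mp (fun x : X => (g 0) ^ t • x) w := fun w => by
    rw [hT, LinearMap.sum_apply]
  have hTT : ∀ S' w, TT g N P S' w = T (P (insert 0 S') w) - E (P S' w) := fun S' w => by
    rw [tq_app, hTa, hE]
  have hTb : ∀ w, bd (T w) = T (bd w) := fun w => by
    rw [hTa, hTa, map_sum]
    exact Finset.sum_congr rfl fun t _ => bd_mp _ _
  have hTg : ∀ r w, T (mp (g r • ·) w) = mp (g r • ·) (T w) := fun r w => by
    rw [hTa, hTa, map_sum]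
    exact Finset.sum_congr rfl fun t _ => tq_mpc _ _ _
  have hT0 : ∀ w, T (mp (g 0 • ·) w - w) = mp (fun x : X => (g 0) ^ N • x) w - w := fun w => by
    rw [map_sub, hTa, hTa, ← Finset.sum_sub_distrib]
    have h1 : ∀ t ∈ Finset.range N, mp (fun x : X => (g 0) ^ t • x) (mp (g 0 • ·) w) - mp (fun x : X => (g 0) ^ t • x) w =
        mp (fun x : X => (g 0) ^ (t + 1) • x) w - mp (fun x : X => (g 0) ^ t • x) w := fun t _ => by
      rw [mp_mp]
      congr 3
      funext x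
      show (g 0) ^ t • g 0 • x = (g 0) ^ (t + 1) • x
      rw [smul_smul, pow_succ]
    rw [Finset.sum_congr rfl h1, Finset.sum_range_sub (fun t => mp (fun x : X => (g 0) ^ t • x) w)]
    congr 1
    have h2 : (fun x : X => (g 0) ^ 0 • x) = id := by
      funext x
      show (g 0) ^ 0 • x = x
      rw [pow_zero, one_smul]
    rw [h2, mp_id]
  have hEg : ∀ r w, E (mp (g r • ·) w) = mp (g r • ·) (E w) := fun r w => by
    rw [hE]
    exact tq_prc _ _ _
  have hEb : ∀ w, bd (E w) = mp (fun x : X => (g 0) ^ N • x) w - w - E (bd w) := fun w => by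
    have h1 := bd_pr id (fun x : X => (g 0) ^ N • x) w
    rw [mp_id, ← hE] at h1
    rw [← h1]
    abel
  have hA := hP (insert 0 S) (Or.inr rfl)
  have hB := hP S (Or.inl rfl)
  have hA2 : bd (P (insert 0 S) z) = (mp (g 0 • ·) (P S z) - P S z) -
      (∑ r ∈ S, sn S r • (mp (g r • ·) (P (insert 0 (S.erase r)) z) - P (insert 0 (S.erase r)) z)) -
      (-1) ^ S.card • P (insert 0 S) (bd z) := by
    rw [hA, Finset.sum_insert h0, tq_sn0, Finset.erase_insert h0, Finset.card_insert_of_notMem h0, one_smul]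
    have h1 : ∀ r ∈ S, sn (insert 0 S) r • (mp (g r • ·) (P ((insert 0 S).erase r) z) - P ((insert 0 S).erase r) z) =
        - (sn S r • (mp (g r • ·) (P (insert 0 (S.erase r)) z) - P (insert 0 (S.erase r)) z)) := fun r hr => by
      have hne : (0 : ℕ) ≠ r := fun h => h0 (h ▸ hr)
      rw [tq_snr S h0 hr, Finset.erase_insert_of_ne hne, neg_smul]
    rw [Finset.sum_congr rfl h1, Finset.sum_neg_distrib, pow_succ, mul_neg, mul_one, neg_smul]
    abel
  rw [hTT, map_sub, hTb, hA2, hEb, hB]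
  simp only [map_sub, map_add, map_sum, map_zsmul, hTg, hEg]
  have h3 := hT0 (P S z)
  rw [map_sub, hTg] at h3
  have h4 : ∀ r ∈ S, sn S r • (mp (g r • ·) (TT g N P (S.erase r) z) - TT g N P (S.erase r) z) =
      sn S r • (mp (g r • ·) (T (P (insert 0 (S.erase r)) z)) - T (P (insert 0 (S.erase r)) z)) -
      sn S r • (mp (g r • ·) (E (P (S.erase r) z)) - E (P (S.erase r) z)) := fun r _ => by
    rw [hTT, map_sub, ← smul_sub]
    congr 1
    abel
  rw [Finset.sum_congr rfl h4, Finset.sum_sub_distrib, hTT, h3, smul_sub]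
  abel

end AGR
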