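import Pool.Agent.AGR.SysL
import Pool.Agent.AGR.TQ

/-!
# AGR/OpsS: the operators `P S` and `R S`

PROOF PLAN.  Parameters.  `sysL hdq 2 (k - 1)` for `ρ`: `δR` (`q ≤ (k - 1) + 2 + 2 = k + 3`); `lfillD hdq 1` for `ε = δR`: `δ₀ ≤ δR` (`j + 1 ≤ 4 ≤ k + 3`); `sysL hdq 0 k` for `ε = min ρ (δ₀ / 2)`: `δP`; `δ = min δP (δ₀ / 2)`.  Given `L`: `μR` from the first for `η = L`; `μ₀ ≤ μR` from `lfillD` for `η = μR`;
`μP` from the third for `η = min L (μ₀ / 2)`; `κ = min (μ₀ / 2) δ`-like (positive); `μ = min μP μ₀` (so `μ ≤` all of them), which is the `μ'` of all three.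
`P`: `sysL` with `F S := S ⊆ range k`, `T S = 0`, `R₀ = LinearMap.id` (`Ou`: `LOK dq μ l`, `dq q ≤ dq 0`, `hdq.le_zero`, `μ ≤ μP ≤ δP`).  So `P ∅ = id`, `P S l ∈ Ou dq (l.length + 0 + S.card) (min L (μ₀ / 2)) (min ρ (δ₀ / 2)) l`.
`R`: `T S = TT g N P S` (AGR/TQ), `F S := S ⊆ range k ∧ 0 ∉ S` (so `S.card ≤ k - 1`, `insert 0 S ⊆ range k`).  `R₀` from `lfillD` with `e = 1`, `s = 1`, `u = TT g N P ∅` (`tt_mem` with `q = l.length`, `μ₁ = μ₀ / 2`, `κ ≤ μ₀ / 2`, `δ₁ = δ₀ / 2`; `tt_bd`, `tt_nil`, `tt_comm`); `R₀ l ∈ Ou dq (l.length + 1 + 1) μR δR l`.  `sysL` with `e = 2`: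
`tt_mem` with `q = l.length + S.card` gives `Ou dq (l.length + S.card + 1) μ₀ δ₀ l`, and `l.length + 2 + (S.card - 1) = l.length + S.card + 1`, `μ₀ ≤ μR`, `δ₀ ≤ δR`.
`Sy`: `a r x = g r • x`, `(a 0)^[t] x = (g 0) ^ t • x` (induction or `smul_iterate`).  From lists to chains: `lin_mem`, `lin_eq` (AGV/LstS.lean); `P_mem`, `R_mem`: a list `l'` of `P S l` for a list `l` (`1 ≤ j` points) of `InN`: every `y ∈ l'` is within `ρ` of the head `x` of `l` in `dq q`, and `dq q x a ≤ dq 0 x a < t` for some `a ∈ A`.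
-/

set_option autoImplicit false

namespace AGR

open AGV

private theorem opss_ou_mono {X : Type} {dq : ℕ → X → X → ℝ} {q q' : ℕ} {μ μ' δ δ' : ℝ} {l : List X} (hq : q = q')
    (hμ : μ ≤ μ') (hδ : δ ≤ δ') {z : Ch X} (hz : z ∈ Ou dq q μ δ l) : z ∈ Ou dq q' μ' δ' l := by
  subst hq
  exact SP_mono (fun l' h => ⟨h.1, fun x hx y hy => (h.2.1 x hx y hy).trans_le hμ,
    fun y hy x hx => (h.2.2 y hy x hx).trans_le hδ⟩) hz

private theorem opss_fin {X : Type} {dq : ℕ → X → X → ℝ} {P : Ch X →ₗ[ℤ] Ch X} {c j : ℕ} {μ L η ε : ℝ} (hη : η ≤ L)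
    (h : ∀ l : List X, LOK dq μ l → P (Finsupp.single l 1) ∈ Ou dq (l.length + c) η ε l) (h1 : 1 ≤ j) (h3 : j ≤ 3) :
    ∀ z ∈ InD dq μ j, P z ∈ FiD dq L (j + c) := by
  intro z hz
  refine lin_mem (P := fun l : List X => l.length = j ∧ MshQ (dq 0) μ l) P _ (fun l hl => ?_) hz
  obtain ⟨hl1, hm⟩ := hl
  subst hl1
  exact SP_mono (fun l' h' => ⟨h'.1, fun x hx y hy => (h'.2.1 x hx y hy).trans_le hη⟩) (h l ⟨h1, h3, hm⟩)

private theorem opss_near {X : Type} {dq : ℕ → X → X → ℝ} (hdq : DQ dq) {P : Ch X →ₗ[ℤ] Ch X} {c j : ℕ}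
    {μ L η ε ρ t : ℝ} {A : Set X} (hη : η ≤ L) (hε : ε ≤ ρ)
    (h : ∀ l : List X, LOK dq μ l → P (Finsupp.single l 1) ∈ Ou dq (l.length + c) η ε l) (h1 : 1 ≤ j) (h3 : j ≤ 3) :
    ∀ z ∈ InN dq A μ j t, P z ∈ NeD dq A L (j + c) (t + ρ) := by
  intro z hz
  refine lin_mem (P := fun l : List X => l.length = j ∧ MshQ (dq 0) μ l ∧ ∀ y ∈ l, ∃ x ∈ A, dq 0 y x < t) P _
    (fun l hl => ?_) hz
  obtain ⟨hl1, hm, hA⟩ := hl
  subst hl1
  have hne : l ≠ [] := by
    rintro rfl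
    simp at h1
  obtain ⟨x0, hx0⟩ := List.exists_mem_of_ne_nil l hne
  obtain ⟨a, ha, hxa⟩ := hA x0 hx0
  refine SP_mono (fun l' h' => ⟨h'.1, fun x hx y hy => (h'.2.1 x hx y hy).trans_le hη, fun y hy => ⟨a, ha, ?_⟩⟩)
    (h l ⟨h1, h3, hm⟩)
  have e1 := h'.2.2 y hy x0 hx0
  have e2 := hdq.tri (l.length + c) y x0 a
  have e3 := hdq.le_zero (l.length + c) x0 a
  linarith

private theorem opss_lin {X : Type} {dq : ℕ → X → X → ℝ} {μ : ℝ} {j : ℕ} (h1 : 1 ≤ j) (h3 : j ≤ 3)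
    (φ ψ : Ch X →ₗ[ℤ] Ch X)
    (h : ∀ l : List X, LOK dq μ l → φ (Finsupp.single l 1) = ψ (Finsupp.single l 1)) :
    ∀ z ∈ InD dq μ j, φ z = ψ z := by
  intro z hz
  refine lin_eq (P := fun l : List X => l.length = j ∧ MshQ (dq 0) μ l) φ ψ (fun l hl => ?_) hz
  obtain ⟨hl1, hm⟩ := hl
  subst hl1
  exact h l ⟨h1, h3, hm⟩

private theorem opss_tt {X Γ : Type} [CommGroup Γ] [MulAction Γ X] (g : ℕ → Γ) (N : ℕ) (P : Finset ℕ → Ch X →ₗ[ℤ] Ch X)
    (S : Finset ℕ) (z : Ch X) : TT g N P S z =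
      (∑ t ∈ Finset.range N, mp (((fun (r : ℕ) (x : X) => g r • x) 0)^[t]) (P (insert 0 S) z)) -
        pr id (((fun (r : ℕ) (x : X) => g r • x) 0)^[N]) (P S z) := by
  have hit : ∀ t : ℕ, ((fun (r : ℕ) (x : X) => g r • x) 0)^[t] = fun x : X => (g 0) ^ t • x :=
    fun t => smul_iterate (g 0) t
  unfold TT
  rw [LinearMap.sub_apply, LinearMap.sum_apply, LinearMap.comp_apply, hit N]
  congr 1
  refine Finset.sum_congr rfl fun t _ => ?_
  rw [LinearMap.comp_apply, hit t]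

theorem opsS {X : Type} {dq : ℕ → X → X → ℝ} (hdq : DQ dq) {k : ℕ} (hk : 1 ≤ k) (hv : ∀ q, 1 ≤ q → q ≤ k + 3 → VLD dq q)
    {ρ : ℝ} (hρ : 0 < ρ) :
    ∃ δ : ℝ, 0 < δ ∧ ∀ L : ℝ, 0 < L → ∃ κ : ℝ, 0 < κ ∧
      ∀ (Γ : Type) [CommGroup Γ] [MulAction Γ X], (∀ (γ : Γ) (q : ℕ) (x y : X), dq q (γ • x) (γ • y) = dq q x y) →
        (∀ (γ : Γ) (x : X), γ • x = x → γ = 1) → (∀ (γ : Γ) (x : X), dq 0 (γ • x) x < δ) →
      ∀ (g : ℕ → Γ) (N : ℕ), (∀ x : X, dq 0 ((g 0) ^ N • x) x < κ) →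
        ∃ (μ : ℝ) (P R : Finset ℕ → Ch X →ₗ[ℤ] Ch X), Sy dq k ρ L μ (fun r x => g r • x) N P R := by
  obtain ⟨δR, hδR, hδRρ, HR⟩ := sysL hdq 2 (k - 1) (fun q h1 h2 => hv q h1 (by omega)) hρ
  obtain ⟨δ0, hδ0, hδ0R, H0⟩ := lfillD hdq 1 (fun j h1 h3 => hv (j + 1) (by omega) (by omega)) hδR
  obtain ⟨δP, hδP, hδPle, HP⟩ := sysL hdq 0 k (fun q h1 h2 => hv q h1 (by omega))
    (lt_min hρ (half_pos hδ0))
  refine ⟨min δP (δ0 / 2), lt_min hδP (half_pos hδ0), fun L hL => ?_⟩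
  obtain ⟨μR, hμR, hμRL, hμRδ, HR'⟩ := HR L hL
  obtain ⟨μ0, hμ0, hμ0R, hμ0δ, H0'⟩ := H0 μR hμR
  obtain ⟨μP, hμP, hμPle, hμPδ, HP'⟩ := HP (min L (μ0 / 2)) (lt_min hL (half_pos hμ0))
  refine ⟨μ0 / 2, half_pos hμ0, ?_⟩
  intro Γ _ _ hiso hfree hsm g N hN
  have hμ : 0 < min μP μ0 := lt_min hμP hμ0
  have hsP : ∀ (γ : Γ) (x : X), dq 0 (γ • x) x < δP := fun γ x => (hsm γ x).trans_le (min_le_left _ _)
  have hs0 : ∀ (γ : Γ) (x : X), dq 0 (γ • x) x < δ0 / 2 := fun γ x => (hsm γ x).trans_le (min_le_right _ _)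
  have hsR : ∀ (γ : Γ) (x : X), dq 0 (γ • x) x < δR := fun γ x => (hs0 γ x).trans_le (by linarith)
  -- the operators P
  obtain ⟨P, hPe, hPc, hPn, hPm, hPb⟩ := HP' (min μP μ0) hμ (min_le_left _ _) Γ hiso hfree hsP g
    (fun S => S ⊆ Finset.range k) (fun _ => 0) LinearMap.id
    (fun S r h => (Finset.erase_subset r S).trans h)
    (fun S h => (Finset.card_le_card h).trans (Finset.card_range k).le)
    (fun S _ γ z => by rw [LinearMap.zero_apply, LinearMap.zero_apply, map_zero])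
    (fun S _ => LinearMap.zero_apply _)
    (fun S _ _ l _ => Submodule.zero_mem _)
    (fun S _ l _ => by
      simp only [LinearMap.zero_apply, map_zero, sub_zero, smul_zero, Finset.sum_const_zero, add_zero])
    (fun γ z => rfl)
    (fun l hl => single_mem ⟨rfl, fun x hx y hy =>
        ((hdq.le_zero _ x y).trans_lt (hl.2.2 x hx y hy)).trans_le (min_le_left _ _),
      fun y hy x hx => ((hdq.le_zero _ y x).trans_lt (hl.2.2 y hy x hx)).trans_le
        ((min_le_left _ _).trans hμPδ)⟩ 1)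
    (fun l _ => by rw [LinearMap.zero_apply, zero_add]; rfl)
  have hPm' : ∀ S, S ⊆ Finset.range k → ∀ l : List X, LOK dq (min μP μ0) l →
      P S (Finsupp.single l 1) ∈ Ou dq (l.length + S.card) (min L (μ0 / 2)) (min ρ (δ0 / 2)) l :=
    fun S hS l hl => opss_ou_mono (by omega) le_rfl le_rfl (hPm S hS l hl)
  have hPb' : ∀ S, S ⊆ Finset.range k → ∀ l : List X, LOK dq (min μP μ0) l → bd (P S (Finsupp.single l 1)) =
      (∑ r ∈ S, sn S r • (mp (g r • ·) (P (S.erase r) (Finsupp.single l 1)) - P (S.erase r) (Finsupp.single l 1))) +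
        (-1) ^ S.card • P S (bd (Finsupp.single l 1)) := fun S hS l hl => by
    have h := hPb S hS l hl
    rw [LinearMap.zero_apply, zero_add] at h
    exact h
  have hP0 : ∀ z, P ∅ z = z := fun z => by rw [hPe]; rfl
  have h0k : 0 ∈ Finset.range k := Finset.mem_range.2 (by omega)
  have hins : ∀ S, S ⊆ Finset.range k → insert 0 S ⊆ Finset.range k := fun S hS =>
    Finset.insert_subset h0k hS
  -- the right-hand sides
  have hTm : ∀ S, S ⊆ Finset.range k → 0 ∉ S → ∀ l : List X, LOK dq (min μP μ0) l →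
      TT g N P S (Finsupp.single l 1) ∈ Ou dq (l.length + S.card + 1) μ0 δ0 l := by
    intro S hS h0S l hl
    have e1 := hPm' (insert 0 S) (hins S hS) l hl
    rw [Finset.card_insert_of_notMem h0S, ← add_assoc] at e1
    refine tt_mem hdq hiso g N P S e1 (hPm' S hS l hl) hs0 hN (half_pos hμ0) (half_pos hδ0) ?_ ?_
    · have := min_le_right L (μ0 / 2)
      linarith
    · have := min_le_right ρ (δ0 / 2)
      linarith
  have hTb : ∀ S, S ⊆ Finset.range k → 0 ∉ S → ∀ l : List X, LOK dq (min μP μ0) l →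
      bd (TT g N P S (Finsupp.single l 1)) +
        (∑ r ∈ S, sn S r • (mp (g r • ·) (TT g N P (S.erase r) (Finsupp.single l 1)) -
          TT g N P (S.erase r) (Finsupp.single l 1))) +
        (-1) ^ S.card • TT g N P S (bd (Finsupp.single l 1)) = 0 := by
    intro S hS h0S l hl
    refine tt_bd g N P S h0S (Finsupp.single l 1) fun S' hS' => ?_
    rcases hS' with h | h
    · rw [h]
      exact hPb' S hS l hl
    · rw [h]
      exact hPb' (insert 0 S) (hins S hS) l hl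
  -- the operator for the empty set
  obtain ⟨R0, hR0c, -, hR0m, hR0b⟩ := H0' (min μP μ0) hμ (min_le_right _ _) Γ hiso hfree 1 (TT g N P ∅)
    (tt_comm g N P hPc ∅) (tt_nil g N P hPn hP0 ∅)
    (fun l hl => by
      have h := hTm ∅ (Finset.empty_subset _) (Finset.notMem_empty _) l hl
      exact opss_ou_mono (by simp) le_rfl le_rfl h)
    (fun l hl => by
      have h := hTb ∅ (Finset.empty_subset _) (Finset.notMem_empty _) l hl
      rw [Finset.sum_empty, add_zero, Finset.card_empty, pow_zero] at h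
      exact h)
  -- the operators R
  obtain ⟨R, hRe, hRc, hRn, hRm, hRb⟩ := HR' (min μP μ0) hμ ((min_le_right _ _).trans hμ0R) Γ hiso hfree hsR g
    (fun S => S ⊆ Finset.range k ∧ 0 ∉ S) (TT g N P) R0
    (fun S r h => ⟨(Finset.erase_subset r S).trans h.1, fun h0 => h.2 (Finset.mem_of_mem_erase h0)⟩)
    (fun S h => by
      have h1 : S ⊆ (Finset.range k).erase 0 := fun r hr =>
        Finset.mem_erase.2 ⟨fun h0 => h.2 (h0 ▸ hr), h.1 hr⟩
      have h2 := Finset.card_le_card h1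
      rw [Finset.card_erase_of_mem h0k, Finset.card_range] at h2
      exact h2)
    (fun S _ => tt_comm g N P hPc S)
    (fun S _ => tt_nil g N P hPn hP0 S)
    (fun S hS hne l hl => by
      have hc : 1 ≤ S.card := Finset.card_pos.2 hne
      exact opss_ou_mono (by omega) hμ0R hδ0R (hTm S hS.1 hS.2 l hl))
    (fun S hS l hl => hTb S hS.1 hS.2 l hl)
    hR0c
    (fun l hl => opss_ou_mono (by omega) le_rfl le_rfl (hR0m l hl))
    (fun l hl => by
      have h := hR0b l hl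
      rw [one_smul] at h
      exact h)
  have hRm' : ∀ S, S ⊆ Finset.range k → 0 ∉ S → ∀ l : List X, LOK dq (min μP μ0) l →
      R S (Finsupp.single l 1) ∈ Ou dq (l.length + (S.card + 2)) L ρ l :=
    fun S hS h0S l hl => opss_ou_mono (by omega) le_rfl le_rfl (hRm S ⟨hS, h0S⟩ l hl)
  refine ⟨min μP μ0, P, R, ?_⟩
  constructor
  · exact hμ
  · exact ((min_le_left _ _).trans hμPle).trans (min_le_left _ _)
  · exact hP0
  · intro S hS j h1 h3 z hz
    exact opss_fin (min_le_left _ _) (hPm' S hS) h1 h3 z hz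
  · intro S hS j A t h1 h3 z hz
    exact opss_near hdq (min_le_left _ _) (min_le_left _ _) (hPm' S hS) h1 h3 z hz
  · intro S hS j h1 h3 z hz
    have h := opss_lin h1 h3 (bd ∘ₗ P S)
      ((∑ r ∈ S, sn S r • (mp (g r • ·) ∘ₗ P (S.erase r) - P (S.erase r))) + (-1) ^ S.card • (P S ∘ₗ bd))
      (fun l hl => by
        have h' := hPb' S hS l hl
        simp only [LinearMap.add_apply, LinearMap.sum_apply, LinearMap.smul_apply, LinearMap.sub_apply,
          LinearMap.comp_apply]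
        exact h') z hz
    simp only [LinearMap.add_apply, LinearMap.sum_apply, LinearMap.smul_apply, LinearMap.sub_apply,
      LinearMap.comp_apply] at h
    exact h
  · intro S hS h0S j h1 h3 z hz
    exact opss_fin le_rfl (hRm' S hS h0S) h1 h3 z hz
  · intro S hS h0S j A t h1 h3 z hz
    exact opss_near hdq le_rfl le_rfl (hRm' S hS h0S) h1 h3 z hz
  · intro S hS h0S j h1 h3 z hz
    have h := opss_lin h1 h3 (bd ∘ₗ R S)
      (TT g N P S + (∑ r ∈ S, sn S r • (mp (g r • ·) ∘ₗ R (S.erase r) - R (S.erase r))) +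
        (-1) ^ S.card • (R S ∘ₗ bd))
      (fun l hl => by
        have h' := hRb S ⟨hS, h0S⟩ l hl
        simp only [LinearMap.add_apply, LinearMap.sum_apply, LinearMap.smul_apply, LinearMap.sub_apply,
          LinearMap.comp_apply]
        exact h') z hz
    simp only [LinearMap.add_apply, LinearMap.sum_apply, LinearMap.smul_apply, LinearMap.sub_apply,
      LinearMap.comp_apply] at h
    rw [opss_tt] at h
    exact h

end AGR
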