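import Pool.Agent.AGR.DefsD
import Pool.Agent.AGV.GLL

/-!
# AGR/OrdL: ordered cycles with repeated entries bound

PROOF PLAN.  `AGV.fill` (AGV/GLL.lean) twice, with `Gl l := True`, `X = Z = Fin N`, `N := q`, `N0 := 1`.
(1) Sorting: a chain map `τ` with `τ [] = []`: `u = 0`, `σ = 1`, `D0 = LinearMap.id`; `Cr l = SP (fun l' => l'.length = l.length ∧ l'.Pairwise (· < ·) ∧ ∀ x ∈ l', x ∈ l)`,
`Br l = SP (fun l' => l'.length + 1 = l.length ∧ l'.Pairwise (· < ·) ∧ ∀ x ∈ l', x ∈ l)`.  `hfill`: for a nonempty list `l` let `a` be its smallest entry; `κ : Ch (Fin N) →ₗ Ch (Fin N)` the linear extension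
(`Finsupp.linearCombination`) of `l' ↦ if l'.head? = some a then 0 else single (a :: l') 1`.  For a strictly increasing list `l'` with entries `≥ a`: `bd (κ l') + κ (bd l') = l'`: if `l'` does not start with `a`, then
all entries are `> a`, `κ l' = a :: l'`, `bd (a :: l') = l' - a :: bd l'` and no list of `bd l'` starts with `a`; if `l' = a :: t` then `κ l' = 0`, `bd l' = t - a :: bd t`, `κ (bd l') = a :: t - 0`
(cases on lists; `bdL`).  So a cycle `y ∈ Br l` is `bd (κ y)`, `κ y ∈ Cr l`.
(2) Homotopy: `u = id - τ`, `σ = -1`, `D0 = 0`; `Cr l = SP (fun l' => l'.length = l.length + 1 ∧ ∀ x ∈ l', x ∈ l)`, `Br l = SP (fun l' => l'.length = l.length ∧ ∀ x ∈ l', x ∈ l)`; `hfill`: `w = cone a y` with `a` the head of `l`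
(`bd_cone`).  `hcyc`: `τ` is a chain map on all lists of length `≤ q` (in particular on the faces).
Then for `z`: every list `l` of `z` has `q` entries and `l.toFinset.card ≤ n + 1 < q`; `τ (single l 1) ∈ Cr l = ⊥`-like: a strictly increasing list of length `q` with entries in `l.toFinset` does not exist (`Nodup`,
`List.toFinset_card_of_nodup`), so `τ (single l 1) = 0` (`SP (fun _ => False)`), `τ z = 0` (`lin_eq`), `z = z - τ z + H (bd z) = bd (H z)`, and `w = H z` (`l'.toFinset ⊆ l.toFinset`, `h𝒦`).
-/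

set_option autoImplicit false

namespace AGR

open AGV

private noncomputable def ordl_k {N : ℕ} (a : Fin N) : Ch (Fin N) →ₗ[ℤ] Ch (Fin N) :=
  Finsupp.linearCombination ℤ
    (fun l : List (Fin N) => if l.head? = some a then 0 else Finsupp.single (a :: l) 1)

private theorem ordl_k_single {N : ℕ} (a : Fin N) (l : List (Fin N)) :
    ordl_k a (Finsupp.single l 1) =
      if l.head? = some a then 0 else Finsupp.single (a :: l) 1 := by
  unfold ordl_k
  rw [Finsupp.linearCombination_single, one_smul]

private theorem ordl_k_cone {N : ℕ} (a : Fin N) (z : Ch (Fin N)) : ordl_k a (cone a z) = 0 := by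
  have h := lin_eq (P := fun _ => True) (ordl_k a ∘ₗ cone a) 0 (fun l _ => by
    rw [LinearMap.comp_apply, cone_single, ordl_k_single, LinearMap.zero_apply]
    simp) (z := z) (mem_SP.2 fun _ _ => trivial)
  simpa using h

private theorem ordl_k_lin {N : ℕ} (a : Fin N) {z : Ch (Fin N)}
    (hz : z ∈ SP (fun l : List (Fin N) => l.head? ≠ some a)) : ordl_k a z = cone a z := by
  refine lin_eq (ordl_k a) (cone a) (fun l hl => ?_) hz
  rw [ordl_k_single, if_neg hl, cone_single]

private theorem ordl_bd_single {N : ℕ} (l : List (Fin N)) :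
    bd (Finsupp.single l 1) = bdL l := by
  rw [bd_single, one_smul]

private theorem ordl_k_bd {N : ℕ} (a : Fin N) (l : List (Fin N)) (hp : l.Pairwise (· < ·))
    (ha : ∀ x ∈ l, a ≤ x) :
    bd (ordl_k a (Finsupp.single l 1)) + ordl_k a (bd (Finsupp.single l 1)) =
      Finsupp.single l 1 := by
  rw [ordl_k_single]
  by_cases hh : l.head? = some a
  · rw [if_pos hh, map_zero, zero_add]
    cases l with
    | nil => simp at hh
    | cons b t =>
      rw [List.head?_cons, Option.some.injEq] at hh
      subst hh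
      rw [ordl_bd_single]
      show ordl_k b (Finsupp.single t 1 - cone b (bdL t)) = _
      rw [map_sub, ordl_k_cone, sub_zero, ordl_k_single, if_neg]
      intro h2
      cases t with
      | nil => simp at h2
      | cons c t =>
        rw [List.head?_cons, Option.some.injEq] at h2
        subst h2
        exact lt_irrefl _ ((List.pairwise_cons.1 hp).1 c List.mem_cons_self)
  · rw [if_neg hh, ← cone_single, bd_cone, ordl_k_lin, sub_add_cancel]
    refine bd_mem (P := fun l' => l' = l) ?_ (single_mem (P := fun l' => l' = l) rfl 1)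
    rintro l'' rfl l' hl' _ h2
    have hmem : a ∈ l' := List.mem_of_mem_head? (by rw [h2]; simp)
    have hmem2 : a ∈ l'' := hl'.subset hmem
    cases l'' with
    | nil => simp at hmem2
    | cons b t =>
      rcases List.mem_cons.1 hmem2 with h3 | h3
      · apply hh
        rw [List.head?_cons, h3]
      · have h4 := (List.pairwise_cons.1 hp).1 a h3
        have h5 := ha b List.mem_cons_self
        exact absurd h4 (not_lt.2 h5)

private theorem ordl_fill {N : ℕ} (l : List (Fin N)) (hl : 1 ≤ l.length) (y : Ch (Fin N))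
    (hy : y ∈ SP (fun l' : List (Fin N) => l'.length + 1 = l.length ∧ l'.Pairwise (· < ·) ∧ ∀ x ∈ l', x ∈ l))
    (hb : bd y = 0) :
    ∃ w ∈ SP (fun l' : List (Fin N) => l'.length = l.length ∧ l'.Pairwise (· < ·) ∧ ∀ x ∈ l', x ∈ l),
      bd w = y := by
  obtain ⟨a, ha, hmin⟩ : ∃ a ∈ l, ∀ x ∈ l, a ≤ x := by
    have hne : l.toFinset.Nonempty := by
      cases l with
      | nil => simp at hl
      | cons b t => exact ⟨b, by simp⟩
    refine ⟨l.toFinset.min' hne, List.mem_toFinset.1 (Finset.min'_mem _ _), fun x hx => ?_⟩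
    exact Finset.min'_le _ _ (List.mem_toFinset.2 hx)
  refine ⟨ordl_k a y, ?_, ?_⟩
  · refine lin_mem (ordl_k a) _ (fun l' hl' => ?_) hy
    rw [ordl_k_single]
    split_ifs with hh
    · exact Submodule.zero_mem _
    · refine single_mem ⟨?_, ?_, ?_⟩ 1
      · rw [List.length_cons]
        exact hl'.1
      · rw [List.pairwise_cons]
        refine ⟨fun x hx => ?_, hl'.2.1⟩
        have h1 := hmin x (hl'.2.2 x hx)
        rcases lt_or_eq_of_le h1 with h2 | h2
        · exact h2
        · exfalso
          subst h2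
          cases l' with
          | nil => simp at hx
          | cons b t =>
            rcases List.mem_cons.1 hx with h3 | h3
            · apply hh
              rw [List.head?_cons, h3]
            · have h4 := (List.pairwise_cons.1 hl'.2.1).1 _ h3
              have h5 := hmin b (hl'.2.2 b List.mem_cons_self)
              exact absurd h4 (not_lt.2 h5)
      · intro x hx
        rcases List.mem_cons.1 hx with h3 | h3
        · rw [h3]
          exact ha
        · exact hl'.2.2 x h3
  · have h := lin_eq (bd ∘ₗ ordl_k a + ordl_k a ∘ₗ bd) LinearMap.id (fun l' hl' => by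
      rw [LinearMap.add_apply, LinearMap.comp_apply, LinearMap.comp_apply, LinearMap.id_apply]
      exact ordl_k_bd a l' hl'.2.1 fun x hx => hmin x (hl'.2.2 x hx)) hy
    rw [LinearMap.add_apply, LinearMap.comp_apply, LinearMap.comp_apply, hb, map_zero, add_zero,
      LinearMap.id_apply] at h
    exact h

private theorem ordl_sort (N q : ℕ) : ∃ τ : Ch (Fin N) →ₗ[ℤ] Ch (Fin N),
    τ (Finsupp.single [] 1) = Finsupp.single [] 1 ∧
    ∀ l : List (Fin N), l.length ≤ q →
      τ (Finsupp.single l 1) ∈
        SP (fun l' : List (Fin N) => l'.length = l.length ∧ l'.Pairwise (· < ·) ∧ ∀ x ∈ l', x ∈ l) ∧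
      bd (τ (Finsupp.single l 1)) = τ (bd (Finsupp.single l 1)) := by
  obtain ⟨D, hD1, hD2⟩ := fill (X := Fin N) (Z := Fin N) (fun _ => True) (fun _ _ _ _ => trivial) q 1 1
    0 LinearMap.id
    (fun l => SP (fun l' : List (Fin N) =>
      l'.length = l.length ∧ l'.Pairwise (· < ·) ∧ ∀ x ∈ l', x ∈ l))
    (fun l => SP (fun l' : List (Fin N) =>
      l'.length + 1 = l.length ∧ l'.Pairwise (· < ·) ∧ ∀ x ∈ l', x ∈ l))
    (by
      intro l _ _ _ l' hl' hlen z hz
      exact SP_mono (fun l'' h => ⟨by omega, h.2.1, fun x hx => hl'.subset (h.2.2 x hx)⟩) hz)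
    (by
      intro l _ _ _
      rw [LinearMap.zero_apply]
      exact Submodule.zero_mem _)
    (by
      intro l _ _ _
      rw [LinearMap.zero_apply, LinearMap.zero_apply, map_zero, smul_zero, add_zero])
    (by
      intro l _ hl _ y hy hb
      exact ordl_fill l hl y hy hb)
    (by
      intro l _ hl
      have hl0 : l = [] := List.length_eq_zero_iff.1 (by omega)
      subst hl0
      refine ⟨single_mem ⟨rfl, List.Pairwise.nil, fun x hx => hx⟩ 1, ?_⟩
      rw [LinearMap.id_apply, LinearMap.id_apply, LinearMap.zero_apply, one_smul, zero_add])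
  refine ⟨D, ?_, fun l hl => ?_⟩
  · rw [hD1 [] (by simp), LinearMap.id_apply]
  · have h := hD2 l trivial hl
    refine ⟨h.1, ?_⟩
    rw [h.2, LinearMap.zero_apply, zero_add, one_smul]

private theorem ordl_htpy (N q : ℕ) (τ : Ch (Fin N) →ₗ[ℤ] Ch (Fin N))
    (h0 : τ (Finsupp.single [] 1) = Finsupp.single [] 1)
    (hτ : ∀ l : List (Fin N), l.length ≤ q →
      τ (Finsupp.single l 1) ∈
        SP (fun l' : List (Fin N) => l'.length = l.length ∧ l'.Pairwise (· < ·) ∧ ∀ x ∈ l', x ∈ l) ∧
      bd (τ (Finsupp.single l 1)) = τ (bd (Finsupp.single l 1))) :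
    ∃ H : Ch (Fin N) →ₗ[ℤ] Ch (Fin N), ∀ l : List (Fin N), l.length ≤ q →
      H (Finsupp.single l 1) ∈
        SP (fun l' : List (Fin N) => l'.length = l.length + 1 ∧ ∀ x ∈ l', x ∈ l) ∧
      bd (H (Finsupp.single l 1)) =
        Finsupp.single l 1 - τ (Finsupp.single l 1) - H (bd (Finsupp.single l 1)) := by
  obtain ⟨D, _, hD2⟩ := fill (X := Fin N) (Z := Fin N) (fun _ => True) (fun _ _ _ _ => trivial) q 1
    (-1) (LinearMap.id - τ) 0
    (fun l => SP (fun l' : List (Fin N) => l'.length = l.length + 1 ∧ ∀ x ∈ l', x ∈ l))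
    (fun l => SP (fun l' : List (Fin N) => l'.length = l.length ∧ ∀ x ∈ l', x ∈ l))
    (by
      intro l _ _ _ l' hl' hlen z hz
      exact SP_mono (fun l'' h => ⟨by omega, fun x hx => hl'.subset (h.2 x hx)⟩) hz)
    (by
      intro l _ _ hl
      rw [LinearMap.sub_apply, LinearMap.id_apply]
      refine Submodule.sub_mem _ (single_mem ⟨rfl, fun x hx => hx⟩ 1) ?_
      exact SP_mono (fun l'' h => ⟨h.1, h.2.2⟩) (hτ l hl).1)
    (by
      intro l _ _ hl
      rw [LinearMap.sub_apply, LinearMap.sub_apply, LinearMap.id_apply, LinearMap.id_apply, map_sub,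
        (hτ l hl).2, neg_smul, one_smul, add_neg_cancel])
    (by
      intro l _ hl _ y hy hb
      cases l with
      | nil => simp at hl
      | cons a t =>
        have hm : cone a y ∈ SP (fun l' : List (Fin N) =>
            l'.length = (a :: t).length + 1 ∧ ∀ x ∈ l', x ∈ a :: t) := by
          refine cone_mem a (fun l' hl' => ⟨?_, ?_⟩) hy
          · rw [List.length_cons, hl'.1]
          · intro x hx
            rcases List.mem_cons.1 hx with h3 | h3
            · rw [h3]
              exact List.mem_cons_self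
            · exact hl'.2 x h3
        refine ⟨cone a y, hm, ?_⟩
        rw [bd_cone, hb, map_zero, sub_zero])
    (by
      intro l _ hl
      have hl0 : l = [] := List.length_eq_zero_iff.1 (by omega)
      subst hl0
      refine ⟨Submodule.zero_mem _, ?_⟩
      rw [LinearMap.zero_apply, LinearMap.zero_apply, map_zero, smul_zero, add_zero,
        LinearMap.sub_apply, LinearMap.id_apply, h0, sub_self])
  refine ⟨D, fun l hl => ?_⟩
  have h := hD2 l trivial hl
  refine ⟨h.1, ?_⟩
  rw [h.2, LinearMap.sub_apply, LinearMap.id_apply, neg_smul, one_smul, ← sub_eq_add_neg]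

theorem ordL {N n q : ℕ} (hq : n + 2 ≤ q) (𝒦 : Set (Finset (Fin N))) (h𝒦 : ∀ S ∈ 𝒦, ∀ T, T ⊆ S → T ∈ 𝒦)
    (hcard : ∀ S ∈ 𝒦, S.card ≤ n + 1) {z : Ch (Fin N)} (hz : z ∈ SP (fun l : List (Fin N) => l.length = q ∧ l.toFinset ∈ 𝒦))
    (hb : bd z = 0) : ∃ w ∈ SP (fun l : List (Fin N) => l.length = q + 1 ∧ l.toFinset ∈ 𝒦), bd w = z := by
  obtain ⟨τ, h0, hτ⟩ := ordl_sort N q
  obtain ⟨H, hH⟩ := ordl_htpy N q τ h0 hτ
  refine ⟨H z, ?_, ?_⟩
  · refine lin_mem H _ (fun l hl => ?_) hz
    refine SP_mono (fun l' hl' => ⟨by rw [hl'.1, hl.1], ?_⟩) (hH l (by omega)).1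
    refine h𝒦 _ hl.2 _ (fun x hx => ?_)
    rw [List.mem_toFinset] at hx ⊢
    exact hl'.2 x hx
  · have h := lin_eq (bd ∘ₗ H) (LinearMap.id - H ∘ₗ bd) (fun l hl => by
      have h1 := (hH l (by omega)).2
      have h2 : τ (Finsupp.single l 1) = 0 := by
        have h3 := (hτ l (by omega)).1
        rw [mem_SP] at h3
        rw [← Finsupp.support_eq_empty, Finset.eq_empty_iff_forall_notMem]
        intro l' hl'
        obtain ⟨e1, e2, e3⟩ := h3 l' hl'
        have hnd : l'.Nodup := e2.imp fun h => ne_of_lt h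
        have h4 := List.toFinset_card_of_nodup hnd
        have h5 : l'.toFinset.card ≤ l.toFinset.card := Finset.card_le_card (fun x hx => by
          rw [List.mem_toFinset] at hx ⊢
          exact e3 x hx)
        have h6 := hcard _ hl.2
        have h7 := hl.1
        omega
      rw [LinearMap.comp_apply, LinearMap.sub_apply, LinearMap.comp_apply, LinearMap.id_apply, h1,
        h2, sub_zero]) hz
    rw [LinearMap.comp_apply, LinearMap.sub_apply, LinearMap.comp_apply, LinearMap.id_apply, hb,
      map_zero, sub_zero] at h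
    exact h

end AGR
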