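import Pool.Agent.AGR.Defs

/-!
# AGR/Perm: permutations of the vertices that keep the second coordinate; pairing

PROOF PLAN.  `sg (π v) (σ.image π) = sg v σ` (as `sg_image` in AGV/Wd.lean: the filter is the image of the filter; `Finset.filter_image`, `Finset.card_image_of_injective`).
`om_perm`: as `om_sh` in AGV/Om.lean (linearity, induction on the list).  `pair_perm`: reindex the sum by `S ↦ S.image π` (a bijection, `Equiv` of `Finset (Vx M N)`; `Finset.image_image`).
`pair_dd`: `∑_S (dd α) S • c S = ∑_S ∑_{u ∉ S} (sg u S * α (insert u S)) • c S` and `∑_T α T • ∑_{v ∈ T} sg v T • c (T.erase v)`: the map `(S, u) ↦ (insert u S, u)` is a bijection from the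
pairs with `u ∉ S` to the pairs `(T, v)` with `v ∈ T` (`sg_insert_self`).  `pair_congr`: `om_grade`: if `om z S ≠ 0` then `S = l.toFinset` for some `l` with `P l`.
-/

set_option autoImplicit false

namespace AGR

open AGV

variable {M N : ℕ} [NeZero M] {β : Type} [AddCommGroup β]

omit [NeZero M] in
private theorem perm_sg (π : Equiv.Perm (Vx M N)) (hπ : ∀ v, (π v).2 = v.2) (v : Vx M N)
    (S : Finset (Vx M N)) : sg (π v) (S.image π) = sg v S := by
  rw [sg, sg, Finset.filter_image, Finset.card_image_of_injective _ (Equiv.injective _)]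
  congr 2
  ext w
  rw [Finset.mem_filter, Finset.mem_filter, hπ, hπ]

omit [NeZero M] in
private theorem perm_symm (π : Equiv.Perm (Vx M N)) (hπ : ∀ v, (π v).2 = v.2) (v : Vx M N) :
    (π.symm v).2 = v.2 := by
  have h := hπ (π.symm v)
  rw [Equiv.apply_symm_apply] at h
  exact h.symm

private theorem perm_pair (c : Finset (Vx M N) → β) (α : Finset (Vx M N) → ℤ) :
    pair c α = ∑ S : Finset (Vx M N), α S • c S := rfl

theorem pair_dd (c : Finset (Vx M N) → β) (α : Finset (Vx M N) → ℤ) : pair c (dd α) = pair (fd c) α := by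
  have e1 : pair c (dd α) = ∑ u : Vx M N, ∑ S : Finset (Vx M N),
      (if u ∉ S then (sg u S * α (insert u S)) • c S else 0) := by
    rw [Finset.sum_comm, perm_pair]
    refine Finset.sum_congr rfl fun S _ => ?_
    show (∑ u : Vx M N, if u ∈ S then 0 else sg u S * α (insert u S)) • c S = _
    rw [Finset.sum_smul]
    refine Finset.sum_congr rfl fun u _ => ?_
    by_cases hu : u ∈ S
    · rw [if_pos hu, if_neg (fun h => h hu), zero_smul]
    · rw [if_neg hu, if_pos hu]
  have e2 : pair (fd c) α = ∑ u : Vx M N, ∑ T : Finset (Vx M N),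
      (if u ∈ T then (α T * sg u T) • c (T.erase u) else 0) := by
    rw [Finset.sum_comm, perm_pair]
    refine Finset.sum_congr rfl fun T _ => ?_
    show α T • (∑ v ∈ T, sg v T • c (T.erase v)) = _
    rw [Finset.smul_sum, Finset.sum_ite_mem, Finset.univ_inter]
    refine Finset.sum_congr rfl fun u _ => ?_
    rw [smul_smul]
  rw [e1, e2]
  refine Finset.sum_congr rfl fun u _ => ?_
  rw [← Finset.sum_filter, ← Finset.sum_filter]
  refine Finset.sum_nbij' (fun S => insert u S) (fun T => T.erase u) ?_ ?_ ?_ ?_ ?_
  · intro S _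
    rw [Finset.mem_filter]
    exact ⟨Finset.mem_univ _, Finset.mem_insert_self u S⟩
  · intro T _
    rw [Finset.mem_filter]
    exact ⟨Finset.mem_univ _, Finset.notMem_erase u T⟩
  · intro S hS
    exact Finset.erase_insert (Finset.mem_filter.1 hS).2
  · intro T hT
    exact Finset.insert_erase (Finset.mem_filter.1 hT).2
  · intro S hS
    show (sg u S * α (insert u S)) • c S = (α (insert u S) * sg u (insert u S)) •
      c ((insert u S).erase u)
    rw [Finset.erase_insert (Finset.mem_filter.1 hS).2, sg_insert_self, mul_comm]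

private theorem perm_omL (π : Equiv.Perm (Vx M N)) (hπ : ∀ v, (π v).2 = v.2)
    (l : List (Vx M N)) (S : Finset (Vx M N)) :
    omL (l.map π) S = omL l (S.image π.symm) := by
  induction l generalizing S with
  | nil =>
    show (if S = ∅ then (1 : ℤ) else 0) = if S.image π.symm = ∅ then 1 else 0
    by_cases h : S = ∅
    · rw [if_pos h, if_pos (Finset.image_eq_empty.2 h)]
    · rw [if_neg h, if_neg fun h' => h (Finset.image_eq_empty.1 h')]
  | cons v l ih =>
    show (if π v ∈ S then sg (π v) S * omL (l.map π) (S.erase (π v)) else 0) =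
      if v ∈ S.image π.symm then
        sg v (S.image π.symm) * omL l ((S.image π.symm).erase v) else 0
    have h1 := perm_sg π.symm (perm_symm π hπ) (π v) S
    rw [Equiv.symm_apply_apply] at h1
    have h2 := Finset.image_erase π.symm.injective S (π v)
    rw [Equiv.symm_apply_apply] at h2
    have h3 : v ∈ S.image π.symm ↔ π v ∈ S := by
      rw [Finset.mem_image]
      constructor
      · rintro ⟨w, hw, rfl⟩
        rw [Equiv.apply_symm_apply]
        exact hw
      · intro hv
        exact ⟨_, hv, Equiv.symm_apply_apply _ _⟩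
    by_cases hv : π v ∈ S
    · rw [if_pos hv, if_pos (h3.2 hv), ih, h2, h1]
    · rw [if_neg hv, if_neg fun h => hv (h3.1 h)]

theorem om_perm (π : Equiv.Perm (Vx M N)) (hπ : ∀ v, (π v).2 = v.2) (z : Ch (Vx M N)) (S : Finset (Vx M N)) :
    om (mp π z) S = om z (S.image π.symm) := by
  induction z using Finsupp.induction_linear with
  | zero =>
    rw [map_zero, map_zero]
    rfl
  | add x y hx hy =>
    rw [map_add, map_add, map_add, Pi.add_apply, Pi.add_apply, hx, hy]
  | single l c =>
    rw [mp_single, om_single, om_single, Pi.smul_apply, Pi.smul_apply, perm_omL π hπ]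

theorem pair_perm (c : Finset (Vx M N) → β) (π : Equiv.Perm (Vx M N)) (hπ : ∀ v, (π v).2 = v.2) (z : Ch (Vx M N)) :
    pair c (om (mp π z)) = pair (fun S => c (S.image π)) (om z) := by
  rw [perm_pair, perm_pair]
  have h1 : ∀ S : Finset (Vx M N), (S.image π.symm).image π = S := by
    intro S
    rw [Finset.image_image]
    have : (π ∘ π.symm : Vx M N → Vx M N) = id := funext fun v => Equiv.apply_symm_apply π v
    rw [this, Finset.image_id]
  have h2 : ∀ S : Finset (Vx M N), (S.image π).image π.symm = S := by
    intro S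
    rw [Finset.image_image]
    have : (π.symm ∘ π : Vx M N → Vx M N) = id := funext fun v => Equiv.symm_apply_apply π v
    rw [this, Finset.image_id]
  refine Finset.sum_nbij' (fun S => S.image π.symm) (fun S => S.image π)
    (fun _ _ => Finset.mem_univ _) (fun _ _ => Finset.mem_univ _) (fun S _ => h1 S)
    (fun S _ => h2 S) (fun S _ => ?_)
  show om (mp π z) S • c S = om z (S.image π.symm) • c ((S.image π.symm).image π)
  rw [h1, om_perm π hπ]

theorem fd_perm (D : Finset (Vx M N) → β) (π : Equiv.Perm (Vx M N)) (hπ : ∀ v, (π v).2 = v.2) (σ : Finset (Vx M N)) :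
    fd D (σ.image π) = fd (fun ρ => D (ρ.image π)) σ := by
  unfold fd
  rw [Finset.sum_image fun x _ y _ hxy => π.injective hxy]
  refine Finset.sum_congr rfl fun v _ => ?_
  rw [perm_sg π hπ]
  show _ = sg v σ • D ((σ.erase v).image π)
  rw [Finset.image_erase (Equiv.injective _)]

theorem good_perm (π : Equiv.Perm (Vx M N)) (hπ : ∀ v, (π v).2 = v.2) (σ : Finset (Vx M N)) :
    Good (σ.image π) ↔ Good σ := by
  constructor
  · intro h u hu w hw huw
    have h1 := h _ (Finset.mem_image_of_mem _ hu) _ (Finset.mem_image_of_mem _ hw)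
      (by rw [hπ, hπ, huw])
    exact π.injective h1
  · intro h u hu w hw huw
    obtain ⟨u', hu', rfl⟩ := Finset.mem_image.1 hu
    obtain ⟨w', hw', rfl⟩ := Finset.mem_image.1 hw
    rw [hπ, hπ] at huw
    rw [h u' hu' w' hw' huw]

theorem pair_congr (c c' : Finset (Vx M N) → β) {P : List (Vx M N) → Prop} {z : Ch (Vx M N)} (hz : z ∈ SP P)
    (h : ∀ l, P l → c l.toFinset = c' l.toFinset) : pair c (om z) = pair c' (om z) := by
  rw [perm_pair, perm_pair]
  refine Finset.sum_congr rfl fun S _ => ?_
  by_cases h0 : om z S = 0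
  · rw [h0, zero_smul, zero_smul]
  · obtain ⟨l, hl, hS, -⟩ := om_grade hz S h0
    rw [hS, h l hl]

theorem good_toFinset {l : List (Vx M N)} (h : GdL l) : Good l.toFinset := by
  intro u hu w hw huw
  exact h u (List.mem_toFinset.1 hu) w (List.mem_toFinset.1 hw) huw

end AGR
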