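import Pool.Agent.AGR.LFillD

/-!
# AGR/SysL: a system of higher homotopies indexed by finite sets

PROOF PLAN.  Induction on `K`, generalizing `ε`.  Write `l` for `Finsupp.single l 1`, `g r` for `mp (g r • ·)`.
`K = 0`: `δ = ε`, `μ = min η ε`; `R S = R₀` if `S = ∅`, else `0`; `F S` implies `S = ∅` (`S.card ≤ 0`); the sum over `∅` is `0`.
Step `K → K + 1`: `lfillD hdq (e + K)` (`hv` for `j + (e + K) ≤ K + 1 + e + 2`) for `ε`: `δ₁`; the induction hypothesis for `ε' = min ε (δ₁ / 2)`: `δ'`; `δ = min δ' (δ₁ / 2)`.  Given `η`: `μ₁` from `lfillD` for `η`, `μ₂` from the induction hypothesis for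
`min η μ₁`; `μ = min (min μ₁ μ₂) δ`-like (positive, `≤ η`, `≤ δ`).  Given the data, apply the induction hypothesis with `F' S := F S ∧ S.card ≤ K` (the hypotheses on `T`, `R₀` are weakened by `μ ≤ μ₂`, `δ ≤ δ'`: `Ou` is monotone, lemma): `R'`.  For every `S` with `F S`, `S.card = K + 1` let
`u = T S + ∑ r ∈ S, sn S r • (mp (g r • ·) ∘ₗ R' (S.erase r) - R' (S.erase r))`, `s = (-1) ^ (K + 1)`.  `u` is equivariant (`Γ` commutative, `mp_mp`, `mul_comm`), `u [] = 0` (`T S [] = 0`; `R' (S.erase r) [] = 0` if `S.erase r` is nonempty; if it is `∅` then `R' ∅ = R₀` and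
`mp (g r) (R₀ []) = R₀ (mp (g r) []) = R₀ []`); `u l ∈ Ou dq (l.length + (e + K)) μ₁ δ₁ l`: `T S l` (`e + (S.card - 1) = e + K`), `R' (S.erase r) l ∈ Ou dq (l.length + e + K) (min η μ₁) ε' l`, and its translate by `g r` is within `δ + ε' ≤ δ₁` (`dq q (g • y) x ≤ dq q (g • y) y + dq q y x`, `hdq.le_zero`).
`bd (u l) + s • u (bd l) = 0`: the relation of `R' (S.erase r)` (card `K`), `hT4` for `S`, the terms with `R' (S.erase r) (bd l)` cancel, and the double sum
`∑ r ∈ S, ∑ t ∈ S.erase r, sn S r * sn (S.erase r) t • (g r - 1) (g t - 1) R' ((S.erase r).erase t) l` vanishes by antisymmetry: `sn_anti` (below) and `Finset.erase_right_comm` (e.g. the sum `A` satisfies `A = -A` by `Finset.sum_comm'`, and `Ch X` has no 2-torsion; or `Finset.sum_involution`/`sum_sigma'`).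
`lfillD` gives `D`; put `R S = D` (choice), and `R S = R' S` for the other `S`.  All properties.  (In the relation for `S` with `S.card ≤ K` the sets `S.erase r` also have card `≤ K`; for `S.card = K + 1` they have card `K`.)
-/

set_option autoImplicit false

namespace AGR

open AGV

private theorem sysl_ge (S : Finset ℕ) {r t : ℕ} (h : r ≤ t) : sn (S.erase t) r = sn S r := by
  unfold sn
  congr 2
  ext x
  simp only [Finset.mem_filter, Finset.mem_erase]
  constructor
  · rintro ⟨⟨_, h1⟩, h2⟩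
    exact ⟨h1, h2⟩
  · rintro ⟨h1, h2⟩
    exact ⟨⟨by omega, h1⟩, h2⟩

private theorem sysl_lt (S : Finset ℕ) {r t : ℕ} (hr : r ∈ S) (h : r < t) :
    sn (S.erase r) t = - sn S t := by
  unfold sn
  have h1 : (S.erase r).filter (· < t) = (S.filter (· < t)).erase r := by
    ext x
    simp only [Finset.mem_filter, Finset.mem_erase]
    tauto
  have hmem : r ∈ S.filter (· < t) := Finset.mem_filter.2 ⟨hr, h⟩
  have h2 := Finset.card_erase_add_one hmem
  rw [h1, ← h2, pow_succ]
  ring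

theorem sn_anti (S : Finset ℕ) {r t : ℕ} (hr : r ∈ S) (ht : t ∈ S) (h : r ≠ t) :
    sn S r * sn (S.erase r) t = - (sn S t * sn (S.erase t) r) := by
  rcases lt_or_gt_of_ne h with h1 | h1
  · rw [sysl_lt S hr h1, sysl_ge S h1.le]
    ring
  · rw [sysl_lt S ht h1, sysl_ge S h1.le]
    ring

private theorem sysl_mono {X : Type} {dq : ℕ → X → X → ℝ} {q q' : ℕ} (hq : q = q') {μ μ' δ δ' : ℝ}
    (hμ : μ ≤ μ') (hδ : δ ≤ δ') (l : List X) {z : Ch X} (hz : z ∈ Ou dq q μ δ l) :
    z ∈ Ou dq q' μ' δ' l := by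
  subst hq
  refine SP_mono (fun l' hl' => ?_) hz
  obtain ⟨h1, h2, h3⟩ := hl'
  exact ⟨h1, fun x hx y hy => (h2 x hx y hy).trans_le hμ, fun y hy x hx => (h3 y hy x hx).trans_le hδ⟩

private theorem sysl_tr {X : Type} {dq : ℕ → X → X → ℝ} (hdq : DQ dq) {Γ : Type} [Group Γ]
    [MulAction Γ X] (hiso : ∀ (γ : Γ) (q : ℕ) (x y : X), dq q (γ • x) (γ • y) = dq q x y)
    {δ δ₁ μ : ℝ} (hsm : ∀ (γ : Γ) (x : X), dq 0 (γ • x) x < δ) (hδ : δ ≤ δ₁ / 2) (γ : Γ) {q : ℕ}
    (l : List X) {z : Ch X} (hz : z ∈ Ou dq q μ (δ₁ / 2) l) : mp (γ • ·) z ∈ Ou dq q μ δ₁ l := by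
  refine mp_mem _ (fun l' hl' => ?_) hz
  obtain ⟨h1, h2, h3⟩ := hl'
  refine ⟨by rw [List.length_map]; exact h1, ?_, ?_⟩
  · intro x hx y hy
    obtain ⟨x', hx', rfl⟩ := List.mem_map.1 hx
    obtain ⟨y', hy', rfl⟩ := List.mem_map.1 hy
    rw [hiso]
    exact h2 x' hx' y' hy'
  · intro y hy x hx
    obtain ⟨y', hy', rfl⟩ := List.mem_map.1 hy
    have h4 := hdq.tri q (γ • y') y' x
    have h5 := hdq.le_zero q (γ • y') y'
    have h6 := hsm γ y'
    have h7 := h3 y' hy' x hx
    linarith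

private theorem sysl_dbl {X : Type} {Γ : Type} [CommGroup Γ] [MulAction Γ X] (g : ℕ → Γ)
    (S : Finset ℕ) (W : Finset ℕ → Ch X) :
    ∑ r ∈ S, sn S r • (mp (g r • ·) (∑ t ∈ S.erase r, sn (S.erase r) t •
        (mp (g t • ·) (W ((S.erase r).erase t)) - W ((S.erase r).erase t))) -
      ∑ t ∈ S.erase r, sn (S.erase r) t •
        (mp (g t • ·) (W ((S.erase r).erase t)) - W ((S.erase r).erase t))) = 0 := by
  have hcomm : ∀ (a b : Γ) (z : Ch X), mp (a • ·) (mp (b • ·) z) = mp (b • ·) (mp (a • ·) z) := by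
    intro a b z
    rw [mp_mp, mp_mp]
    congr 2
    funext x
    simp only [Function.comp_apply]
    rw [smul_smul, smul_smul, mul_comm]
  have h1 : ∀ r ∈ S, sn S r • (mp (g r • ·) (∑ t ∈ S.erase r, sn (S.erase r) t •
        (mp (g t • ·) (W ((S.erase r).erase t)) - W ((S.erase r).erase t))) -
      ∑ t ∈ S.erase r, sn (S.erase r) t •
        (mp (g t • ·) (W ((S.erase r).erase t)) - W ((S.erase r).erase t))) =
      ∑ t ∈ S.erase r, (sn S r * sn (S.erase r) t) •
        ((mp (g r • ·) (mp (g t • ·) (W ((S.erase r).erase t))) -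
          mp (g r • ·) (W ((S.erase r).erase t))) -
        (mp (g t • ·) (W ((S.erase r).erase t)) - W ((S.erase r).erase t))) := by
    intro r _
    rw [map_sum, ← Finset.sum_sub_distrib, Finset.smul_sum]
    refine Finset.sum_congr rfl fun t _ => ?_
    rw [map_zsmul, map_sub, ← smul_sub, smul_smul]
  rw [Finset.sum_congr rfl h1, Finset.sum_sigma']
  refine Finset.sum_involution (fun q _ => ⟨q.2, q.1⟩) ?_ ?_ ?_ ?_
  · rintro ⟨r, t⟩ hq
    obtain ⟨hr, ht⟩ := Finset.mem_sigma.1 hq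
    obtain ⟨htr, htS⟩ := Finset.mem_erase.1 ht
    dsimp only at hr htr htS ⊢
    rw [sn_anti S hr htS (Ne.symm htr), Finset.erase_right_comm (a := r) (b := t),
      hcomm (g t) (g r), neg_smul, ← smul_neg, ← smul_add]
    convert smul_zero _
    abel
  · rintro ⟨r, t⟩ hq _ heq
    obtain ⟨hr, ht⟩ := Finset.mem_sigma.1 hq
    obtain ⟨htr, _⟩ := Finset.mem_erase.1 ht
    exact htr (congrArg Sigma.fst heq)
  · rintro ⟨r, t⟩ hq
    obtain ⟨hr, ht⟩ := Finset.mem_sigma.1 hq
    obtain ⟨htr, htS⟩ := Finset.mem_erase.1 ht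
    exact Finset.mem_sigma.2 ⟨htS, Finset.mem_erase.2 ⟨Ne.symm htr, hr⟩⟩
  · rintro ⟨r, t⟩ _
    rfl

theorem sysL {X : Type} {dq : ℕ → X → X → ℝ} (hdq : DQ dq) (e K : ℕ) (hv : ∀ q, 1 ≤ q → q ≤ K + e + 2 → VLD dq q) {ε : ℝ}
    (hε : 0 < ε) :
    ∃ δ : ℝ, 0 < δ ∧ δ ≤ ε ∧ ∀ η : ℝ, 0 < η → ∃ μ : ℝ, 0 < μ ∧ μ ≤ η ∧ μ ≤ δ ∧ ∀ μ' : ℝ, 0 < μ' → μ' ≤ μ →
      ∀ (Γ : Type) [CommGroup Γ] [MulAction Γ X], (∀ (γ : Γ) (q : ℕ) (x y : X), dq q (γ • x) (γ • y) = dq q x y) →
        (∀ (γ : Γ) (x : X), γ • x = x → γ = 1) → (∀ (γ : Γ) (x : X), dq 0 (γ • x) x < δ) →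
      ∀ (g : ℕ → Γ) (F : Finset ℕ → Prop) (T : Finset ℕ → Ch X →ₗ[ℤ] Ch X) (R₀ : Ch X →ₗ[ℤ] Ch X),
        (∀ S r, F S → F (S.erase r)) → (∀ S, F S → S.card ≤ K) →
        (∀ S, F S → ∀ (γ : Γ) (z : Ch X), T S (mp (γ • ·) z) = mp (γ • ·) (T S z)) →
        (∀ S, F S → T S (Finsupp.single [] 1) = 0) →
        (∀ S, F S → S.Nonempty → ∀ l : List X, LOK dq μ' l →
          T S (Finsupp.single l 1) ∈ Ou dq (l.length + e + (S.card - 1)) μ δ l) →
        (∀ S, F S → ∀ l : List X, LOK dq μ' l → bd (T S (Finsupp.single l 1)) +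
          (∑ r ∈ S, sn S r • (mp (g r • ·) (T (S.erase r) (Finsupp.single l 1)) - T (S.erase r) (Finsupp.single l 1))) +
            (-1) ^ S.card • T S (bd (Finsupp.single l 1)) = 0) →
        (∀ (γ : Γ) (z : Ch X), R₀ (mp (γ • ·) z) = mp (γ • ·) (R₀ z)) →
        (∀ l : List X, LOK dq μ' l → R₀ (Finsupp.single l 1) ∈ Ou dq (l.length + e) μ δ l) →
        (∀ l : List X, LOK dq μ' l → bd (R₀ (Finsupp.single l 1)) = T ∅ (Finsupp.single l 1) + R₀ (bd (Finsupp.single l 1))) →
        ∃ R : Finset ℕ → Ch X →ₗ[ℤ] Ch X, R ∅ = R₀ ∧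
          (∀ S (γ : Γ) (z : Ch X), R S (mp (γ • ·) z) = mp (γ • ·) (R S z)) ∧
          (∀ S, S.Nonempty → R S (Finsupp.single [] 1) = 0) ∧
          (∀ S, F S → ∀ l : List X, LOK dq μ' l → R S (Finsupp.single l 1) ∈ Ou dq (l.length + e + S.card) η ε l) ∧
          (∀ S, F S → ∀ l : List X, LOK dq μ' l → bd (R S (Finsupp.single l 1)) = T S (Finsupp.single l 1) +
            (∑ r ∈ S, sn S r • (mp (g r • ·) (R (S.erase r) (Finsupp.single l 1)) - R (S.erase r) (Finsupp.single l 1))) +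
              (-1) ^ S.card • R S (bd (Finsupp.single l 1))) := by
  classical
  induction K generalizing ε with
  | zero =>
    refine ⟨ε, hε, le_rfl, fun η hη => ⟨min η ε, lt_min hη hε, min_le_left _ _, min_le_right _ _, ?_⟩⟩
    intro μ' hμ'0 hμ' Γ _ _ hiso hfree hsm g F T R₀ hF1 hF2 hT1 hT2 hT3 hT4 hR1 hR2 hR3
    refine ⟨fun S => if S = ∅ then R₀ else 0, by simp, ?_, ?_, ?_, ?_⟩
    · intro S γ z
      dsimp only
      split_ifs
      · exact hR1 γ z
      · simp
    · intro S hS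
      dsimp only
      rw [if_neg hS.ne_empty]
      rfl
    · intro S hS l hl
      have hS0 : S = ∅ := Finset.card_eq_zero.1 (Nat.le_zero.1 (hF2 S hS))
      subst hS0
      dsimp only
      rw [if_pos rfl]
      exact sysl_mono (by simp) (min_le_left _ _) le_rfl l (hR2 l hl)
    · intro S hS l hl
      have hS0 : S = ∅ := Finset.card_eq_zero.1 (Nat.le_zero.1 (hF2 S hS))
      subst hS0
      simp only [if_true, Finset.sum_empty, add_zero, Finset.card_empty, pow_zero, one_smul]
      exact hR3 l hl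
  | succ K ih =>
    obtain ⟨δ₁, hδ₁0, hδ₁ε, hfill⟩ := lfillD hdq (e + K)
      (fun j hj1 hj3 => hv (j + (e + K)) (by omega) (by omega)) hε
    obtain ⟨δ, hδ0, hδδ₁, hsys⟩ := ih (fun q hq1 hq2 => hv q hq1 (by omega)) (half_pos hδ₁0)
    refine ⟨δ, hδ0, by linarith, fun η hη => ?_⟩
    obtain ⟨μ₁, hμ₁0, hμ₁η, hμ₁δ₁, hfill'⟩ := hfill η hη
    obtain ⟨μ, hμ0, hμμ₁, hμδ, hsys'⟩ := hsys μ₁ hμ₁0
    refine ⟨μ, hμ0, hμμ₁.trans hμ₁η, hμδ, ?_⟩
    intro μ' hμ'0 hμ' Γ _ _ hiso hfree hsm g F T R₀ hF1 hF2 hT1 hT2 hT3 hT4 hR1 hR2 hR3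
    obtain ⟨R', hR'0, hR'1, hR'2, hR'3, hR'4⟩ := hsys' μ' hμ'0 hμ' Γ hiso hfree hsm g
      (fun S => F S ∧ S.card ≤ K) T R₀
      (fun S r hS => ⟨hF1 S r hS.1, (Finset.card_erase_le).trans hS.2⟩) (fun S hS => hS.2)
      (fun S hS => hT1 S hS.1) (fun S hS => hT2 S hS.1) (fun S hS => hT3 S hS.1)
      (fun S hS => hT4 S hS.1) hR1 hR2 hR3
    have hstep : ∀ S : Finset ℕ, F S ∧ S.card = K + 1 → ∃ D : Ch X →ₗ[ℤ] Ch X,
        (∀ (γ : Γ) (z : Ch X), D (mp (γ • ·) z) = mp (γ • ·) (D z)) ∧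
          D (Finsupp.single [] 1) = 0 ∧
          (∀ l : List X, LOK dq μ' l → D (Finsupp.single l 1) ∈ Ou dq (l.length + (e + K) + 1) η ε l) ∧
          (∀ l : List X, LOK dq μ' l →
            bd (D (Finsupp.single l 1)) = T S (Finsupp.single l 1) +
            (∑ r ∈ S, sn S r • (mp (g r • ·) (R' (S.erase r) (Finsupp.single l 1)) - R' (S.erase r) (Finsupp.single l 1))) +
              (-1) ^ S.card • D (bd (Finsupp.single l 1))) := by
      rintro S ⟨hFS, hcard⟩
      set u : Ch X →ₗ[ℤ] Ch X := T S + ∑ r ∈ S, sn S r •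
        (mp (g r • ·) ∘ₗ R' (S.erase r) - R' (S.erase r)) with hu
      have hua : ∀ z : Ch X, u z = T S z + ∑ r ∈ S, sn S r •
          (mp (g r • ·) (R' (S.erase r) z) - R' (S.erase r) z) := by
        intro z
        rw [hu]
        simp only [LinearMap.add_apply, LinearMap.sum_apply, LinearMap.smul_apply,
          LinearMap.sub_apply, LinearMap.comp_apply]
      have hcomm : ∀ (a b : Γ) (z : Ch X),
          mp (a • ·) (mp (b • ·) z) = mp (b • ·) (mp (a • ·) z) := by
        intro a b z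
        rw [mp_mp, mp_mp]
        congr 2
        funext x
        simp only [Function.comp_apply]
        rw [smul_smul, smul_smul, mul_comm]
      have hck : ∀ r ∈ S, (S.erase r).card = K := by
        intro r hr
        rw [Finset.card_erase_of_mem hr, hcard, Nat.add_sub_cancel]
      have hF' : ∀ r ∈ S, F (S.erase r) ∧ (S.erase r).card ≤ K := fun r hr =>
        ⟨hF1 S r hFS, (hck r hr).le⟩
      have hne : S.Nonempty := Finset.card_pos.1 (by omega)
      have c1 : ∀ (γ : Γ) (z : Ch X), u (mp (γ • ·) z) = mp (γ • ·) (u z) := by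
        intro γ z
        rw [hua, hua, hT1 S hFS, map_add, map_sum]
        congr 1
        refine Finset.sum_congr rfl fun r _ => ?_
        rw [hR'1, hcomm, map_zsmul, map_sub]
      have c2 : u (Finsupp.single [] 1) = 0 := by
        rw [hua, hT2 S hFS, zero_add]
        refine Finset.sum_eq_zero fun r _ => ?_
        rw [← hR'1, mp_single]
        simp
      have c3 : ∀ l : List X, LOK dq μ' l →
          u (Finsupp.single l 1) ∈ Ou dq (l.length + (e + K)) μ₁ δ₁ l := by
        intro l hl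
        rw [hua]
        refine Submodule.add_mem _ ?_ (Submodule.sum_mem _ fun r hr => Submodule.smul_mem _ _
          (Submodule.sub_mem _ ?_ ?_))
        · exact sysl_mono (by omega) hμμ₁ (by linarith) l (hT3 S hFS hne l hl)
        · have h1 := hR'3 (S.erase r) (hF' r hr) l hl
          rw [hck r hr] at h1
          exact sysl_mono (by omega) le_rfl le_rfl l
            (sysl_tr hdq hiso hsm hδδ₁ (g r) l h1)
        · have h1 := hR'3 (S.erase r) (hF' r hr) l hl
          rw [hck r hr] at h1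
          exact sysl_mono (by omega) le_rfl (by linarith) l h1
      have c4 : ∀ l : List X, LOK dq μ' l → bd (u (Finsupp.single l 1)) +
          ((-1 : ℤ) ^ S.card) • u (bd (Finsupp.single l 1)) = 0 := by
        intro l hl
        rw [hua, hua, map_add, map_sum]
        have h1 : ∀ r ∈ S, bd (sn S r • (mp (g r • ·) (R' (S.erase r) (Finsupp.single l 1)) -
            R' (S.erase r) (Finsupp.single l 1))) =
            sn S r • (mp (g r • ·) (T (S.erase r) (Finsupp.single l 1)) -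
              T (S.erase r) (Finsupp.single l 1)) +
            sn S r • (mp (g r • ·) (∑ t ∈ S.erase r, sn (S.erase r) t •
                (mp (g t • ·) (R' ((S.erase r).erase t) (Finsupp.single l 1)) -
                  R' ((S.erase r).erase t) (Finsupp.single l 1))) -
              ∑ t ∈ S.erase r, sn (S.erase r) t •
                (mp (g t • ·) (R' ((S.erase r).erase t) (Finsupp.single l 1)) -
                  R' ((S.erase r).erase t) (Finsupp.single l 1))) +
            ((-1 : ℤ) ^ K) • (sn S r • (mp (g r • ·) (R' (S.erase r) (bd (Finsupp.single l 1))) -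
              R' (S.erase r) (bd (Finsupp.single l 1)))) := by
          intro r hr
          rw [map_zsmul, map_sub, bd_mp, hR'4 (S.erase r) (hF' r hr) l hl, hck r hr]
          simp only [map_add, map_zsmul]
          rw [smul_comm ((-1 : ℤ) ^ K) (sn S r), ← smul_add, ← smul_add]
          congr 1
          rw [smul_sub]
          abel
        rw [Finset.sum_congr rfl h1, Finset.sum_add_distrib, Finset.sum_add_distrib,
          sysl_dbl g S (fun S' => R' S' (Finsupp.single l 1)), add_zero, ← Finset.smul_sum,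
          smul_add]
        have h2 := hT4 S hFS l hl
        have h3 : ((-1 : ℤ) ^ S.card) = -((-1) ^ K) := by
          rw [hcard, pow_succ]
          ring
        rw [h3] at h2 ⊢
        set V := ∑ r ∈ S, sn S r • (mp (g r • ·) (R' (S.erase r) (bd (Finsupp.single l 1))) -
              R' (S.erase r) (bd (Finsupp.single l 1)))
        rw [neg_smul, neg_smul]
        rw [neg_smul] at h2
        rw [← h2]
        abel
      obtain ⟨D, hD1, hD2, hD3, hD4⟩ := hfill' μ' hμ'0 (hμ'.trans hμμ₁) Γ hiso hfree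
        ((-1) ^ S.card) u c1 c2 c3 c4
      refine ⟨D, hD1, hD2, hD3, fun l hl => ?_⟩
      rw [hD4 l hl, hua]
    choose! D hD using hstep
    refine ⟨fun S => if F S ∧ S.card = K + 1 then D S else R' S, ?_, ?_, ?_, ?_, ?_⟩
    · dsimp only
      rw [if_neg]
      · exact hR'0
      · rintro ⟨_, h⟩
        simp at h
    · intro S γ z
      dsimp only
      split_ifs with h
      · exact (hD S h).1 γ z
      · exact hR'1 S γ z
    · intro S hS
      dsimp only
      split_ifs with h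
      · exact (hD S h).2.1
      · exact hR'2 S hS
    · intro S hS l hl
      dsimp only
      split_ifs with h
      · exact sysl_mono (by omega) le_rfl le_rfl l ((hD S h).2.2.1 l hl)
      · have hc : S.card ≤ K := by
          have := hF2 S hS
          by_contra hc
          exact h ⟨hS, by omega⟩
        exact sysl_mono rfl hμ₁η (by linarith) l (hR'3 S ⟨hS, hc⟩ l hl)
    · intro S hS l hl
      dsimp only
      have he : ∀ r ∈ S, ¬ (F (S.erase r) ∧ (S.erase r).card = K + 1) := by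
        rintro r hr ⟨_, h⟩
        have h1 := hF2 S hS
        rw [Finset.card_erase_of_mem hr] at h
        have h2 : 0 < S.card := Finset.card_pos.2 ⟨r, hr⟩
        omega
      have hsum : ∑ r ∈ S, sn S r • (mp (g r • ·)
          ((if F (S.erase r) ∧ (S.erase r).card = K + 1 then D (S.erase r) else R' (S.erase r))
            (Finsupp.single l 1)) -
          (if F (S.erase r) ∧ (S.erase r).card = K + 1 then D (S.erase r) else R' (S.erase r))
            (Finsupp.single l 1)) =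
          ∑ r ∈ S, sn S r • (mp (g r • ·) (R' (S.erase r) (Finsupp.single l 1)) -
            R' (S.erase r) (Finsupp.single l 1)) := by
        refine Finset.sum_congr rfl fun r hr => ?_
        rw [if_neg (he r hr)]
      rw [hsum]
      split_ifs with h
      · exact (hD S h).2.2.2 l hl
      · have hc : S.card ≤ K := by
          have := hF2 S hS
          by_contra hc
          exact h ⟨hS, by omega⟩
        exact hR'4 S ⟨hS, hc⟩ l hl

end AGR
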